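import Pool.Agent.H16.MB.Mob

/-!
Row Cen (MP_c844e7, about 180 lines).  Hersch's centring trick.

PROOF.  For `‖a‖ < 1`, `‖x‖ = 1` let `L a x = log (‖x-a‖²/(1-‖a‖²))` and `Φ a = ∫ L a (ξ ω) dμ`.
(i) `1-‖a‖ ≤ ‖x-a‖ ≤ 2`, so `log((1-‖a‖)/(1+‖a‖)) ≤ L a x ≤ log(4/(1-‖a‖²))`: bounded, measurable in `ω`, integrable.
(ii) `d/dt L (a+tv) x = (2⟪a'-x,v⟫)/‖x-a'‖² + 2⟪a',v⟫/(1-‖a'‖²) = -(2/(1-‖a'‖²)) ⟪mob a' x, v⟫`, `a' = a+tv`, bounded by `2‖v‖/(1-‖a'‖²)`
(`norm_mob`).  So (`hasDerivAt_integral_of_dominated_loc_of_deriv_le`) `t ↦ Φ(a+tv)` has at `t = 0` the derivative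
`-(2/(1-‖a‖²)) ⟪∫ mob a (ξ ω) dμ, v⟫` (`integral_inner`), and `Φ` is continuous on the open ball (`continuousAt_of_dominated` or a Lipschitz
bound on smaller balls).
(iii) `Φ` attains its minimum on the open ball: take `a_j` with `Φ(a_j) → inf Φ` (possibly `-∞`; `Φ(a_j) ≤ Φ 0` is enough for what follows, take a
minimising sequence, e.g. of `inf` over the compact balls of radius `1-1/(j+2)`); a subsequence converges to `b` with `‖b‖ ≤ 1`.  Let `M = μ(univ) > 0`.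
If `‖b‖ = 1`: by `hat b` and continuity of `μ` from above there is `δ ∈ (0,1)` with `μ{‖ξ-b‖ < 2δ} ≤ M/4`.  For `‖a-b‖ < δ`, `ℓ = -log(1-‖a‖)`:
where `‖x-b‖ < 2δ`: `L ≥ log((1-‖a‖)/2) = -ℓ - log 2`; elsewhere `‖x-a‖ ≥ δ` and `1-‖a‖² ≤ 2(1-‖a‖)`, so `L ≥ 2 log δ + ℓ - log 2`.  So
`Φ a ≥ (3M/4) ℓ - (M/4) ℓ - M(2|log δ| + log 2)`, which tends to `+∞` as `a → b`; but `Φ(a_j) ≤ Φ 0`.  (Equivalent: there is `ρ < 1` with `Φ a > Φ 0`
for `ρ < ‖a‖ < 1`, by compactness of the sphere; then minimise over the closed ball of radius `ρ`.)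
(iv) At an interior minimum all directional derivatives vanish, so `∫ mob a (ξ ω) dμ = 0` (`inner_self_eq_zero`).
-/

set_option autoImplicit false

open MeasureTheory Set

namespace MB

private lemma Cen_lb {m : ℕ} {a x : E m} (hx : ‖x‖ = 1) : 1 - ‖a‖ ≤ ‖x - a‖ := by
  have := norm_sub_norm_le x a
  linarith

private lemma Cen_ub {m : ℕ} {a x : E m} (ha : ‖a‖ < 1) (hx : ‖x‖ = 1) : ‖x - a‖ ≤ 2 := by
  have := norm_sub_le x a
  linarith

private lemma Cen_log_bd {m : ℕ} {ρ : ℝ} {a x : E m} (hρ : ρ < 1) (ha : ‖a‖ ≤ ρ)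
    (hx : ‖x‖ = 1) :
    |Real.log (‖x - a‖ ^ 2)| ≤ 2 * |Real.log (1 - ρ)| + 2 * Real.log 2 := by
  have h1 : 1 - ρ ≤ ‖x - a‖ := by have := Cen_lb (a := a) hx; linarith
  have h2 : ‖x - a‖ ≤ 2 := Cen_ub (by linarith) hx
  have h0 : 0 < 1 - ρ := by linarith
  have h3 : 0 < ‖x - a‖ := by linarith
  rw [Real.log_pow]
  have h4 := Real.log_le_log h0 h1
  have h5 := Real.log_le_log h3 h2
  have h6 := neg_abs_le (Real.log (1 - ρ))
  have h7 : 0 ≤ Real.log 2 := Real.log_nonneg (by norm_num)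
  have h8 := abs_nonneg (Real.log (1 - ρ))
  rw [abs_le]
  push_cast
  constructor <;> nlinarith

/-- The logarithmic potential. -/
private noncomputable def Cen_J {α : Type*} [MeasurableSpace α] {m : ℕ} (μ : Measure α)
    (ξ : α → E m) (a : E m) : ℝ := ∫ x, Real.log (‖ξ x - a‖ ^ 2) ∂μ

/-- The functional to be minimised. -/
private noncomputable def Cen_Phi {α : Type*} [MeasurableSpace α] {m : ℕ} (μ : Measure α)
    (ξ : α → E m) (a : E m) : ℝ := Cen_J μ ξ a - μ.real univ * Real.log (1 - ‖a‖ ^ 2)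

private lemma Cen_meas {α : Type*} [MeasurableSpace α] {m : ℕ}
    (ξ : α → E m) (hξ : Measurable ξ) (a : E m) :
    Measurable fun x => Real.log (‖ξ x - a‖ ^ 2) :=
  Real.measurable_log.comp (((hξ.sub_const a).norm).pow_const 2)

private lemma Cen_int {α : Type*} [MeasurableSpace α] {m : ℕ} (μ : Measure α)
    [IsFiniteMeasure μ] (ξ : α → E m) (hξ : Measurable ξ) (h1 : ∀ x, ‖ξ x‖ = 1) {a : E m}
    (ha : ‖a‖ < 1) : Integrable (fun x => Real.log (‖ξ x - a‖ ^ 2)) μ :=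
  Integrable.of_bound (Cen_meas ξ hξ a).aestronglyMeasurable
    (2 * |Real.log (1 - ‖a‖)| + 2 * Real.log 2)
    (Filter.Eventually.of_forall fun x => by
      rw [Real.norm_eq_abs]
      exact Cen_log_bd ha le_rfl (h1 x))

private lemma Cen_cont {α : Type*} [MeasurableSpace α] {m : ℕ} (μ : Measure α)
    [IsFiniteMeasure μ] (ξ : α → E m) (hξ : Measurable ξ) (h1 : ∀ x, ‖ξ x‖ = 1) {ρ : ℝ}
    (hρ0 : 0 ≤ ρ) (hρ : ρ < 1) : ContinuousOn (Cen_Phi μ ξ) (Metric.closedBall 0 ρ) := by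
  have hJ : ContinuousOn (Cen_J μ ξ) (Metric.closedBall 0 ρ) := by
    refine continuousOn_of_dominated
      (bound := fun _ => 2 * |Real.log (1 - ρ)| + 2 * Real.log 2) ?_ ?_ ?_ ?_
    · intro a _
      exact (Cen_meas ξ hξ a).aestronglyMeasurable
    · intro a ha
      rw [mem_closedBall_zero_iff] at ha
      refine Filter.Eventually.of_forall fun x => ?_
      rw [Real.norm_eq_abs]
      exact Cen_log_bd hρ ha (h1 x)
    · exact integrable_const _
    · refine Filter.Eventually.of_forall fun x => ?_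
      refine ContinuousOn.log ?_ ?_
      · exact (((continuous_const.sub continuous_id).norm).pow 2).continuousOn
      · intro a ha
        rw [mem_closedBall_zero_iff] at ha
        have := Cen_lb (a := a) (h1 x)
        have h0 : 0 < ‖ξ x - a‖ := by linarith
        positivity
  refine hJ.sub (continuousOn_const.mul (ContinuousOn.log ?_ ?_))
  · exact (continuous_const.sub ((continuous_norm).pow 2)).continuousOn
  · intro a ha
    rw [mem_closedBall_zero_iff] at ha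
    have := norm_nonneg a
    nlinarith

private lemma Cen_low {α : Type*} [MeasurableSpace α] {m : ℕ} (μ : Measure α)
    [IsFiniteMeasure μ] (hμ : 0 < μ.real univ) (ξ : α → E m) (hξ : Measurable ξ)
    (h1 : ∀ x, ‖ξ x‖ = 1) {δ : ℝ} (hδ : 0 < δ) (hδ1 : δ ≤ 1) {b : E m}
    (hS : μ.real {x | ‖ξ x - b‖ < 2 * δ} ≤ μ.real univ / 4) {a : E m} (ha : ‖a‖ < 1)
    (hab : ‖a - b‖ < δ) :
    μ.real univ / 2 * (-Real.log (1 - ‖a‖)) + 2 * μ.real univ * Real.log δ
      - μ.real univ * Real.log 2 ≤ Cen_Phi μ ξ a := by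
  set M := μ.real univ with hM
  set S : Set α := {x | ‖ξ x - b‖ < 2 * δ} with hSd
  have hSm : MeasurableSet S :=
    measurableSet_lt ((hξ.sub_const b).norm) measurable_const
  have ha0 := norm_nonneg a
  have h0 : 0 < 1 - ‖a‖ := by linarith
  have hl : Real.log (1 - ‖a‖) ≤ 0 := Real.log_nonpos h0.le (by linarith)
  have hlδ : Real.log δ ≤ 0 := Real.log_nonpos hδ.le hδ1
  have hpt : ∀ x, 2 * Real.log δ + S.indicator (fun _ => 2 * Real.log (1 - ‖a‖)) x
      ≤ Real.log (‖ξ x - a‖ ^ 2) := by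
    intro x
    rw [Real.log_pow]
    push_cast
    by_cases hx : x ∈ S
    · rw [indicator_of_mem hx]
      have := Real.log_le_log h0 (Cen_lb (a := a) (h1 x))
      linarith
    · rw [indicator_of_notMem hx]
      have hx' : 2 * δ ≤ ‖ξ x - b‖ := not_lt.1 hx
      have h3 : ‖ξ x - b‖ ≤ ‖ξ x - a‖ + ‖a - b‖ := by
        have : ξ x - b = (ξ x - a) + (a - b) := by abel
        rw [this]; exact norm_add_le _ _
      have h4 : δ ≤ ‖ξ x - a‖ := by linarith
      have := Real.log_le_log hδ h4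
      linarith
  have hi1 : Integrable (fun x => 2 * Real.log δ
      + S.indicator (fun _ => 2 * Real.log (1 - ‖a‖)) x) μ :=
    (integrable_const _).add ((integrable_const _).indicator hSm)
  have h5 : ∫ x, (2 * Real.log δ + S.indicator (fun _ => 2 * Real.log (1 - ‖a‖)) x) ∂μ
      ≤ Cen_J μ ξ a := integral_mono hi1 (Cen_int μ ξ hξ h1 ha) hpt
  have h6 : ∫ x, (2 * Real.log δ + S.indicator (fun _ => 2 * Real.log (1 - ‖a‖)) x) ∂μ
      = M * (2 * Real.log δ) + μ.real S * (2 * Real.log (1 - ‖a‖)) := by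
    rw [integral_add (integrable_const _) ((integrable_const _).indicator hSm),
      integral_const, integral_indicator_const _ hSm]
    simp [smul_eq_mul, hM]
  have h7 : Real.log (1 - ‖a‖ ^ 2) ≤ Real.log (1 - ‖a‖) + Real.log 2 := by
    rw [← Real.log_mul h0.ne' (by norm_num)]
    refine Real.log_le_log (by nlinarith) (by nlinarith)
  have h8 : M * Real.log (1 - ‖a‖ ^ 2) ≤ M * (Real.log (1 - ‖a‖) + Real.log 2) :=
    mul_le_mul_of_nonneg_left h7 hμ.le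
  have h9 : M / 4 * (2 * Real.log (1 - ‖a‖)) ≤ μ.real S * (2 * Real.log (1 - ‖a‖)) :=
    mul_le_mul_of_nonpos_right hS (by linarith)
  have h10 : Cen_Phi μ ξ a = Cen_J μ ξ a - M * Real.log (1 - ‖a‖ ^ 2) := rfl
  rw [h10]
  nlinarith

private lemma Cen_delta {α : Type*} [MeasurableSpace α] {m : ℕ} (μ : Measure α)
    [IsFiniteMeasure μ] (hμ : 0 < μ.real univ) (ξ : α → E m) (hξ : Measurable ξ)
    (hat : ∀ u, μ {x | ξ x = u} = 0) (b : E m) :
    ∃ δ : ℝ, 0 < δ ∧ δ ≤ 1 ∧ μ.real {x | ‖ξ x - b‖ < 2 * δ} ≤ μ.real univ / 4 := by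
  have hm : ∀ k : ℕ, MeasurableSet {x | ‖ξ x - b‖ < 2 * (1 / ((k : ℝ) + 1))} := fun k =>
    measurableSet_lt ((hξ.sub_const b).norm) measurable_const
  have hanti : Antitone fun k : ℕ => {x | ‖ξ x - b‖ < 2 * (1 / ((k : ℝ) + 1))} := by
    intro i j hij x hx
    have hx' : ‖ξ x - b‖ < 2 * (1 / ((j : ℝ) + 1)) := hx
    change ‖ξ x - b‖ < 2 * (1 / ((i : ℝ) + 1))
    refine lt_of_lt_of_le hx' ?_
    have : 1 / ((j : ℝ) + 1) ≤ 1 / ((i : ℝ) + 1) := by
      refine one_div_le_one_div_of_le (by positivity) ?_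
      have : (i : ℝ) ≤ j := by exact_mod_cast hij
      linarith
    linarith
  have ht := tendsto_measure_iInter_atTop (μ := μ)
    (s := fun k : ℕ => {x | ‖ξ x - b‖ < 2 * (1 / ((k : ℝ) + 1))})
    (fun k => (hm k).nullMeasurableSet) hanti ⟨0, measure_ne_top _ _⟩
  have hI : (⋂ k : ℕ, {x | ‖ξ x - b‖ < 2 * (1 / ((k : ℝ) + 1))}) = {x | ξ x = b} := by
    ext x
    constructor
    · intro h
      have h' : ∀ k : ℕ, ‖ξ x - b‖ < 2 * (1 / ((k : ℝ) + 1)) := fun k => mem_iInter.1 h k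
      have h2 : ‖ξ x - b‖ ≤ 2 * 0 := by
        refine ge_of_tendsto' (tendsto_one_div_add_atTop_nhds_zero_nat.const_mul 2) fun k => ?_
        exact (h' k).le
      have h3 : ‖ξ x - b‖ = 0 := le_antisymm (by linarith) (norm_nonneg _)
      exact sub_eq_zero.1 (norm_eq_zero.1 h3)
    · intro h
      refine mem_iInter.2 fun k => ?_
      have h' : ξ x = b := h
      change ‖ξ x - b‖ < _
      rw [h', sub_self, norm_zero]
      positivity
  rw [hI, hat b] at ht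
  have hpos : (0 : ENNReal) < ENNReal.ofReal (μ.real univ / 4) := by
    rw [ENNReal.ofReal_pos]; positivity
  obtain ⟨k, hk⟩ := (ht.eventually (gt_mem_nhds hpos)).exists
  refine ⟨1 / ((k : ℝ) + 1), by positivity, ?_, ?_⟩
  · rw [div_le_one (by positivity)]
    have : (0 : ℝ) ≤ k := Nat.cast_nonneg k
    linarith
  · have hk' : μ {x | ‖ξ x - b‖ < 2 * (1 / ((k : ℝ) + 1))} < ENNReal.ofReal (μ.real univ / 4) := hk
    exact ENNReal.toReal_le_of_le_ofReal (by positivity) hk'.le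

private lemma Cen_coer {α : Type*} [MeasurableSpace α] {m : ℕ} (μ : Measure α)
    [IsFiniteMeasure μ] (hμ : 0 < μ.real univ) (ξ : α → E m) (hξ : Measurable ξ)
    (h1 : ∀ x, ‖ξ x‖ = 1) (hat : ∀ u, μ {x | ξ x = u} = 0) :
    ∃ j : ℕ, ∀ a : E m, 1 - 1 / ((j : ℝ) + 1 + 1) < ‖a‖ → ‖a‖ < 1 →
      Cen_Phi μ ξ 0 < Cen_Phi μ ξ a := by
  by_contra hcon
  push Not at hcon
  choose a ha1 ha2 ha3 using hcon
  have hmem : ∀ j, a j ∈ Metric.closedBall (0 : E m) 1 := fun j => by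
    rw [mem_closedBall_zero_iff]; exact (ha2 j).le
  obtain ⟨b, hb, φ, hφ, hlim⟩ := (isCompact_closedBall (0 : E m) 1).tendsto_subseq hmem
  obtain ⟨δ, hδ, hδ1, hS⟩ := Cen_delta μ hμ ξ hξ hat b
  set M := μ.real univ with hM
  -- the bound
  have hev : ∀ᶠ k in Filter.atTop, ‖a (φ k) - b‖ < δ := by
    have := (Metric.tendsto_nhds.1 hlim) δ hδ
    filter_upwards [this] with k hk
    rw [← dist_eq_norm]; exact hk
  set C : ℝ := 2 / M * (Cen_Phi μ ξ 0 - 2 * M * Real.log δ + M * Real.log 2) with hC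
  have hlow : ∀ᶠ k in Filter.atTop, Real.exp (-C) ≤ 1 - ‖a (φ k)‖ := by
    filter_upwards [hev] with k hk
    have h2 := Cen_low μ hμ ξ hξ h1 hδ hδ1 hS (ha2 (φ k)) hk
    have h3 := ha3 (φ k)
    have h0 : 0 < 1 - ‖a (φ k)‖ := by have := ha2 (φ k); linarith
    have h4 : -Real.log (1 - ‖a (φ k)‖) ≤ C := by
      rw [hC, div_mul_eq_mul_div, le_div_iff₀ hμ]
      rw [← hM] at h2
      nlinarith
    calc Real.exp (-C) ≤ Real.exp (Real.log (1 - ‖a (φ k)‖)) :=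
          Real.exp_le_exp.2 (by linarith)
      _ = 1 - ‖a (φ k)‖ := Real.exp_log h0
  have ht : Filter.Tendsto (fun k : ℕ => 1 / ((k : ℝ) + 1)) Filter.atTop (nhds 0) :=
    tendsto_one_div_add_atTop_nhds_zero_nat
  have hsm := ht.eventually (gt_mem_nhds (Real.exp_pos (-C)))
  obtain ⟨k, hk1, hk2⟩ := (hlow.and hsm).exists
  have h3 := ha1 (φ k)
  have h4 : 1 / ((φ k : ℝ) + 1 + 1) ≤ 1 / ((k : ℝ) + 1) := by
    refine one_div_le_one_div_of_le (by positivity) ?_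
    have : (k : ℝ) ≤ φ k := by exact_mod_cast hφ.id_le k
    linarith
  linarith

private lemma Cen_min {α : Type*} [MeasurableSpace α] {m : ℕ} (μ : Measure α)
    [IsFiniteMeasure μ] (hμ : 0 < μ.real univ) (ξ : α → E m) (hξ : Measurable ξ)
    (h1 : ∀ x, ‖ξ x‖ = 1) (hat : ∀ u, μ {x | ξ x = u} = 0) :
    ∃ a : E m, ‖a‖ < 1 ∧ ∀ a' : E m, ‖a'‖ < 1 → Cen_Phi μ ξ a ≤ Cen_Phi μ ξ a' := by
  obtain ⟨j, hj⟩ := Cen_coer μ hμ ξ hξ h1 hat
  have hj0 : (0 : ℝ) ≤ j := Nat.cast_nonneg j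
  set ρ : ℝ := 1 - 1 / ((j : ℝ) + 1 + 1) with hρ
  have hρ1 : ρ < 1 := by
    have : 0 < 1 / ((j : ℝ) + 1 + 1) := by positivity
    linarith
  have hρ0 : 0 ≤ ρ := by
    have : 1 / ((j : ℝ) + 1 + 1) ≤ 1 := by
      rw [div_le_one (by positivity)]; linarith
    linarith
  obtain ⟨a, ha, hmin⟩ := (isCompact_closedBall (0 : E m) ρ).exists_isMinOn
    ⟨0, by rw [mem_closedBall_zero_iff, norm_zero]; exact hρ0⟩ (Cen_cont μ ξ hξ h1 hρ0 hρ1)
  have hmin' : ∀ a' : E m, ‖a'‖ ≤ ρ → Cen_Phi μ ξ a ≤ Cen_Phi μ ξ a' := fun a' ha' =>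
    hmin (mem_closedBall_zero_iff.2 ha')
  refine ⟨a, by rw [mem_closedBall_zero_iff] at ha; linarith, fun a' ha' => ?_⟩
  by_cases h : ‖a'‖ ≤ ρ
  · exact hmin' a' h
  · have h2 := hj a' (not_le.1 h) ha'
    have h3 := hmin' 0 (by rw [norm_zero]; exact hρ0)
    linarith

private lemma Cen_der {α : Type*} [MeasurableSpace α] {m : ℕ} (μ : Measure α)
    [IsFiniteMeasure μ] (ξ : α → E m) (hξ : Measurable ξ)
    (h1 : ∀ x, ‖ξ x‖ = 1) (a v : E m) (ha : ‖a‖ < 1) :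
    Integrable (fun x => (2 * inner ℝ (ξ x - a) (-v)) / ‖ξ x - a‖ ^ 2) μ ∧
    HasDerivAt (fun t : ℝ => Cen_J μ ξ (a + t • v))
      (∫ x, (2 * inner ℝ (ξ x - a) (-v)) / ‖ξ x - a‖ ^ 2 ∂μ) 0 := by
  have hv := norm_nonneg v
  set ε : ℝ := (1 - ‖a‖) / (2 * (‖v‖ + 1)) with hε
  have hε0 : 0 < ε := by
    rw [hε]; apply div_pos (by linarith) (by positivity)
  have hεv : ε * ‖v‖ ≤ (1 - ‖a‖) / 2 := by
    rw [hε, div_mul_eq_mul_div, div_le_div_iff₀ (by positivity) (by norm_num)]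
    nlinarith
  have hr : ∀ t ∈ Metric.ball (0 : ℝ) ε, ‖a + t • v‖ ≤ (1 + ‖a‖) / 2 := by
    intro t ht
    rw [mem_ball_zero_iff, Real.norm_eq_abs] at ht
    have h2 := norm_add_le a (t • v)
    rw [norm_smul, Real.norm_eq_abs] at h2
    have h3 : |t| * ‖v‖ ≤ ε * ‖v‖ := mul_le_mul_of_nonneg_right ht.le hv
    linarith
  have hq : ∀ t ∈ Metric.ball (0 : ℝ) ε, ∀ x, (1 - ‖a‖) / 2 ≤ ‖ξ x - (a + t • v)‖ := by
    intro t ht x
    have h2 := hr t ht
    have h3 := Cen_lb (a := a + t • v) (h1 x)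
    linarith
  have key := hasDerivAt_integral_of_dominated_loc_of_deriv_le (μ := μ)
    (F := fun (t : ℝ) (x : α) => Real.log (‖ξ x - (a + t • v)‖ ^ 2))
    (F' := fun (t : ℝ) (x : α) =>
      (2 * inner ℝ (ξ x - (a + t • v)) (-v)) / ‖ξ x - (a + t • v)‖ ^ 2)
    (x₀ := 0) (s := Metric.ball 0 ε)
    (bound := fun _ => 2 * ‖v‖ / ((1 - ‖a‖) / 2))
    (Metric.ball_mem_nhds _ hε0) ?_ ?_ ?_ ?_ ?_ ?_
  · simpa [Cen_J] using key
  · exact Filter.Eventually.of_forall fun t => (Cen_meas ξ hξ _).aestronglyMeasurable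
  · have := Cen_int μ ξ hξ h1 ha
    simpa using this
  · refine Measurable.aestronglyMeasurable ?_
    refine Measurable.div ?_ ?_
    · exact (((hξ.sub_const _).inner measurable_const).const_mul 2)
    · exact (((hξ.sub_const _).norm).pow_const 2)
  · refine Filter.Eventually.of_forall fun x t ht => ?_
    have h2 := hq t ht x
    have h0 : 0 < (1 - ‖a‖) / 2 := by linarith
    have hpos : 0 < ‖ξ x - (a + t • v)‖ := by linarith
    rw [norm_div, norm_mul, norm_pow, norm_norm, Real.norm_eq_abs, Real.norm_eq_abs,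
      abs_of_pos (by norm_num : (0 : ℝ) < 2)]
    have h3 : |inner ℝ (ξ x - (a + t • v)) (-v)| ≤ ‖ξ x - (a + t • v)‖ * ‖v‖ := by
      have := abs_real_inner_le_norm (ξ x - (a + t • v)) (-v)
      rwa [norm_neg] at this
    rw [div_le_div_iff₀ (by positivity) h0]
    have h4 : |inner ℝ (ξ x - (a + t • v)) (-v)| * ((1 - ‖a‖) / 2)
        ≤ (‖ξ x - (a + t • v)‖ * ‖v‖) * ‖ξ x - (a + t • v)‖ :=
      mul_le_mul h3 h2 h0.le (by positivity)
    nlinarith
  · exact integrable_const _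
  · refine Filter.Eventually.of_forall fun x t ht => ?_
    have h2 := hq t ht x
    have hpos : 0 < ‖ξ x - (a + t • v)‖ := by
      have : 0 < (1 - ‖a‖) / 2 := by linarith
      linarith
    have hd : HasDerivAt (fun t : ℝ => ξ x - (a + t • v)) (-v) t := by
      have h3 : HasDerivAt (fun t : ℝ => t • v) ((1 : ℝ) • v) t :=
        (hasDerivAt_id t).smul_const v
      have h4 := (h3.const_add a).const_sub (ξ x)
      simpa using h4
    have h5 := hd.norm_sq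
    exact h5.log (by positivity)

private lemma Cen_crit {α : Type*} [MeasurableSpace α] {m : ℕ} (μ : Measure α)
    [IsFiniteMeasure μ] (ξ : α → E m) (hξ : Measurable ξ)
    (h1 : ∀ x, ‖ξ x‖ = 1) (a : E m) (ha : ‖a‖ < 1)
    (hmin : ∀ a' : E m, ‖a'‖ < 1 → Cen_Phi μ ξ a ≤ Cen_Phi μ ξ a') (v : E m) :
    ∫ x, inner ℝ v (mob a (ξ x)) ∂μ = 0 := by
  obtain ⟨hint, hder⟩ := Cen_der μ ξ hξ h1 a v ha
  have ha0 := norm_nonneg a
  have hk : 0 < 1 - ‖a‖ ^ 2 := by nlinarith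
  have hd2 : HasDerivAt (fun t : ℝ => 1 - ‖a + t • v‖ ^ 2) (-(2 * inner ℝ a v)) 0 := by
    have h3 : HasDerivAt (fun t : ℝ => t • v) ((1 : ℝ) • v) 0 :=
      (hasDerivAt_id 0).smul_const v
    have h4 := ((h3.const_add a).norm_sq).const_sub 1
    simpa using h4
  have hd3 : HasDerivAt (fun t : ℝ => Real.log (1 - ‖a + t • v‖ ^ 2))
      (-(2 * inner ℝ a v) / (1 - ‖a‖ ^ 2)) 0 := by
    have := hd2.log (by simpa using hk.ne')
    simpa using this
  have hdP : HasDerivAt (fun t : ℝ => Cen_Phi μ ξ (a + t • v))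
      ((∫ x, (2 * inner ℝ (ξ x - a) (-v)) / ‖ξ x - a‖ ^ 2 ∂μ)
        - μ.real univ * (-(2 * inner ℝ a v) / (1 - ‖a‖ ^ 2))) 0 :=
    hder.sub (hd3.const_mul _)
  have hloc : IsLocalMin (fun t : ℝ => Cen_Phi μ ξ (a + t • v)) 0 := by
    have hc : ContinuousAt (fun t : ℝ => ‖a + t • v‖) 0 := by fun_prop
    have hev : ∀ᶠ t in nhds (0 : ℝ), ‖a + t • v‖ < 1 := by
      apply hc.eventually (gt_mem_nhds _)
      simpa using ha
    filter_upwards [hev] with t ht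
    have := hmin (a + t • v) ht
    simpa using this
  have hz := hloc.hasDerivAt_eq_zero hdP
  have hpt : ∀ x, inner ℝ v (mob a (ξ x))
      = (-(1 - ‖a‖ ^ 2) / 2) * ((2 * inner ℝ (ξ x - a) (-v)) / ‖ξ x - a‖ ^ 2)
        - inner ℝ a v := by
    intro x
    have hpos : 0 < ‖ξ x - a‖ := by have := Cen_lb (a := a) (h1 x); linarith
    rw [mob, inner_sub_right, inner_smul_right, inner_neg_right, real_inner_comm v (ξ x - a),
      real_inner_comm v a]
    field_simp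
  calc ∫ x, inner ℝ v (mob a (ξ x)) ∂μ
      = ∫ x, ((-(1 - ‖a‖ ^ 2) / 2) * ((2 * inner ℝ (ξ x - a) (-v)) / ‖ξ x - a‖ ^ 2)
        - inner ℝ a v) ∂μ := integral_congr_ae (Filter.Eventually.of_forall hpt)
    _ = (-(1 - ‖a‖ ^ 2) / 2) * (∫ x, (2 * inner ℝ (ξ x - a) (-v)) / ‖ξ x - a‖ ^ 2 ∂μ)
        - μ.real univ * inner ℝ a v := by
        rw [integral_sub (hint.const_mul _) (integrable_const _), integral_const_mul,
          integral_const, smul_eq_mul]
    _ = 0 := by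
        have h2 : (∫ x, (2 * inner ℝ (ξ x - a) (-v)) / ‖ξ x - a‖ ^ 2 ∂μ)
            = μ.real univ * (-(2 * inner ℝ a v) / (1 - ‖a‖ ^ 2)) := by linarith
        rw [h2]
        field_simp
        ring

theorem cen {α : Type*} [MeasurableSpace α] {m : ℕ} (μ : Measure α) [IsFiniteMeasure μ]
    (hμ : μ ≠ 0) (ξ : α → E m) (hξ : Measurable ξ) (h1 : ∀ x, ‖ξ x‖ = 1)
    (hat : ∀ u, μ {x | ξ x = u} = 0) :
    ∃ a : E m, ‖a‖ < 1 ∧ ∫ x, mob a (ξ x) ∂μ = 0 := by
  have hM : 0 < μ.real univ := by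
    rw [Measure.real]
    refine ENNReal.toReal_pos ?_ (measure_ne_top _ _)
    rwa [Ne, Measure.measure_univ_eq_zero]
  obtain ⟨a, ha, hmin⟩ := Cen_min μ hM ξ hξ h1 hat
  refine ⟨a, ha, ?_⟩
  have hme : Measurable fun x => mob a (ξ x) := by
    have h2 : Measurable fun x => (1 - ‖a‖ ^ 2) / ‖ξ x - a‖ ^ 2 :=
      measurable_const.div (((hξ.sub_const a).norm).pow_const 2)
    exact (h2.smul (hξ.sub_const a)).sub_const a
  have hint : Integrable (fun x => mob a (ξ x)) μ :=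
    Integrable.of_bound hme.aestronglyMeasurable 1
      (Filter.Eventually.of_forall fun x => (norm_mob a (ξ x) ha (h1 x)).le)
  have h2 := Cen_crit μ ξ hξ h1 a ha hmin (∫ x, mob a (ξ x) ∂μ)
  rw [integral_inner hint] at h2
  exact inner_self_eq_zero.1 h2

end MB
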