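import Pool.Agent.H16.MB.Defs

/-!
Row Gram (MP_c844e7, about 100 lines).  Determinants of two kinds of linear maps.

PROOF.  `gram`: the self-adjoint maps `A† A` and `ν² 1 + (β²-ν²) e⊗e` have the same quadratic form, so they are equal (polarisation:
`LinearMap.IsSymmetric` / `ext_inner_self`-like lemma, or `ContinuousLinearMap.isSelfAdjoint` and `inner_map_self_eq_zero` over `ℝ` for symmetric
maps; one may compare the bilinear forms by expanding `h (u+v) - h (u-v)`).  `det (A† A) = (det A)²`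
(`LinearMap.det_adjoint`, or through matrices: `Matrix.det_transpose`).  `det (ν² 1 + (β²-ν²) e⊗e) = ν^(2(m+1)) (1 + (β²-ν²)/ν²) = ν^(2m) β²`
(matrix `ν²(1 + c e eᵀ)`, `Matrix.det_one_add_replicateCol_mul_replicateRow` or `LinearMap.det_one_add…`; `det (c • A) = c^dim det A`), `‖e‖ = 1`.  So
`(det A)² = (|β| ν^m)²`.
`det_ext`: let `κ : E (n+1) ≃ₗ[ℝ] E n × ℝ`, `κ X = (ini X, lst X)` (inverse `(z,t) ↦ emb z + t eL`); then `A = κ⁻¹ ∘ (B × id) ∘ κ`, so `det A = det B`
(`LinearMap.det_conj`, `LinearMap.det_prodMap`).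
-/

set_option autoImplicit false

open MeasureTheory Set

namespace MB

lemma Gram_det_adjoint {F : Type*} [NormedAddCommGroup F] [InnerProductSpace ℝ F]
    [FiniteDimensional ℝ F] (T : F →ₗ[ℝ] F) :
    LinearMap.det (LinearMap.adjoint T) = LinearMap.det T := by
  have b := stdOrthonormalBasis ℝ F
  rw [← LinearMap.det_toMatrix b.toBasis, LinearMap.toMatrix_adjoint, Matrix.det_conjTranspose,
    LinearMap.det_toMatrix, star_trivial]

theorem gram {m : ℕ} (A : E (m + 1) →L[ℝ] E (m + 1)) (e : E (m + 1)) (he : ‖e‖ = 1) (β ν : ℝ)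
    (hν : 0 < ν)
    (h : ∀ u, ‖A u‖ ^ 2 = β ^ 2 * inner ℝ e u ^ 2 + ν ^ 2 * (‖u‖ ^ 2 - inner ℝ e u ^ 2)) :
    |A.det| = |β| * ν ^ m := by
  obtain ⟨T, hT⟩ : ∃ T : E (m + 1) →ₗ[ℝ] E (m + 1), T = A.toLinearMap := ⟨_, rfl⟩
  have hTA : ∀ u, T u = A u := fun u => by rw [hT]; rfl
  obtain ⟨f, hf⟩ : ∃ f : E (m + 1) →ₗ[ℝ] ℝ, ∀ u, f u = (β ^ 2 - ν ^ 2) / ν ^ 2 * inner ℝ e u :=
    ⟨((β ^ 2 - ν ^ 2) / ν ^ 2) • (innerSL ℝ e).toLinearMap, fun _ => rfl⟩
  have hS : (LinearMap.adjoint T ∘ₗ T - (ν ^ 2) • LinearMap.transvection f e).IsSymmetric := by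
    intro x y
    simp only [LinearMap.sub_apply, LinearMap.smul_apply, LinearMap.comp_apply,
      LinearMap.transvection.apply, inner_sub_left, inner_sub_right, inner_smul_left,
      inner_smul_right, inner_add_left, inner_add_right, LinearMap.adjoint_inner_left,
      LinearMap.adjoint_inner_right, hf]
    rw [real_inner_comm x e]
    simp only [conj_trivial]
    ring
  have h0 : LinearMap.adjoint T ∘ₗ T - (ν ^ 2) • LinearMap.transvection f e = 0 := by
    rw [← hS.inner_map_self_eq_zero]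
    intro x
    simp only [LinearMap.sub_apply, LinearMap.smul_apply, LinearMap.comp_apply,
      LinearMap.transvection.apply, inner_sub_left, inner_smul_left,
      inner_add_left, LinearMap.adjoint_inner_left, hf]
    rw [hTA, real_inner_self_eq_norm_sq, real_inner_self_eq_norm_sq, h x]
    simp only [conj_trivial]
    field_simp
    ring
  have h1 : LinearMap.adjoint T ∘ₗ T = (ν ^ 2) • LinearMap.transvection f e := sub_eq_zero.1 h0
  have h2 := congrArg LinearMap.det h1
  rw [LinearMap.det_comp, Gram_det_adjoint, LinearMap.det_smul, LinearMap.transvection.det, hf,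
    real_inner_self_eq_norm_sq, he, finrank_euclideanSpace_fin] at h2
  have h3 : A.det = LinearMap.det T := by rw [hT]
  have h4 : |A.det| ^ 2 = (|β| * ν ^ m) ^ 2 := by
    rw [sq_abs, mul_pow, sq_abs, h3, sq (LinearMap.det T), h2]
    have : ν ≠ 0 := hν.ne'
    field_simp
    ring_nf
  exact (sq_eq_sq₀ (abs_nonneg _) (by positivity)).1 h4

lemma Gram_equiv (n : ℕ) : ∃ κ : (E n × ℝ) ≃ₗ[ℝ] E (n + 1),
    (∀ p, κ p = emb n p.1 + p.2 • eL n) ∧ ∀ X, κ.symm X = (ini n X, lst X) := by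
  refine ⟨
    { toFun := fun p => emb n p.1 + p.2 • eL n
      invFun := fun X => (ini n X, lst X)
      map_add' := fun p q => ?_
      map_smul' := fun c p => ?_
      left_inv := fun p => ?_
      right_inv := fun X => emb_ini X }, fun _ => rfl, fun _ => rfl⟩
  · simp only [Prod.fst_add, Prod.snd_add, map_add]
    module
  · simp only [Prod.smul_fst, Prod.smul_snd, map_smul, RingHom.id_apply, smul_eq_mul]
    module
  · refine Prod.ext ?_ ?_
    · simp only [map_add, map_smul, ini_emb, ini_eL, smul_zero, add_zero]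
    · simp only [lst_add, lst_smul, lst_emb, lst_eL, mul_one, zero_add]

theorem det_ext {n : ℕ} (A : E (n + 1) →L[ℝ] E (n + 1)) (B : E n →L[ℝ] E n)
    (h : ∀ X, A X = emb n (B (ini n X)) + lst X • eL n) : A.det = B.det := by
  obtain ⟨κ, h1, h2⟩ := Gram_equiv n
  have h3 : A.toLinearMap = (κ : (E n × ℝ) →ₗ[ℝ] E (n + 1)) ∘ₗ
      (LinearMap.prodMap B.toLinearMap LinearMap.id) ∘ₗ
      (κ.symm : E (n + 1) →ₗ[ℝ] (E n × ℝ)) := by
    ext1 X
    show A X = κ (LinearMap.prodMap B.toLinearMap LinearMap.id (κ.symm X))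
    rw [h2, h1, h]
    rfl
  show LinearMap.det A.toLinearMap = LinearMap.det B.toLinearMap
  rw [h3, LinearMap.det_conj, LinearMap.det_prodMap, LinearMap.det_id, mul_one]

end MB
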