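import Pool.Agent.H16.MB.Stp
import Pool.Agent.H16.MB.Gram

/-!
Row Lft (MP_c844e7, about 130 lines).  The derivative of the lift `U X = ‖X‖ S(G(P X))`.

PROOF.  Let `y = P X`, `z = G y`, `r = ‖X‖ > 0`, `ν = (r + lst X)⁻¹`.  `S` is differentiable at `z` and `‖S‖ = 1` everywhere, so
`⟪S z, DS h⟫ = 0` (differentiate `‖S‖² = 1`).  Chain and product rule: `DU e = (⟪X,e⟫/r) S z + r DS(DG(DP e))`; the two terms are
orthogonal, `‖S z‖ = 1`, `‖DS h‖ = μ z ‖h‖`: second statement.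
Determinant: write `DU = M₁ ∘ M ∘ M₂` with maps of `E (n+1)`: `M₂ e = emb (DP e) + (⟪X,e⟫/r) eL`, `M Y = emb (DG (ini Y)) + lst Y eL`,
`M₁ Y = lst Y • S z + r DS (ini Y)`.  `det_ext`: `det M = det DG`.  `gram` with `m = n`: for `M₂`: `‖M₂ e‖² = ‖DP e‖² + (⟪X,e⟫/r)²`
(`norm_sq_eq`, `ini_emb`, `ini_eL`, `lst_emb`, `lst_eL`) `= ν²(‖e‖² - ⟪X/r,e⟫²) + ⟪X/r,e⟫²` (`P_norm`), unit vector `X/r`, `β = 1`:
`|det M₂| = ν^n`.  For `M₁`: `‖M₁ Y‖² = (lst Y)² + (r μ z)² ‖ini Y‖²`, `lst Y = ⟪eL, Y⟫`, `‖ini Y‖² = ‖Y‖² - (lst Y)²`: `|det M₁| = (r μ z)^n`.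
`ContinuousLinearMap.det` is multiplicative (`LinearMap.det_comp`).
-/

set_option autoImplicit false

open MeasureTheory Set

namespace MB

variable {n : ℕ} {S : E n → E (n + 1)} {μ : E n → ℝ}

theorem inner_eL (Y : E (n + 1)) : inner ℝ (eL n) Y = lst Y := by
  rw [inner_eq, ini_eL, inner_zero_left, lst_eL, zero_add, one_mul]

theorem lift_norm (hS : ConfS S μ) (G : E n → E n) (X : E (n + 1)) : ‖lift S G X‖ = ‖X‖ := by
  rw [lift, norm_smul, hS.norm, mul_one, norm_norm]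

theorem Lft_ne {X : E (n + 1)} (hX : 0 < ‖X‖ + lst X) : X ≠ 0 := by
  rintro rfl
  rw [norm_zero, zero_add] at hX
  exact lt_irrefl _ hX

theorem Lft_nrm {X : E (n + 1)} (hX : X ≠ 0) :
    HasFDerivAt (fun Y : E (n + 1) => ‖Y‖) (‖X‖⁻¹ • innerSL ℝ X) X := by
  have h1 := (hasStrictFDerivAt_norm_sq X).hasFDerivAt.sqrt (by
    exact pow_ne_zero 2 (norm_ne_zero_iff.2 hX))
  have h2 : (fun Y : E (n + 1) => Real.sqrt (‖Y‖ ^ 2)) = fun Y : E (n + 1) => ‖Y‖ := by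
    ext Y
    exact Real.sqrt_sq (norm_nonneg _)
  rw [h2, Real.sqrt_sq (norm_nonneg _)] at h1
  have h3 : ‖X‖ ≠ 0 := norm_ne_zero_iff.2 hX
  have h4 : ‖X‖⁻¹ • innerSL ℝ X = (1 / (2 * ‖X‖)) • 2 • innerSL ℝ X := by
    rw [← Nat.cast_smul_eq_nsmul ℝ, smul_smul]
    congr 1
    push_cast
    field_simp
  rw [h4]
  exact h1

theorem Lft_has (hS : ConfS S μ) (G : E n → E n) (X : E (n + 1)) (hX : 0 < ‖X‖ + lst X)
    (hG : DifferentiableAt ℝ G (P X)) :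
    HasFDerivAt (lift S G) (‖X‖ • ((fderiv ℝ S (G (P X))).comp ((fderiv ℝ G (P X)).comp
      (fderiv ℝ P X))) + (‖X‖⁻¹ • innerSL ℝ X).smulRight (S (G (P X)))) X := by
  have h1 := Lft_nrm (Lft_ne hX)
  have h2 : HasFDerivAt (fun Y => S (G (P Y))) ((fderiv ℝ S (G (P X))).comp
      ((fderiv ℝ G (P X)).comp (fderiv ℝ P X))) X := by
    have h3 := (P_diff X hX).hasFDerivAt
    have h4 : HasFDerivAt (fun Y => G (P Y)) ((fderiv ℝ G (P X)).comp (fderiv ℝ P X)) X :=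
      hG.hasFDerivAt.comp X h3
    exact (hS.diff (G (P X))).hasFDerivAt.comp X h4
  exact h1.smul h2

theorem Lft_orth (hS : ConfS S μ) (z h : E n) : inner ℝ (S z) (fderiv ℝ S z h) = 0 := by
  have h1 := (hS.diff z).hasFDerivAt.norm_sq
  have h2 : (fun y => ‖S y‖ ^ 2) = fun _ => (1 : ℝ) := by
    ext y
    rw [hS.norm, one_pow]
  rw [h2] at h1
  have h3 := (hasFDerivAt_const (1 : ℝ) z).unique h1
  have h4 := congrArg (fun A : E n →L[ℝ] ℝ => A h) h3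
  simp only [ContinuousLinearMap.zero_apply, ContinuousLinearMap.smul_apply,
    ContinuousLinearMap.comp_apply, innerSL_apply_apply, nsmul_eq_mul, Nat.cast_ofNat] at h4
  linarith

theorem Lft_pyth (hS : ConfS S μ) (z h : E n) (a b : ℝ) :
    ‖a • fderiv ℝ S z h + b • S z‖ ^ 2 = b ^ 2 + (a * μ z) ^ 2 * ‖h‖ ^ 2 := by
  rw [norm_add_sq_real, norm_smul, norm_smul, hS.norm, hS.conf, real_inner_smul_left,
    real_inner_smul_right, real_inner_comm, Lft_orth hS, Real.norm_eq_abs, Real.norm_eq_abs,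
    mul_pow |a|, mul_pow |b|, sq_abs, sq_abs]
  ring

theorem lift_diff (hS : ConfS S μ) (G : E n → E n) (X : E (n + 1)) (hX : 0 < ‖X‖ + lst X)
    (hG : DifferentiableAt ℝ G (P X)) : DifferentiableAt ℝ (lift S G) X := by
  exact (Lft_has hS G X hX hG).differentiableAt

theorem lift_fderiv (hS : ConfS S μ) (G : E n → E n) (X e : E (n + 1)) (hX : 0 < ‖X‖ + lst X)
    (hG : DifferentiableAt ℝ G (P X)) :
    ‖fderiv ℝ (lift S G) X e‖ ^ 2 = (inner ℝ X e / ‖X‖) ^ 2 +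
      (‖X‖ * μ (G (P X))) ^ 2 * ‖fderiv ℝ G (P X) (fderiv ℝ P X e)‖ ^ 2 := by
  rw [(Lft_has hS G X hX hG).fderiv]
  change ‖‖X‖ • fderiv ℝ S (G (P X)) (fderiv ℝ G (P X) (fderiv ℝ P X e)) +
    (‖X‖⁻¹ * inner ℝ X e) • S (G (P X))‖ ^ 2 = _
  rw [Lft_pyth hS, mul_comm (‖X‖⁻¹), ← div_eq_mul_inv]

theorem lift_det (hS : ConfS S μ) (G : E n → E n) (X : E (n + 1)) (hX : 0 < ‖X‖ + lst X)
    (hG : DifferentiableAt ℝ G (P X)) :
    |(fderiv ℝ (lift S G) X).det| =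
      (‖X‖ * μ (G (P X)) * (‖X‖ + lst X)⁻¹) ^ n * |(fderiv ℝ G (P X)).det| := by
  rw [(Lft_has hS G X hX hG).fderiv]
  set z := G (P X) with hz
  set DS := fderiv ℝ S z with hDS
  set DG := fderiv ℝ G (P X) with hDG
  set DP := fderiv ℝ P X with hDP
  have hX0 : X ≠ 0 := Lft_ne hX
  have hr : 0 < ‖X‖ := norm_pos_iff.2 hX0
  set M2 : E (n + 1) →L[ℝ] E (n + 1) :=
    (emb n).comp DP + (‖X‖⁻¹ • innerSL ℝ X).smulRight (eL n) with hM2
  set M : E (n + 1) →L[ℝ] E (n + 1) :=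
    (emb n).comp (DG.comp (ini n)) + (innerSL ℝ (eL n)).smulRight (eL n) with hM
  set M1 : E (n + 1) →L[ℝ] E (n + 1) :=
    ‖X‖ • (DS.comp (ini n)) + (innerSL ℝ (eL n)).smulRight (S z) with hM1
  have hM2a : ∀ e, M2 e = emb n (DP e) + (‖X‖⁻¹ * inner ℝ X e) • eL n := fun e => rfl
  have hMa : ∀ Y, M Y = emb n (DG (ini n Y)) + lst Y • eL n := by
    intro Y
    rw [← inner_eL Y]
    rfl
  have hM1a : ∀ Y, M1 Y = ‖X‖ • DS (ini n Y) + lst Y • S z := by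
    intro Y
    rw [← inner_eL Y]
    rfl
  have hcomp : ‖X‖ • (DS.comp (DG.comp DP)) + (‖X‖⁻¹ • innerSL ℝ X).smulRight (S z) =
      M1.comp (M.comp M2) := by
    ext1 e
    change ‖X‖ • DS (DG (DP e)) + (‖X‖⁻¹ * inner ℝ X e) • S z = M1 (M (M2 e))
    have h1 : ini n (M2 e) = DP e := by
      rw [hM2a, map_add, map_smul, ini_emb, ini_eL, smul_zero, add_zero]
    have h2 : lst (M2 e) = ‖X‖⁻¹ * inner ℝ X e := by
      rw [hM2a, lst_add, lst_smul, lst_emb, lst_eL, zero_add, mul_one]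
    have h3 : ini n (M (M2 e)) = DG (DP e) := by
      rw [hMa, map_add, map_smul, ini_emb, ini_eL, smul_zero, add_zero, h1]
    have h4 : lst (M (M2 e)) = ‖X‖⁻¹ * inner ℝ X e := by
      rw [hMa, lst_add, lst_smul, lst_emb, lst_eL, zero_add, mul_one, h2]
    rw [hM1a, h3, h4]
  have hd2 : |M2.det| = |(1 : ℝ)| * ((‖X‖ + lst X)⁻¹) ^ n := by
    apply gram M2 (‖X‖⁻¹ • X)
    · rw [norm_smul, norm_inv, norm_norm, inv_mul_cancel₀ hr.ne']
    · exact inv_pos.2 hX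
    · intro u
      have h1 : ini n (M2 u) = DP u := by
        rw [hM2a, map_add, map_smul, ini_emb, ini_eL, smul_zero, add_zero]
      have h2 : lst (M2 u) = ‖X‖⁻¹ * inner ℝ X u := by
        rw [hM2a, lst_add, lst_smul, lst_emb, lst_eL, zero_add, mul_one]
      rw [norm_sq_eq, h1, h2, hDP, P_norm X u hX, real_inner_smul_left, div_eq_mul_inv]
      ring
  have hd1 : |M1.det| = |(1 : ℝ)| * (‖X‖ * μ z) ^ n := by
    apply gram M1 (eL n) (norm_eL n)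
    · exact mul_pos hr (hS.pos z)
    · intro u
      rw [hM1a, hDS, Lft_pyth hS, inner_eL, norm_sq_eq u]
      ring
  have hd : M.det = DG.det := det_ext M DG hMa
  have hdet : (M1.comp (M.comp M2)).det = M1.det * (M.det * M2.det) := by
    change LinearMap.det ((M1 : E (n + 1) →ₗ[ℝ] E (n + 1)) ∘ₗ
      ((M : E (n + 1) →ₗ[ℝ] E (n + 1)) ∘ₗ (M2 : E (n + 1) →ₗ[ℝ] E (n + 1)))) = _
    rw [LinearMap.det_comp, LinearMap.det_comp]
  rw [hcomp, hdet, abs_mul, abs_mul, hd1, hd2, hd, abs_one, mul_pow, mul_pow, mul_pow]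
  ring

end MB
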