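import Pool.Agent.H16.MB.CutA
import Pool.Agent.H16.MB.Lft

/-!
Row CutV (MP_c844e7, about 120 lines).  The cut-off lift `Vf ε S G X = cut ε X • lift S G X`.

PROOF.  `Vf_norm`: `lift_norm`, `cut_mem`.
`Vf_cont`: at `X = 0` because `‖Vf‖ ≤ ‖X‖` and `Vf 0 = 0`.  At `X ≠ 0` with `wq X < ε²‖X‖²`: eventually `0` (`cut_zero`).  Otherwise `P_lt`: `P X` is in the open
ball, `P` is continuous at `X` (`P_diff`), `G` at `P X` (`hG.cont`, open ball), `S` everywhere (`hS.diff`), `cut` at `X` (`cut_diff`).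
`Vf_diff`, `Vf_grad`, `Vf_out`: `¬ ax X` implies `X ≠ 0`.  If `wq X < ε²‖X‖²` then `Vf` is eventually `0`, so differentiable with derivative `0`.
Otherwise `X ∈ Om n (2/ε)` (`P_lt`) and `lift S G` is differentiable at `X` (`lift_diff`, `hG.diff`, `P_ax`), product rule:
`D Vf e = cut • D lift e + (D cut e) • lift X`, `0 ≤ cut ≤ 1`, `‖lift X‖ = ‖X‖`, `cut_grad`.  (In the first case `Vf_grad` holds because the derivative is `0`
and the right side is nonnegative; `Vf_out`: `X ∉ Om` excludes the second case.)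
-/

set_option autoImplicit false

open MeasureTheory Set

namespace MB

variable {n : ℕ} {c ε : ℝ} {G : E (n + 2) → E (n + 2)} {S : E (n + 2) → E (n + 3)}
  {μ : E (n + 2) → ℝ}

theorem CutV_ne {X : E (n + 3)} (hX : ¬ ax X) : X ≠ 0 := by
  rintro rfl
  exact hX ⟨rfl, rfl⟩

theorem CutV_zero (X : E (n + 3)) (h : wq X < ε ^ 2 * ‖X‖ ^ 2) :
    Vf ε S G =ᶠ[nhds X] fun _ => (0 : E (n + 3)) := by
  filter_upwards [cut_zero X h] with Y hY
  unfold Vf
  rw [hY, zero_smul]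

theorem CutV_fd0 (X : E (n + 3)) (h : wq X < ε ^ 2 * ‖X‖ ^ 2) : fderiv ℝ (Vf ε S G) X = 0 := by
  rw [(CutV_zero (S := S) (G := G) X h).fderiv_eq, fderiv_fun_const, Pi.zero_apply]

theorem CutV_lift (hε : 0 < ε) (hG : Dat c (2 / ε) G) (hS : ConfS S μ) (X : E (n + 3))
    (hX : ¬ ax X) (h : ε ^ 2 * ‖X‖ ^ 2 ≤ wq X) : DifferentiableAt ℝ (lift S G) X := by
  obtain ⟨h1, h2⟩ := P_lt hε X (CutV_ne hX) h
  exact lift_diff hS G X h1 (hG.diff _ h2 (fun h3 => hX ((P_ax X h1).1 h3)))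

theorem CutV_has (hε : 0 < ε) (hG : Dat c (2 / ε) G) (hS : ConfS S μ) (X : E (n + 3))
    (hX : ¬ ax X) (h : ε ^ 2 * ‖X‖ ^ 2 ≤ wq X) :
    HasFDerivAt (Vf ε S G) (cut ε X • fderiv ℝ (lift S G) X +
      (fderiv ℝ (cut (n := n) ε) X).smulRight (lift S G X)) X := by
  have h1 := (CutV_lift hε hG hS X hX h).hasFDerivAt
  have h2 := (cut_diff hε X (CutV_ne hX)).hasFDerivAt
  exact h2.smul h1

theorem Vf_norm (hS : ConfS S μ) (X : E (n + 3)) : ‖Vf ε S G X‖ = cut ε X * ‖X‖ := by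
  unfold Vf
  rw [norm_smul, lift_norm hS, Real.norm_eq_abs, abs_of_nonneg (cut_mem ε X).1]

theorem Vf_cont (hε : 0 < ε) (hG : Dat c (2 / ε) G) (hS : ConfS S μ) :
    Continuous (Vf ε S G) := by
  rw [continuous_iff_continuousAt]
  intro X
  by_cases h0 : X = 0
  · subst h0
    have h1 : Vf ε S G 0 = 0 := by
      rw [← norm_eq_zero, Vf_norm hS, norm_zero, mul_zero]
    unfold ContinuousAt
    rw [h1]
    refine squeeze_zero_norm (a := fun Y : E (n + 3) => ‖Y‖) (fun Y => ?_) ?_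
    · rw [Vf_norm hS]
      exact mul_le_of_le_one_left (norm_nonneg _) (cut_mem ε Y).2
    · have h2 : Continuous fun Y : E (n + 3) => ‖Y‖ := continuous_norm
      have h3 := h2.tendsto 0
      rwa [norm_zero] at h3
  · rcases lt_or_ge (wq X) (ε ^ 2 * ‖X‖ ^ 2) with h | h
    · exact (continuousAt_const).congr (CutV_zero X h).symm
    · obtain ⟨h1, h2⟩ := P_lt hε X h0 h
      have h3 : ContinuousAt (fun Y => G (P Y)) X := by
        have h4 : ContinuousAt G (P X) := hG.cont.continuousAt (Metric.isOpen_ball.mem_nhds h2)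
        exact ContinuousAt.comp h4 (P_diff X h1).continuousAt
      have h5 : ContinuousAt (fun Y => S (G (P Y))) X :=
        ContinuousAt.comp (g := S) (hS.diff _).continuousAt h3
      have h6 : ContinuousAt (lift S G) X := continuous_norm.continuousAt.smul h5
      exact (cut_diff hε X h0).continuousAt.smul h6

theorem Vf_diff (hε : 0 < ε) (hG : Dat c (2 / ε) G) (hS : ConfS S μ) (X : E (n + 3))
    (hX : ¬ ax X) : DifferentiableAt ℝ (Vf ε S G) X := by
  rcases lt_or_ge (wq X) (ε ^ 2 * ‖X‖ ^ 2) with h | h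
  · exact (differentiableAt_const (0 : E (n + 3))).congr_of_eventuallyEq (CutV_zero X h)
  · exact (CutV_has hε hG hS X hX h).differentiableAt

theorem Vf_grad (hε : 0 < ε) (hε1 : ε ≤ 1) (hG : Dat c (2 / ε) G) (hS : ConfS S μ)
    (X e : E (n + 3)) (hX : ¬ ax X) :
    ‖fderiv ℝ (Vf ε S G) X e‖ ≤ ‖fderiv ℝ (lift S G) X e‖ + 8 * ε * qq X * ‖e‖ := by
  have hq : 0 ≤ qq X := div_nonneg (sq_nonneg _) (wq_bd X).1
  rcases lt_or_ge (wq X) (ε ^ 2 * ‖X‖ ^ 2) with h | h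
  · rw [CutV_fd0 X h, ContinuousLinearMap.zero_apply, norm_zero]
    positivity
  · rw [(CutV_has hε hG hS X hX h).fderiv]
    change ‖cut ε X • fderiv ℝ (lift S G) X e + (fderiv ℝ (cut (n := n) ε) X e) • lift S G X‖ ≤ _
    refine (norm_add_le _ _).trans (add_le_add ?_ ?_)
    · rw [norm_smul, Real.norm_eq_abs, abs_of_nonneg (cut_mem ε X).1]
      exact mul_le_of_le_one_left (norm_nonneg _) (cut_mem ε X).2
    · rw [norm_smul, Real.norm_eq_abs, lift_norm hS]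
      exact cut_grad hε hε1 X e (CutV_ne hX)

theorem Vf_out (hε : 0 < ε) (hG : Dat c (2 / ε) G) (hS : ConfS S μ) (X : E (n + 3))
    (hX : ¬ ax X) (hO : X ∉ Om n (2 / ε)) : fderiv ℝ (Vf ε S G) X = 0 := by
  rcases lt_or_ge (wq X) (ε ^ 2 * ‖X‖ ^ 2) with h | h
  · exact CutV_fd0 X h
  · obtain ⟨h1, h2⟩ := P_lt hε X (CutV_ne hX) h
    exact absurd ⟨h1, h2, hX⟩ hO

end MB
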