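import Pool.Agent.H16.MB.Mom

/-!
Row Den (MP_c844e7, about 120 lines).  The Gaussian measure `gaT n` in the coordinates `T n`, and the Lebesgue measure of `E (n + 3)`.

PROOF.  `meas_T`: `T n` is continuous.  `den`: the map `e : (Fin (n+3) → ℝ) → (ℝ × ℝ) × (Fin (n+1) → ℝ)`, `x ↦ ((x 0, x 1), fun j => x j.succ.succ)` is a
measure preserving measurable equivalence (twice `volume_preserving_piFinSuccAbove (fun _ => ℝ) 0`, and an associativity
`MeasureTheory.measurePreserving_prodAssoc`), `T n (e x) = WithLp.toLp 2 x`, and `WithLp.toLp 2 : (Fin (n+3) → ℝ) → E (n+3)` is volume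
preserving (`PiLp.volume_preserving_toLp` or `EuclideanSpace.volume_preserving_…`).  So `∫⁻ X, K X = ∫⁻ p, K (T n p)` for the product
Lebesgue measure `(volume.prod volume).prod (Measure.pi fun _ => volume)`.  `gaT n` is this measure with the density
`((√(2π))⁻¹)^(n+3) exp(-(p.1.1² + p.1.2² + ∑ p.2 j²)/2)` (`gaussianReal 0 1 = volume.withDensity (gaussianPDF 0 1)`; `prod_withDensity`;
for `Measure.pi` of `withDensity`: by induction on the number of factors with `measurePreserving_piFinSuccAbove`, or `Measure.pi_eq` on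
boxes with `lintegral_fin_nat_prod_eq_prod`-like lemmas), and `norm_T`.
-/

set_option autoImplicit false

open MeasureTheory Set

namespace MB

lemma Den_meas_cons (d : ℕ) :
    Measurable (fun q : ℝ × (Fin d → ℝ) => (Fin.cons q.1 q.2 : Fin (d + 1) → ℝ)) := by
  refine measurable_pi_iff.2 fun i => ?_
  refine Fin.cases ?_ (fun j => ?_) i
  · simp only [Fin.cons_zero]
    exact measurable_fst
  · simp only [Fin.cons_succ]
    exact (measurable_pi_apply j).comp measurable_snd

theorem cont_T (n : ℕ) : Continuous (T n) := by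
  refine (PiLp.continuous_toLp 2 _).comp ?_
  refine continuous_pi fun i => ?_
  refine Fin.cases ?_ (fun j => ?_) i
  · simp only [Fin.cons_zero]
    exact continuous_fst.comp continuous_fst
  · simp only [Fin.cons_succ]
    refine Fin.cases ?_ (fun k => ?_) j
    · simp only [Fin.cons_zero]
      exact continuous_snd.comp continuous_fst
    · simp only [Fin.cons_succ]
      exact (continuous_apply k).comp continuous_snd

lemma Den_succ (ν : Measure ℝ) [SigmaFinite ν] (d : ℕ) (K : (Fin (d + 1) → ℝ) → ENNReal)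
    (hK : Measurable K) :
    ∫⁻ x, K x ∂(Measure.pi fun _ : Fin (d + 1) => ν) =
      ∫⁻ a, ∫⁻ b, K (Fin.cons a b) ∂(Measure.pi fun _ : Fin d => ν) ∂ν := by
  have h := (measurePreserving_piFinSuccAbove (fun _ : Fin (d + 1) => ν) 0).symm
  rw [← h.lintegral_comp hK]
  rw [lintegral_prod]
  · refine lintegral_congr fun a => lintegral_congr fun b => ?_
    change K (Fin.insertNth 0 a b) = K (Fin.cons a b)
    rw [Fin.insertNth_zero]
    rfl
  · exact (hK.comp (MeasurableEquiv.measurable _)).aemeasurable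

lemma Den_gen (ν : Measure ℝ) [SigmaFinite ν] (n : ℕ) (K : E (n + 3) → ENNReal)
    (hK : Measurable K) :
    ∫⁻ x, K (WithLp.toLp 2 x) ∂(Measure.pi fun _ : Fin (n + 3) => ν) =
      ∫⁻ p, K (T n p) ∂((ν.prod ν).prod (Measure.pi fun _ : Fin (n + 1) => ν)) := by
  have hto : Measurable fun x : Fin (n + 3) → ℝ => K (WithLp.toLp 2 x) :=
    hK.comp (PiLp.continuous_toLp 2 _).measurable
  have hT : Measurable fun p => K (T n p) := hK.comp (cont_T n).measurable
  rw [Den_succ ν (n + 2) _ hto, lintegral_prod _ hT.aemeasurable,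
    lintegral_prod _ (hT.lintegral_prod_right').aemeasurable]
  refine lintegral_congr fun a => ?_
  have h2 : Measurable fun b : Fin (n + 2) → ℝ => K (WithLp.toLp 2 (Fin.cons a b)) :=
    hto.comp ((Den_meas_cons (n + 2)).comp (measurable_const.prodMk measurable_id))
  rw [Den_succ ν (n + 1) _ h2]
  rfl

/-- The Lebesgue measure of `E (n + 3)` in the coordinates `T n`. -/
theorem leb_T (n : ℕ) (K : E (n + 3) → ENNReal) (hK : Measurable K) :
    ∫⁻ X, K X = ∫⁻ p, K (T n p) ∂(((volume : Measure ℝ).prod (volume : Measure ℝ)).prod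
      (Measure.pi fun _ : Fin (n + 1) => (volume : Measure ℝ))) := by
  rw [← Den_gen volume n K hK]
  have h := (PiLp.volume_preserving_toLp (Fin (n + 3))).lintegral_comp hK
  rw [← h]
  rfl

lemma Den_pi (d : ℕ) : ∀ K : (Fin d → ℝ) → ENNReal, Measurable K →
    ∫⁻ x, K x ∂(Measure.pi fun _ : Fin d => ga) =
      ∫⁻ x, K x * ∏ i, ProbabilityTheory.gaussianPDF 0 1 (x i)
        ∂(Measure.pi fun _ : Fin d => (volume : Measure ℝ)) := by
  induction d with
  | zero =>
    intro K hK
    rw [Measure.pi_of_empty, Measure.pi_of_empty]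
    simp
  | succ d ih =>
    intro K hK
    have hg : Measurable (ProbabilityTheory.gaussianPDF 0 1) :=
      ProbabilityTheory.measurable_gaussianPDF 0 1
    have hprod : ∀ m : ℕ, Measurable fun x : Fin m → ℝ =>
        ∏ i, ProbabilityTheory.gaussianPDF 0 1 (x i) := fun m =>
      Finset.measurable_prod _ fun i _ => hg.comp (measurable_pi_apply i)
    have hga : ga = (volume : Measure ℝ).withDensity (ProbabilityTheory.gaussianPDF 0 1) :=
      ProbabilityTheory.gaussianReal_of_var_ne_zero 0 one_ne_zero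
    have hc : Measurable fun q : ℝ × (Fin d → ℝ) => K (Fin.cons q.1 q.2) :=
      hK.comp (Den_meas_cons d)
    have hKp : Measurable fun x : Fin (d + 1) → ℝ =>
        K x * ∏ i, ProbabilityTheory.gaussianPDF 0 1 (x i) := hK.mul (hprod (d + 1))
    rw [Den_succ ga d K hK, Den_succ volume d _ hKp]
    have h1 : ∀ a : ℝ, ∫⁻ b, K (Fin.cons a b) ∂(Measure.pi fun _ : Fin d => ga) =
        ∫⁻ b, K (Fin.cons a b) * ∏ i, ProbabilityTheory.gaussianPDF 0 1 (b i)
          ∂(Measure.pi fun _ : Fin d => (volume : Measure ℝ)) := fun a =>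
      ih _ (hc.comp (measurable_const.prodMk measurable_id))
    simp_rw [h1]
    have h2 : Measurable fun a : ℝ =>
        ∫⁻ b, K (Fin.cons a b) * ∏ i, ProbabilityTheory.gaussianPDF 0 1 (b i)
          ∂(Measure.pi fun _ : Fin d => (volume : Measure ℝ)) := by
      refine Measurable.lintegral_prod_right' (f := fun q : ℝ × (Fin d → ℝ) =>
        K (Fin.cons q.1 q.2) * ∏ i, ProbabilityTheory.gaussianPDF 0 1 (q.2 i)) ?_
      exact hc.mul ((hprod d).comp measurable_snd)
    rw [hga, lintegral_withDensity_eq_lintegral_mul _ hg h2]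
    refine lintegral_congr fun a => ?_
    have h3 : Measurable fun b : Fin d → ℝ =>
        K (Fin.cons a b) * ∏ i, ProbabilityTheory.gaussianPDF 0 1 (b i) :=
      (hc.comp (measurable_const.prodMk measurable_id)).mul (hprod d)
    rw [Pi.mul_apply, ← lintegral_const_mul _ h3]
    refine lintegral_congr fun b => ?_
    rw [Fin.prod_univ_succ]
    simp only [Fin.cons_zero, Fin.cons_succ]
    ring

lemma Den_prod (d : ℕ) (x : Fin d → ℝ) :
    ENNReal.ofReal (Real.exp (-(∑ i, x i ^ 2) / 2)) =
      ENNReal.ofReal (Real.sqrt (2 * Real.pi) ^ d) *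
        ∏ i, ProbabilityTheory.gaussianPDF 0 1 (x i) := by
  have hs : 0 < Real.sqrt (2 * Real.pi) := Real.sqrt_pos.2 (by positivity)
  have h1 : ∀ i, ProbabilityTheory.gaussianPDF 0 1 (x i) =
      ENNReal.ofReal ((Real.sqrt (2 * Real.pi))⁻¹ * Real.exp (-(x i) ^ 2 / 2)) := by
    intro i
    rw [ProbabilityTheory.gaussianPDF, ProbabilityTheory.gaussianPDFReal]
    simp
  simp_rw [h1]
  rw [← ENNReal.ofReal_prod_of_nonneg (fun i _ => by positivity),
    ← ENNReal.ofReal_mul (by positivity)]
  congr 1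
  rw [Finset.prod_mul_distrib, Finset.prod_const, Finset.card_univ, Fintype.card_fin,
    ← Real.exp_sum, ← mul_assoc, ← mul_pow, mul_inv_cancel₀ hs.ne', one_pow, one_mul]
  congr 1
  rw [← Finset.sum_div, Finset.sum_neg_distrib]

theorem den (n : ℕ) (H : E (n + 3) → ENNReal) (hH : Measurable H) :
    ∫⁻ X, H X * ENNReal.ofReal (Real.exp (-‖X‖ ^ 2 / 2)) =
      ENNReal.ofReal (Real.sqrt (2 * Real.pi) ^ (n + 3)) * ∫⁻ p, H (T n p) ∂(gaT n) := by
  have hto : Measurable fun x : Fin (n + 3) → ℝ => H (WithLp.toLp 2 x) :=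
    hH.comp (PiLp.continuous_toLp 2 _).measurable
  have hg : Measurable (ProbabilityTheory.gaussianPDF 0 1) :=
    ProbabilityTheory.measurable_gaussianPDF 0 1
  have hprod : Measurable fun x : Fin (n + 3) → ℝ =>
      ∏ i, ProbabilityTheory.gaussianPDF 0 1 (x i) :=
    Finset.measurable_prod _ fun i _ => hg.comp (measurable_pi_apply i)
  have hm : Measurable fun X : E (n + 3) => H X * ENNReal.ofReal (Real.exp (-‖X‖ ^ 2 / 2)) := by
    refine hH.mul ?_
    fun_prop
  have hHp : Measurable fun x : Fin (n + 3) → ℝ =>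
      H (WithLp.toLp 2 x) * ∏ i, ProbabilityTheory.gaussianPDF 0 1 (x i) := hto.mul hprod
  rw [← (PiLp.volume_preserving_toLp (Fin (n + 3))).lintegral_comp hm, ← Den_gen ga n H hH,
    Den_pi (n + 3) _ hto, ← lintegral_const_mul _ hHp]
  refine lintegral_congr fun x => ?_
  have h1 : ‖(WithLp.toLp 2 x : E (n + 3))‖ ^ 2 = ∑ i, x i ^ 2 := by
    rw [EuclideanSpace.norm_sq_eq]
    simp
  rw [h1, Den_prod]
  ring

end MB
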