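import Pool.Agent.H16.MB.Stp

/-!
Row Dir (MP_c844e7, about 100 lines).  Directions.  `T n ((x,y),W)` has the coordinates `x, y, W 0, …, W n`; `bW n i` is the basis vector of `W i`, `bR n θ` the
vector `(cos θ, sin θ, 0, …, 0)`.

PROOF.  Coordinates: `T n p 0 = p.1.1`, `T n p 1 = p.1.2`, `T n p i.succ.succ = p.2 i` (`Fin.cons_zero`, `Fin.cons_succ`).  `T n (z, Function.update W i t) =
T n (z, W) + (t - W i) • bW n i` and `T n (pol r θ, W) = T n (pol ρ θ, W) + (r - ρ) • bR n θ` (compare coordinates), so both are affine in the parameter with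
derivative `bW n i`, `bR n θ`; chain rule (`HasFDerivAt.comp_hasDerivAt`).  `inner_th`: `⟪bW, th X⟫ = 0`; `⟪bR n θ, th X⟫ = -(cos θ · X 1) + sin θ · X 0 = 0` for
`X = T n (pol ρ θ, W)`.  Norms: `EuclideanSpace.norm_sq_eq`, `cos² + sin² = 1`.  Inner products: `PiLp.inner_apply`.
`kp`: `‖X‖² - X 0² - X 1² = ∑ j, W j²`.
-/

set_option autoImplicit false

open MeasureTheory Set

namespace MB

private lemma Dir_T0 (n : ℕ) (p : (ℝ × ℝ) × (Fin (n + 1) → ℝ)) : T n p 0 = p.1.1 := rfl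

private lemma Dir_T1 (n : ℕ) (p : (ℝ × ℝ) × (Fin (n + 1) → ℝ)) : T n p 1 = p.1.2 := rfl

private lemma Dir_TS (n : ℕ) (p : (ℝ × ℝ) × (Fin (n + 1) → ℝ)) (i : Fin (n + 1)) :
    T n p i.succ.succ = p.2 i := rfl

private lemma Dir_ext {n : ℕ} {X Y : E (n + 3)} (h0 : X 0 = Y 0) (h1 : X 1 = Y 1)
    (h2 : ∀ i : Fin (n + 1), X i.succ.succ = Y i.succ.succ) : X = Y := by
  ext i
  refine Fin.cases h0 (fun j => ?_) i
  refine Fin.cases h1 (fun k => ?_) j
  exact h2 k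

private lemma Dir_inner {n : ℕ} (X Y : E (n + 3)) :
    inner ℝ X Y = X 0 * Y 0 + (X 1 * Y 1 + ∑ i : Fin (n + 1), X i.succ.succ * Y i.succ.succ) := by
  rw [PiLp.inner_apply, Fin.sum_univ_succ, Fin.sum_univ_succ]
  simp only [RCLike.inner_apply, conj_trivial]
  rw [mul_comm (Y 0) (X 0)]
  congr 1
  congr 1
  · exact mul_comm _ _
  · exact Finset.sum_congr rfl fun i _ => mul_comm _ _

private lemma Dir_norm {n : ℕ} (X : E (n + 3)) :
    ‖X‖ ^ 2 = X 0 ^ 2 + (X 1 ^ 2 + ∑ i : Fin (n + 1), X i.succ.succ ^ 2) := by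
  rw [← real_inner_self_eq_norm_sq, Dir_inner]
  simp only [sq]

private lemma Dir_bW0 (n : ℕ) (i : Fin (n + 1)) : bW n i 0 = 0 := by
  unfold bW
  rw [PiLp.single_apply, if_neg]
  exact (Fin.succ_ne_zero _).symm

private lemma Dir_bW1 (n : ℕ) (i : Fin (n + 1)) : bW n i 1 = 0 := by
  unfold bW
  rw [PiLp.single_apply, if_neg]
  intro h
  have h2 : (1 : Fin (n + 3)) = Fin.succ 0 := rfl
  rw [h2] at h
  exact Fin.succ_ne_zero _ (Fin.succ_injective _ h).symm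

private lemma Dir_bWS (n : ℕ) (i j : Fin (n + 1)) :
    bW n i j.succ.succ = if j = i then 1 else 0 := by
  unfold bW
  rw [PiLp.single_apply]
  by_cases h : j = i
  · rw [if_pos h, if_pos (by rw [h])]
  · rw [if_neg h, if_neg]
    intro h2
    exact h (Fin.succ_injective _ (Fin.succ_injective _ h2))

private lemma Dir_bR0 (n : ℕ) (θ : ℝ) : bR n θ 0 = Real.cos θ := by
  unfold bR
  rw [Dir_T0]
  simp [pol]

private lemma Dir_bR1 (n : ℕ) (θ : ℝ) : bR n θ 1 = Real.sin θ := by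
  unfold bR
  rw [Dir_T1]
  simp [pol]

private lemma Dir_bRS (n : ℕ) (θ : ℝ) (j : Fin (n + 1)) : bR n θ j.succ.succ = 0 := by
  unfold bR
  rw [Dir_TS]
  rfl

private lemma Dir_th0 {n : ℕ} (X : E (n + 3)) : th (m := n + 1) X 0 = -X 1 := rfl

private lemma Dir_th1 {n : ℕ} (X : E (n + 3)) : th (m := n + 1) X 1 = X 0 := rfl

private lemma Dir_thS {n : ℕ} (X : E (n + 3)) (i : Fin (n + 1)) :
    th (m := n + 1) X i.succ.succ = 0 := by
  show (if i.succ.succ = 0 then -X 1 else if i.succ.succ = 1 then X 0 else 0) = 0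
  rw [if_neg (Fin.succ_ne_zero _), if_neg]
  intro h
  have h2 : (1 : Fin (n + 3)) = Fin.succ 0 := rfl
  rw [h2] at h
  exact Fin.succ_ne_zero _ (Fin.succ_injective _ h)

theorem ax_T (n : ℕ) (p : (ℝ × ℝ) × (Fin (n + 1) → ℝ)) : ax (T n p) ↔ p.1 = 0 := by
  unfold ax
  rw [Prod.ext_iff]
  exact Iff.rfl

theorem pol_ne {ρ θ : ℝ} (hρ : 0 < ρ) : pol ρ θ ≠ 0 := by
  intro h
  have h1 : ρ * Real.cos θ = 0 := congrArg Prod.fst h
  have h2 : ρ * Real.sin θ = 0 := congrArg Prod.snd h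
  have h3 : Real.cos θ = 0 := (mul_eq_zero.mp h1).resolve_left hρ.ne'
  have h4 : Real.sin θ = 0 := (mul_eq_zero.mp h2).resolve_left hρ.ne'
  have h5 := Real.sin_sq_add_cos_sq θ
  rw [h3, h4] at h5
  norm_num at h5

theorem dir_W {n m : ℕ} (V : E (n + 3) → E m) (z : ℝ × ℝ) (W : Fin (n + 1) → ℝ) (i : Fin (n + 1))
    (hV : DifferentiableAt ℝ V (T n (z, W))) :
    HasDerivAt (fun t => V (T n (z, Function.update W i t))) (fderiv ℝ V (T n (z, W)) (bW n i))
      (W i) := by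
  have h1 : ∀ t : ℝ, T n (z, Function.update W i t) = T n (z, W) + (t - W i) • bW n i := by
    intro t
    refine Dir_ext ?_ ?_ fun j => ?_
    · rw [PiLp.add_apply, PiLp.smul_apply, Dir_bW0, Dir_T0, Dir_T0, smul_zero, add_zero]
    · rw [PiLp.add_apply, PiLp.smul_apply, Dir_bW1, Dir_T1, Dir_T1, smul_zero, add_zero]
    · rw [PiLp.add_apply, PiLp.smul_apply, Dir_bWS, Dir_TS, Dir_TS]
      by_cases h : j = i
      · subst h
        rw [if_pos rfl]
        show Function.update W j t j = W j + (t - W j) • 1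
        rw [Function.update_self, smul_eq_mul]
        ring
      · rw [if_neg h]
        show Function.update W i t j = W j + (t - W i) • 0
        rw [Function.update_of_ne h, smul_zero, add_zero]
  have h2 : HasDerivAt (fun t : ℝ => T n (z, W) + (t - W i) • bW n i) (bW n i) (W i) := by
    have h3 := (((hasDerivAt_id (W i)).sub_const (W i)).smul_const (bW n i)).const_add (T n (z, W))
    rw [one_smul] at h3
    exact h3
  have h4 : T n (z, W) + (W i - W i) • bW n i = T n (z, W) := by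
    rw [sub_self, zero_smul, add_zero]
  have h5 : HasFDerivAt V (fderiv ℝ V (T n (z, W))) (T n (z, W) + (W i - W i) • bW n i) := by
    rw [h4]
    exact hV.hasFDerivAt
  have h6 := h5.comp_hasDerivAt (W i) h2
  have h7 : (fun t => V (T n (z, Function.update W i t))) =
      V ∘ fun t : ℝ => T n (z, W) + (t - W i) • bW n i := by
    funext t
    rw [h1, Function.comp_apply]
  rw [h7]
  exact h6

theorem dir_R {n m : ℕ} (V : E (n + 3) → E m) (ρ θ : ℝ) (W : Fin (n + 1) → ℝ)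
    (hV : DifferentiableAt ℝ V (T n (pol ρ θ, W))) :
    HasDerivAt (fun r => V (T n (pol r θ, W))) (fderiv ℝ V (T n (pol ρ θ, W)) (bR n θ)) ρ := by
  have h1 : ∀ r : ℝ, T n (pol r θ, W) = T n (pol ρ θ, W) + (r - ρ) • bR n θ := by
    intro r
    refine Dir_ext ?_ ?_ fun j => ?_
    · rw [PiLp.add_apply, PiLp.smul_apply, Dir_bR0, Dir_T0, Dir_T0, smul_eq_mul]
      show r * Real.cos θ = ρ * Real.cos θ + (r - ρ) * Real.cos θ
      ring
    · rw [PiLp.add_apply, PiLp.smul_apply, Dir_bR1, Dir_T1, Dir_T1, smul_eq_mul]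
      show r * Real.sin θ = ρ * Real.sin θ + (r - ρ) * Real.sin θ
      ring
    · rw [PiLp.add_apply, PiLp.smul_apply, Dir_bRS, Dir_TS, Dir_TS, smul_zero, add_zero]
  have h2 : HasDerivAt (fun r : ℝ => T n (pol ρ θ, W) + (r - ρ) • bR n θ) (bR n θ) ρ := by
    have h3 := (((hasDerivAt_id ρ).sub_const ρ).smul_const (bR n θ)).const_add (T n (pol ρ θ, W))
    rw [one_smul] at h3
    exact h3
  have h4 : T n (pol ρ θ, W) + (ρ - ρ) • bR n θ = T n (pol ρ θ, W) := by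
    rw [sub_self, zero_smul, add_zero]
  have h5 : HasFDerivAt V (fderiv ℝ V (T n (pol ρ θ, W)))
      (T n (pol ρ θ, W) + (ρ - ρ) • bR n θ) := by
    rw [h4]
    exact hV.hasFDerivAt
  have h6 := h5.comp_hasDerivAt ρ h2
  have h7 : (fun r => V (T n (pol r θ, W))) =
      V ∘ fun r : ℝ => T n (pol ρ θ, W) + (r - ρ) • bR n θ := by
    funext r
    rw [h1, Function.comp_apply]
  rw [h7]
  exact h6

theorem bW_norm (n : ℕ) (i : Fin (n + 1)) : ‖bW n i‖ = 1 := by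
  unfold bW
  simp

theorem bW_th (n : ℕ) (i : Fin (n + 1)) (X : E (n + 3)) : inner ℝ (bW n i) (th X) = 0 := by
  rw [Dir_inner, Dir_bW0, Dir_bW1]
  simp only [Dir_thS, mul_zero, zero_mul, Finset.sum_const_zero, add_zero]

theorem bW_inner (n : ℕ) (i : Fin (n + 1)) (p : (ℝ × ℝ) × (Fin (n + 1) → ℝ)) :
    inner ℝ (T n p) (bW n i) = p.2 i := by
  rw [Dir_inner, Dir_bW0, Dir_bW1]
  simp only [Dir_bWS, Dir_TS, mul_zero, zero_add, mul_ite, mul_one]
  rw [Finset.sum_ite_eq' Finset.univ i, if_pos (Finset.mem_univ _)]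

theorem bR_norm (n : ℕ) (θ : ℝ) : ‖bR n θ‖ = 1 := by
  have h : ‖bR n θ‖ ^ 2 = 1 := by
    rw [Dir_norm, Dir_bR0, Dir_bR1]
    simp only [Dir_bRS]
    have := Real.sin_sq_add_cos_sq θ
    simp only [ne_eq, OfNat.ofNat_ne_zero, not_false_eq_true, zero_pow, Finset.sum_const_zero,
      add_zero]
    linarith
  have h2 := norm_nonneg (bR n θ)
  nlinarith

theorem bR_th (n : ℕ) (ρ θ : ℝ) (W : Fin (n + 1) → ℝ) :
    inner ℝ (bR n θ) (th (T n (pol ρ θ, W))) = 0 := by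
  rw [Dir_inner, Dir_bR0, Dir_bR1, Dir_th0, Dir_th1, Dir_T0, Dir_T1]
  simp only [Dir_thS, mul_zero, Finset.sum_const_zero, add_zero]
  show Real.cos θ * -(ρ * Real.sin θ) + Real.sin θ * (ρ * Real.cos θ) = 0
  ring

theorem bR_inner (n : ℕ) (ρ θ : ℝ) (W : Fin (n + 1) → ℝ) :
    inner ℝ (T n (pol ρ θ, W)) (bR n θ) = ρ := by
  rw [Dir_inner, Dir_bR0, Dir_bR1, Dir_T0, Dir_T1]
  simp only [Dir_bRS, mul_zero, Finset.sum_const_zero, add_zero]
  show ρ * Real.cos θ * Real.cos θ + ρ * Real.sin θ * Real.sin θ = ρ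
  have := Real.sin_sq_add_cos_sq θ
  linear_combination ρ * this

theorem kp_W (n : ℕ) (p : (ℝ × ℝ) × (Fin (n + 1) → ℝ)) :
    kp (T n p) = (∑ j, p.2 j ^ 2) / ‖T n p‖ ^ 2 := by
  have h := Dir_norm (T n p)
  simp only [Dir_TS] at h
  unfold kp
  congr 1
  linarith

theorem kp_R (n : ℕ) (ρ θ : ℝ) (W : Fin (n + 1) → ℝ) (hρ : 0 < ρ) :
    (ρ / ‖T n (pol ρ θ, W)‖) ^ 2 = 1 - kp (T n (pol ρ θ, W)) := by
  have h := Dir_norm (T n (pol ρ θ, W))
  have h3 : (T n (pol ρ θ, W)) 0 ^ 2 + (T n (pol ρ θ, W)) 1 ^ 2 = ρ ^ 2 := by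
    rw [Dir_T0, Dir_T1]
    show (ρ * Real.cos θ) ^ 2 + (ρ * Real.sin θ) ^ 2 = ρ ^ 2
    have := Real.sin_sq_add_cos_sq θ
    linear_combination ρ ^ 2 * this
  have h4 : 0 ≤ ∑ i : Fin (n + 1), (T n (pol ρ θ, W)) i.succ.succ ^ 2 :=
    Finset.sum_nonneg fun i _ => sq_nonneg _
  have h5 : 0 < ‖T n (pol ρ θ, W)‖ ^ 2 := by
    have : 0 < ρ ^ 2 := pow_pos hρ 2
    linarith
  unfold kp
  rw [div_pow, eq_sub_iff_add_eq, ← add_div, div_eq_one_iff_eq h5.ne']
  linarith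

theorem kp_mem {n : ℕ} (X : E (n + 3)) : 0 ≤ kp X ∧ kp X ≤ 1 := by
  have h := Dir_norm X
  have h4 : 0 ≤ ∑ i : Fin (n + 1), X i.succ.succ ^ 2 := Finset.sum_nonneg fun i _ => sq_nonneg _
  have h5 : 0 ≤ ‖X‖ ^ 2 := sq_nonneg _
  unfold kp
  refine ⟨div_nonneg (by linarith) h5, div_le_one_of_le₀ ?_ h5⟩
  have := sq_nonneg (X 0)
  have := sq_nonneg (X 1)
  linarith

end MB
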