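import Pool.Agent.H16.MB.Kap
import Pool.Agent.H16.MB.Dir

/-!
Row Kp2 (MP_c844e7, about 110 lines).  Three finite integrals of `qq X = ‖X‖²/wq X`.

PROOF.  For `X = T n (z, W)`: `‖X‖² = z.1² + z.2² + ∑ W j²` (`norm_T`), `wq X = ∑ i : Fin n, W i.castSucc ^ 2` (`i.succ.succ.castSucc = i.castSucc.succ.succ`, and
`T n p j.succ.succ = p.2 j`).  With `A = 1 + z.1² + z.2²` and `B = 1 + ∑ W j²`: `‖X‖² ≤ A B`, so
`qq² ≤ A² B²/wq² ≤ A² · B³/wq²` and `‖X‖² qq ≤ A² B²/wq ≤ A² B³/wq²` (if `wq > 0`, since `wq ≤ B`; if `wq = 0` the left sides are `0`).  So the first two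
integrals are at most `(∫⁻ ofReal (A²) ∂ga2) * kap < ⊤` (`lintegral_prod_mul`; polynomials have finite Gaussian integrals: `memLp_id_gaussianReal`).
Third: `‖T n (pol ρ θ, W)‖² = ρ² + ∑ W j²`, so the integrand is at most `(1+ρ²)² B³/wq²`, `ang` has total mass `≤ 1`, and
`dbl (fun ρ => ofReal ((1+ρ²)²) * C) ≤ C * ∫⁻_{R>0} ofReal (R² exp(-R²/2) R (1+R²)²) < ⊤`.
-/

set_option autoImplicit false

open MeasureTheory Set

namespace MB

theorem Kp2_abs {b : ℝ} (hb : 0 < b) {s : ℝ} (hs : -1 < s) :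
    Integrable (fun x : ℝ => |x| ^ s * Real.exp (-b * x ^ 2)) := by
  have h : IntegrableOn (fun x : ℝ => |x| ^ s * Real.exp (-b * x ^ 2)) (Ioi 0) := by
    refine (integrableOn_rpow_mul_exp_neg_mul_sq hb hs).congr_fun (fun x hx => ?_)
      measurableSet_Ioi
    have : |x| = x := abs_of_pos hx
    simp only [this]
  rw [← integrableOn_univ, ← @Iio_union_Ici _ _ (0 : ℝ), integrableOn_union,
    integrableOn_Ici_iff_integrableOn_Ioi]
  refine ⟨?_, h⟩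
  rw [← (Measure.measurePreserving_neg (volume : Measure ℝ)).integrableOn_comp_preimage
      (Homeomorph.neg ℝ).measurableEmbedding]
  simp only [Function.comp_def, neg_sq, neg_preimage, neg_Iio, neg_zero, abs_neg]
  exact h

theorem Kp2_ga {s : ℝ} (hs : -1 < s) :
    Integrable (fun x : ℝ => |x| ^ s * Real.exp (x ^ 2 / 8)) ga := by
  unfold ga
  rw [ProbabilityTheory.gaussianReal_of_var_ne_zero 0 one_ne_zero,
    integrable_withDensity_iff_integrable_smul' (ProbabilityTheory.measurable_gaussianPDF 0 1)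
      (Filter.Eventually.of_forall fun x => ENNReal.ofReal_lt_top)]
  simp only [ProbabilityTheory.toReal_gaussianPDF, smul_eq_mul]
  have h := (Kp2_abs (b := 3 / 8) (by norm_num) hs).const_mul ((√(2 * Real.pi * (1 : NNReal)))⁻¹)
  refine h.congr (Filter.Eventually.of_forall fun x => ?_)
  simp only [ProbabilityTheory.gaussianPDFReal]
  have e : Real.exp (-(3 / 8) * x ^ 2) =
      Real.exp (-(x - 0) ^ 2 / (2 * ((1 : NNReal) : ℝ))) * Real.exp (x ^ 2 / 8) := by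
    rw [← Real.exp_add]
    congr 1
    push_cast
    ring
  rw [e]
  ring

theorem Kp2_cub {t : ℝ} (ht : 0 ≤ t) :
    (1 + t) ^ 3 ≤ 24 ^ 3 * Real.exp (1 / 8) * Real.exp (t / 8) := by
  have h1 : 1 + t ≤ 24 * Real.exp ((1 + t) / 24) := by
    have := Real.add_one_le_exp ((1 + t) / 24)
    linarith
  calc (1 + t) ^ 3 ≤ (24 * Real.exp ((1 + t) / 24)) ^ 3 := pow_le_pow_left₀ (by linarith) h1 3
    _ = 24 ^ 3 * Real.exp (1 / 8) * Real.exp (t / 8) := by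
        rw [mul_pow, ← Real.exp_nat_mul, mul_assoc, ← Real.exp_add]
        congr 2
        push_cast
        ring

theorem Kp2_ne (n : ℕ) : ∀ᵐ W ∂(gad (n + 1)), ∀ j, W j ≠ 0 := by
  have := ProbabilityTheory.nullSingletonClass_gaussianReal (μ := 0) (v := 1) one_ne_zero
  rw [ae_all_iff]
  intro j
  have h : ∀ᵐ x ∂ga, x ≠ (0 : ℝ) := by
    rw [ae_iff]
    simp
  exact (Measure.tendsto_eval_ae_ae (μ := fun _ : Fin (n + 1) => ga) (i := j)).eventually h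


theorem Kp2_wq (n : ℕ) (p : (ℝ × ℝ) × (Fin (n + 1) → ℝ)) :
    wq (T n p) = ∑ i : Fin n, p.2 i.castSucc ^ 2 := rfl

theorem Kp2_wq_le (n : ℕ) (W : Fin (n + 1) → ℝ) :
    ∑ i : Fin n, W i.castSucc ^ 2 ≤ ∑ j, W j ^ 2 := by
  rw [Fin.sum_univ_castSucc]
  have := sq_nonneg (W (Fin.last n))
  linarith

theorem Kp2_alg {A B N w : ℝ} (hA : 1 ≤ A) (hB : 1 ≤ B) (hN : 0 ≤ N) (hNAB : N ≤ A * B)
    (hw : 0 ≤ w) (hwB : w ≤ B) :
    N * (N / w) ≤ A ^ 2 * (B ^ 3 / w ^ 2) ∧ (N / w) ^ 2 ≤ A ^ 2 * (B ^ 3 / w ^ 2) := by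
  rcases hw.eq_or_lt with h0 | h0
  · subst h0
    simp
  · have hN2 : N ^ 2 ≤ A ^ 2 * B ^ 2 := by
      rw [← mul_pow]
      exact pow_le_pow_left₀ hN hNAB 2
    have hAB : 0 ≤ A ^ 2 * B ^ 2 := by positivity
    constructor
    · rw [← mul_div_assoc, ← mul_div_assoc, div_le_div_iff₀ h0 (by positivity)]
      calc N * N * w ^ 2 = N ^ 2 * w ^ 2 := by ring
        _ ≤ A ^ 2 * B ^ 2 * w ^ 2 := mul_le_mul_of_nonneg_right hN2 (by positivity)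
        _ = A ^ 2 * B ^ 2 * w * w := by ring
        _ ≤ A ^ 2 * B ^ 2 * B * w := by
            apply mul_le_mul_of_nonneg_right _ hw
            exact mul_le_mul_of_nonneg_left hwB hAB
        _ = A ^ 2 * B ^ 3 * w := by ring
    · rw [div_pow, ← mul_div_assoc]
      apply div_le_div_of_nonneg_right _ (by positivity)
      calc N ^ 2 ≤ A ^ 2 * B ^ 2 := hN2
        _ ≤ A ^ 2 * B ^ 2 * B := le_mul_of_one_le_right hAB hB
        _ = A ^ 2 * B ^ 3 := by ring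

theorem Kp2_pt (n : ℕ) (z : ℝ × ℝ) (W : Fin (n + 1) → ℝ) :
    ‖T n (z, W)‖ ^ 2 * qq (T n (z, W)) ≤ (1 + z.1 ^ 2 + z.2 ^ 2) ^ 2 *
      ((1 + ∑ j, W j ^ 2) ^ 3 / (∑ i : Fin n, W i.castSucc ^ 2) ^ 2) ∧
    qq (T n (z, W)) ^ 2 ≤ (1 + z.1 ^ 2 + z.2 ^ 2) ^ 2 *
      ((1 + ∑ j, W j ^ 2) ^ 3 / (∑ i : Fin n, W i.castSucc ^ 2) ^ 2) := by
  unfold qq
  rw [Kp2_wq, norm_T]
  have h1 := Kp2_wq_le n W
  have h2 : 0 ≤ ∑ i : Fin n, W i.castSucc ^ 2 := Finset.sum_nonneg fun i _ => sq_nonneg _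
  have h3 := sq_nonneg z.1
  have h4 := sq_nonneg z.2
  have h5 : 0 ≤ ∑ j, W j ^ 2 := Finset.sum_nonneg fun i _ => sq_nonneg _
  apply Kp2_alg
  · linarith
  · linarith
  · positivity
  · nlinarith [mul_nonneg (add_nonneg h3 h4) h5]
  · exact h2
  · show ∑ i : Fin n, W i.castSucc ^ 2 ≤ _
    linarith

theorem Kp2_cub2 {t : ℝ} (ht : 0 ≤ t) :
    (1 + t) ^ 2 ≤ 24 ^ 3 * Real.exp (1 / 8) * Real.exp (t / 8) := by
  refine le_trans ?_ (Kp2_cub ht)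
  exact pow_le_pow_right₀ (by linarith) (by norm_num)

theorem Kp2_g1 : ∫⁻ x, ENNReal.ofReal ((1 + x ^ 2) ^ 2) ∂ga < ⊤ := by
  have h := (Kp2_ga (s := 0) (by norm_num)).const_mul (24 ^ 3 * Real.exp (1 / 8))
  refine lt_of_le_of_lt (lintegral_mono fun x => ?_) h.lintegral_lt_top
  apply ENNReal.ofReal_le_ofReal
  rw [Real.rpow_zero, one_mul]
  exact Kp2_cub2 (sq_nonneg x)

theorem Kp2_g2 : ∫⁻ z, ENNReal.ofReal ((1 + z.1 ^ 2 + z.2 ^ 2) ^ 2) ∂ga2 < ⊤ := by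
  have hm : Measurable fun x : ℝ => ENNReal.ofReal ((1 + x ^ 2) ^ 2) := by fun_prop
  have h := lintegral_prod_mul (μ := ga) (ν := ga) hm.aemeasurable hm.aemeasurable
  refine lt_of_le_of_lt (lintegral_mono fun z => ?_)
    (lt_of_eq_of_lt h (ENNReal.mul_lt_top Kp2_g1 Kp2_g1))
  rw [← ENNReal.ofReal_mul (by positivity)]
  apply ENNReal.ofReal_le_ofReal
  rw [← mul_pow]
  apply pow_le_pow_left₀ (by positivity)
  nlinarith [mul_nonneg (sq_nonneg z.1) (sq_nonneg z.2)]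

/-- the weight of `W` -/
noncomputable def Kp2_w (n : ℕ) (W : Fin (n + 1) → ℝ) : ENNReal :=
  ENNReal.ofReal ((1 + ∑ j, W j ^ 2) ^ 3 / (∑ i : Fin n, W i.castSucc ^ 2) ^ 2)

theorem Kp2_prod (n : ℕ) (hn : 5 ≤ n) :
    ∫⁻ p, ENNReal.ofReal ((1 + p.1.1 ^ 2 + p.1.2 ^ 2) ^ 2) * Kp2_w n p.2 ∂(gaT n) < ⊤ := by
  have hm : Measurable fun z : ℝ × ℝ => ENNReal.ofReal ((1 + z.1 ^ 2 + z.2 ^ 2) ^ 2) := by
    fun_prop
  have hm2 : Measurable (Kp2_w n) := by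
    unfold Kp2_w
    fun_prop
  have h := lintegral_prod_mul (μ := ga2) (ν := gad (n + 1)) hm.aemeasurable hm2.aemeasurable
  exact lt_of_eq_of_lt h (ENNReal.mul_lt_top Kp2_g2 (kap_lt n hn))

theorem kap1 (n : ℕ) (hn : 5 ≤ n) :
    ∫⁻ p, ENNReal.ofReal (‖T n p‖ ^ 2 * qq (T n p)) ∂(gaT n) < ⊤ := by
  refine lt_of_le_of_lt (lintegral_mono fun p => ?_) (Kp2_prod n hn)
  unfold Kp2_w
  rw [← ENNReal.ofReal_mul (by positivity)]
  exact ENNReal.ofReal_le_ofReal (Kp2_pt n p.1 p.2).1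

theorem kap2 (n : ℕ) (hn : 5 ≤ n) :
    ∫⁻ p, ENNReal.ofReal (qq (T n p) ^ 2) ∂(gaT n) < ⊤ := by
  refine lt_of_le_of_lt (lintegral_mono fun p => ?_) (Kp2_prod n hn)
  unfold Kp2_w
  rw [← ENNReal.ofReal_mul (by positivity)]
  exact ENNReal.ofReal_le_ofReal (Kp2_pt n p.1 p.2).2

theorem Kp2_K : ∫⁻ R in Ioi (0 : ℝ), ENNReal.ofReal (R ^ 2 * Real.exp (-R ^ 2 / 2)) *
    (ENNReal.ofReal ((1 + R ^ 2) ^ 2) * ENNReal.ofReal R) < ⊤ := by
  have h := ((Kp2_abs (b := 3 / 8) (by norm_num) (s := 3) (by norm_num)).const_mul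
    (24 ^ 3 * Real.exp (1 / 8))).integrableOn (s := Ioi 0)
  refine lt_of_le_of_lt (setLIntegral_mono' measurableSet_Ioi fun R hR => ?_) h.lintegral_lt_top
  have hR' : 0 < R := hR
  rw [← ENNReal.ofReal_mul (by positivity), ← ENNReal.ofReal_mul (by positivity)]
  apply ENNReal.ofReal_le_ofReal
  rw [abs_of_pos hR']
  have e1 : R ^ (3 : ℝ) = R ^ 3 := by
    rw [← Real.rpow_natCast]
    norm_num
  rw [e1]
  have h2 := Kp2_cub2 (sq_nonneg R)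
  have e2 : Real.exp (-(3 / 8) * R ^ 2) = Real.exp (-R ^ 2 / 2) * Real.exp (R ^ 2 / 8) := by
    rw [← Real.exp_add]
    congr 1
    ring
  rw [e2]
  calc R ^ 2 * Real.exp (-R ^ 2 / 2) * ((1 + R ^ 2) ^ 2 * R) =
        R ^ 3 * Real.exp (-R ^ 2 / 2) * (1 + R ^ 2) ^ 2 := by ring
    _ ≤ R ^ 3 * Real.exp (-R ^ 2 / 2) *
        (24 ^ 3 * Real.exp (1 / 8) * Real.exp (R ^ 2 / 8)) :=
          mul_le_mul_of_nonneg_left h2 (by positivity)
    _ = _ := by ring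

theorem Kp2_pol (ρ θ : ℝ) : (pol ρ θ).1 ^ 2 + (pol ρ θ).2 ^ 2 = ρ ^ 2 := by
  unfold pol
  have := Real.sin_sq_add_cos_sq θ
  simp only
  linear_combination ρ ^ 2 * this

theorem Kp2_dbl (n : ℕ) (W : Fin (n + 1) → ℝ) (θ : ℝ) :
    dbl (fun ρ => ENNReal.ofReal (qq (T n (pol ρ θ, W)) ^ 2)) ≤
      (∫⁻ R in Ioi (0 : ℝ), ENNReal.ofReal (R ^ 2 * Real.exp (-R ^ 2 / 2)) *
        (ENNReal.ofReal ((1 + R ^ 2) ^ 2) * ENNReal.ofReal R)) * Kp2_w n W := by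
  have hw : Kp2_w n W ≠ ⊤ := ENNReal.ofReal_ne_top
  rw [← lintegral_mul_const' _ _ hw]
  unfold dbl
  refine setLIntegral_mono' measurableSet_Ioi fun R hR => ?_
  have hR' : 0 < R := hR
  rw [mul_assoc]
  gcongr
  have h1 : ∫⁻ ρ in Ioo 0 R, ENNReal.ofReal (qq (T n (pol ρ θ, W)) ^ 2) ≤
      ∫⁻ _ρ in Ioo 0 R, ENNReal.ofReal ((1 + R ^ 2) ^ 2) * Kp2_w n W := by
    refine setLIntegral_mono' measurableSet_Ioo fun ρ hρ => ?_
    unfold Kp2_w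
    rw [← ENNReal.ofReal_mul (by positivity)]
    apply ENNReal.ofReal_le_ofReal
    refine (Kp2_pt n (pol ρ θ) W).2.trans ?_
    apply mul_le_mul_of_nonneg_right _ (by positivity)
    rw [add_assoc, Kp2_pol]
    apply pow_le_pow_left₀ (by positivity)
    have := pow_le_pow_left₀ hρ.1.le hρ.2.le 2
    linarith
  refine h1.trans (le_of_eq ?_)
  rw [setLIntegral_const, Real.volume_Ioo, sub_zero]
  ring

theorem kap3 (n : ℕ) (hn : 5 ≤ n) :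
    ∫⁻ W, ∫⁻ θ, dbl (fun ρ => ENNReal.ofReal (qq (T n (pol ρ θ, W)) ^ 2)) ∂ang
      ∂(gad (n + 1)) < ⊤ := by
  have hK := Kp2_K
  set K := ∫⁻ R in Ioi (0 : ℝ), ENNReal.ofReal (R ^ 2 * Real.exp (-R ^ 2 / 2)) *
        (ENNReal.ofReal ((1 + R ^ 2) ^ 2) * ENNReal.ofReal R) with hKdef
  have hang : ang univ < ⊤ := by
    unfold ang
    rw [Measure.smul_apply, Measure.restrict_apply_univ, Real.volume_Ioo, smul_eq_mul]
    exact ENNReal.mul_lt_top ENNReal.ofReal_lt_top ENNReal.ofReal_lt_top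
  have h1 : ∫⁻ W, ∫⁻ θ, dbl (fun ρ => ENNReal.ofReal (qq (T n (pol ρ θ, W)) ^ 2)) ∂ang
      ∂(gad (n + 1)) ≤ ∫⁻ W, (K * ang univ) * Kp2_w n W ∂(gad (n + 1)) := by
    refine lintegral_mono fun W => ?_
    calc ∫⁻ θ, dbl (fun ρ => ENNReal.ofReal (qq (T n (pol ρ θ, W)) ^ 2)) ∂ang
        ≤ ∫⁻ _θ, K * Kp2_w n W ∂ang := lintegral_mono fun θ => Kp2_dbl n W θ
      _ = K * ang univ * Kp2_w n W := by
          rw [lintegral_const]
          ring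
  refine lt_of_le_of_lt h1 ?_
  rw [lintegral_const_mul' _ _ (ENNReal.mul_lt_top hK hang).ne]
  exact ENNReal.mul_lt_top (ENNReal.mul_lt_top hK hang) (kap_lt n hn)

/-- Almost everywhere `wq` is positive. -/
theorem wq_pos_ae (n : ℕ) (hn : 1 ≤ n) : ∀ᵐ p ∂(gaT n), 0 < wq (T n p) := by
  have h : ∀ᵐ p ∂(gaT n), ∀ j, p.2 j ≠ 0 :=
    Measure.quasiMeasurePreserving_snd.ae (Kp2_ne n)
  filter_upwards [h] with p hp
  rw [Kp2_wq]
  have h0 : (0 : ℕ) < n := hn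
  have h1 := Finset.single_le_sum (f := fun i : Fin n => p.2 i.castSucc ^ 2)
      (fun i _ => sq_nonneg _) (Finset.mem_univ (⟨0, h0⟩ : Fin n))
  have h2 := hp (⟨0, h0⟩ : Fin n).castSucc
  have h3 : 0 < p.2 (⟨0, h0⟩ : Fin n).castSucc ^ 2 := by positivity
  exact lt_of_lt_of_le h3 h1

end MB
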