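import Pool.Agent.H16.MB.Cen
import Pool.Agent.H16.MB.CutV
import Pool.Agent.H16.MB.Den
import Pool.Agent.H16.MB.Kp2

/-!
Row Ctr (MP_c844e7, about 130 lines).  Centring of the cut-off lift.

PROOF.  Let `w p = cut ε (T n p) ‖T n p‖ ≥ 0` (measurable: `cut` is a measurable expression in `wq` and the norm, or continuous off `0`), `ξ p = sg (G (P (T n p)))`
(measurable: `hG.meas`; `sg` continuous; `P` is a measurable expression), `‖ξ‖ = 1` (`norm_sg`), `μ = (gaT n).withDensity (ofReal w)`.  `μ` is finite: `w ≤ ‖T n p‖`,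
`∫⁻ ofReal ‖T n p‖ ≤ 1 + ∫⁻ nsq < ⊤` (`mom_norm`).  `μ ≠ 0`: otherwise `w = 0` a.e.; the set `{p | cut ε (T n p) ≠ 0}` contains a nonempty open set, e.g. a
neighbourhood of a point with `z = 0`, `W 0 ≠ 0` and the other `W j = 0`: there `‖X‖² = wq X`, `0 < ε < 1` (`ε ≤ 1/2` is assumed), and `gaT n` gives positive measure to
nonempty open sets (it is equivalent to Lebesgue measure: `den`/`leb_T`, or `IsOpenPosMeasure` instances).
No atoms: `μ {ξ = u} = 0`: it is enough that `gaT n {p | cut ε (T n p) ≠ 0 ∧ ξ p = u} = 0`.  If `p, p₀` are in this set then `P (T n p)`, `P (T n p₀)` are in the ball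
(`cut_ne`, `P_lt`), `sg` is injective (`conf_sg.inj`), `G` is injective on the ball, so `P (T n p) = P (T n p₀)`, and `T n p = ‖T n p‖ • sg (P (T n p₀))` (`sg_P`) is on
the line spanned by `sg (P (T n p₀))`.  The line is a proper subspace of `E (n+3)`, so it has volume `0` (`Measure.addHaar_submodule`), and by `den` with `H` its
indicator, `gaT n (T n ⁻¹' line) = 0`.
`cen` gives `a`; `integral_withDensity_eq_integral_smul`-like lemma: `0 = ∫ mob a (ξ p) dμ = ∫ w p • mob a (ξ p) = ∫ Vf ε (fun z => mob a (sg z)) G (T n p)`.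
-/


set_option autoImplicit false

open MeasureTheory Set

namespace MB

theorem Ctr_cont_lst {n : ℕ} : Continuous (lst : E (n + 1) → ℝ) :=
  (EuclideanSpace.proj (𝕜 := ℝ) (Fin.last n)).continuous

theorem Ctr_meas_P {n : ℕ} : Measurable (P : E (n + 1) → E n) := by
  have h1 : Measurable fun X : E (n + 1) => (‖X‖ + lst X)⁻¹ :=
    (measurable_norm.add Ctr_cont_lst.measurable).inv
  exact h1.smul (ini n).continuous.measurable

theorem Ctr_meas_cut {n : ℕ} (ε : ℝ) : Measurable (cut ε : E (n + 3) → ℝ) := by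
  have h1 : Measurable fun X : E (n + 3) => ε ^ 2 * ‖X‖ ^ 2 :=
    (measurable_norm.pow_const 2).const_mul _
  have h2 : Measurable fun X : E (n + 3) => max 0 (wq X - ε ^ 2 * ‖X‖ ^ 2) :=
    measurable_const.max (wq_cont.measurable.sub h1)
  exact (h2.div wq_cont.measurable).pow_const 2

theorem Ctr_null (n : ℕ) (S : Set (E (n + 3))) (hS : MeasurableSet S) :
    gaT n (T n ⁻¹' S) = 0 ↔ (volume : Measure (E (n + 3))) S = 0 := by
  have h := den n (S.indicator 1) (measurable_one.indicator hS)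
  have h1 : ∫⁻ p, S.indicator (1 : E (n + 3) → ENNReal) (T n p) ∂(gaT n)
      = gaT n (T n ⁻¹' S) := by
    have h0 : (fun p => S.indicator (1 : E (n + 3) → ENNReal) (T n p))
        = (T n ⁻¹' S).indicator 1 := by
      funext p
      rfl
    rw [h0, lintegral_indicator_one (hS.preimage (cont_T n).measurable)]
  rw [h1] at h
  have hc : ENNReal.ofReal (Real.sqrt (2 * Real.pi) ^ (n + 3)) ≠ 0 := by
    rw [ne_eq, ENNReal.ofReal_eq_zero, not_le]
    positivity
  have hm : Measurable fun X : E (n + 3) => S.indicator (1 : E (n + 3) → ENNReal) X *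
      ENNReal.ofReal (Real.exp (-‖X‖ ^ 2 / 2)) := by
    refine (measurable_one.indicator hS).mul ?_
    have : Continuous fun X : E (n + 3) => Real.exp (-‖X‖ ^ 2 / 2) := by fun_prop
    exact this.measurable.ennreal_ofReal
  have h2 : (∫⁻ X, S.indicator (1 : E (n + 3) → ENNReal) X *
      ENNReal.ofReal (Real.exp (-‖X‖ ^ 2 / 2))) = 0 ↔ (volume : Measure (E (n + 3))) S = 0 := by
    rw [lintegral_eq_zero_iff hm]
    constructor
    · intro h3
      have h4 : ∀ᵐ X : E (n + 3), X ∉ S := by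
        filter_upwards [h3] with X hX hXS
        simp only [Set.indicator_of_mem hXS, Pi.one_apply, one_mul, Pi.zero_apply,
          ENNReal.ofReal_eq_zero, not_le] at hX
        exact absurd hX (not_le.2 (Real.exp_pos _))
      have h5 := ae_iff.1 h4
      simpa using h5
    · intro h3
      have h4 : ∀ᵐ X : E (n + 3), X ∉ S := by
        rw [ae_iff]
        simpa using h3
      filter_upwards [h4] with X hX
      simp [hX]
  rw [← h2, h, mul_eq_zero, or_iff_right hc]

theorem Ctr_pos {n : ℕ} (hn : 1 ≤ n) {ε : ℝ} (hε : 0 < ε) (hε1 : ε ≤ 1 / 2) :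
    gaT n {p | cut ε (T n p) * ‖T n p‖ ≠ 0} ≠ 0 := by
  set U : Set (E (n + 3)) := {X | ε ^ 2 * ‖X‖ ^ 2 < wq X} with hU
  have hUo : IsOpen U := isOpen_lt (by fun_prop) wq_cont
  have hUn : U.Nonempty := by
    have hk : 0 < n := hn
    let i0 : Fin n := ⟨0, hk⟩
    refine ⟨EuclideanSpace.single i0.succ.succ.castSucc (1 : ℝ), ?_⟩
    rw [hU, mem_setOf_eq, EuclideanSpace.norm_single, norm_one]
    have h1 : (1 : ℝ) ≤ wq (EuclideanSpace.single i0.succ.succ.castSucc (1 : ℝ) : E (n + 3)) := by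
      unfold wq
      have h2 := Finset.single_le_sum (s := Finset.univ) (f := fun i : Fin n =>
        (EuclideanSpace.single i0.succ.succ.castSucc (1 : ℝ) : E (n + 3))
          i.succ.succ.castSucc ^ 2) (fun i _ => sq_nonneg _) (Finset.mem_univ i0)
      refine le_trans ?_ h2
      simp
    nlinarith
  have hpos : (volume : Measure (E (n + 3))) U ≠ 0 := (hUo.measure_pos volume hUn).ne'
  have h1 : gaT n (T n ⁻¹' U) ≠ 0 := by
    rw [ne_eq, Ctr_null n U hUo.measurableSet]
    exact hpos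
  intro h2
  apply h1
  refine measure_mono_null (fun p hp => ?_) h2
  have hp' : ε ^ 2 * ‖T n p‖ ^ 2 < wq (T n p) := hp
  have hw : 0 < wq (T n p) := lt_of_le_of_lt (by positivity) hp'
  have hT : ‖T n p‖ ≠ 0 := by
    intro h0
    have h3 := (wq_bd (T n p)).2.2
    rw [h0] at h3
    norm_num at h3
    linarith
  refine mul_ne_zero ?_ hT
  unfold cut
  apply pow_ne_zero
  apply div_ne_zero _ hw.ne'
  rw [max_eq_right (by linarith)]
  exact (sub_pos.2 hp').ne'

theorem Ctr_atom {n : ℕ} {c ε : ℝ} (hε : 0 < ε)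
    {G : E (n + 2) → E (n + 2)} (hG : Dat c (2 / ε) G) (u : E (n + 3)) :
    gaT n {p | cut ε (T n p) ≠ 0 ∧ sg (G (P (T n p))) = u} = 0 := by
  rcases Set.eq_empty_or_nonempty {p | cut ε (T n p) ≠ 0 ∧ sg (G (P (T n p))) = u} with h | h
  · rw [h, measure_empty]
  obtain ⟨p0, hp0, hp0u⟩ := h
  set v : E (n + 3) := sg (P (T n p0)) with hv
  set L : Submodule ℝ (E (n + 3)) := Submodule.span ℝ {v} with hL
  have hLt : L ≠ ⊤ := by
    intro ht
    have hv0 : v ≠ 0 := by
      intro h0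
      have h2 : ‖v‖ = 1 := norm_sg _
      rw [h0, norm_zero] at h2
      exact zero_ne_one h2
    have h1 : Module.finrank ℝ L = 1 := finrank_span_singleton hv0
    rw [ht, finrank_top, finrank_euclideanSpace, Fintype.card_fin] at h1
    omega
  have hL0 : (volume : Measure (E (n + 3))) (L : Set (E (n + 3))) = 0 :=
    Measure.addHaar_submodule _ L hLt
  have hLm : MeasurableSet (L : Set (E (n + 3))) := L.closed_of_finiteDimensional.measurableSet
  refine measure_mono_null (fun p hp => ?_) ((Ctr_null n _ hLm).2 hL0)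
  obtain ⟨hp1, hp2⟩ := hp
  obtain ⟨a1, a2⟩ := cut_ne hε _ hp1
  obtain ⟨a3, a4⟩ := P_lt hε _ a1 a2
  obtain ⟨b1, b2⟩ := cut_ne hε _ hp0
  obtain ⟨b3, b4⟩ := P_lt hε _ b1 b2
  have h1 : G (P (T n p)) = G (P (T n p0)) := conf_sg.inj (hp2.trans hp0u.symm)
  have h2 : P (T n p) = P (T n p0) := hG.inj a4 b4 h1
  have h3 := sg_P (T n p) a3
  change T n p ∈ L
  rw [← h3, h2, ← hv, hL]
  exact Submodule.smul_mem _ _ (Submodule.mem_span_singleton_self v)

theorem ctr {n : ℕ} (hn : 1 ≤ n) {c ε : ℝ} (hε : 0 < ε) (hε1 : ε ≤ 1 / 2)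
    {G : E (n + 2) → E (n + 2)} (hG : Dat c (2 / ε) G) :
    ∃ a : E (n + 3), ‖a‖ < 1 ∧
      ∫ p, Vf ε (fun z => mob a (sg z)) G (T n p) ∂(gaT n) = 0 := by
  set w : (ℝ × ℝ) × (Fin (n + 1) → ℝ) → ℝ := fun p => cut ε (T n p) * ‖T n p‖ with hw
  have hTm : Measurable (T n) := (cont_T n).measurable
  have hwm : Measurable w := ((Ctr_meas_cut ε).comp hTm).mul (measurable_norm.comp hTm)
  have hw0 : ∀ p, 0 ≤ w p := fun p => mul_nonneg (cut_mem ε _).1 (norm_nonneg _)
  set f : (ℝ × ℝ) × (Fin (n + 1) → ℝ) → NNReal := fun p => (w p).toNNReal with hf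
  have hfm : Measurable f := hwm.real_toNNReal
  set ξ : (ℝ × ℝ) × (Fin (n + 1) → ℝ) → E (n + 3) := fun p => sg (G (P (T n p))) with hξ
  have hsg : Continuous (sg : E (n + 2) → E (n + 3)) :=
    continuous_iff_continuousAt.2 fun z => (conf_sg.diff z).continuousAt
  have hξm : Measurable ξ := hsg.measurable.comp (hG.meas.comp (Ctr_meas_P.comp hTm))
  set μ : Measure ((ℝ × ℝ) × (Fin (n + 1) → ℝ)) :=
    (gaT n).withDensity (fun p => (f p : ENNReal)) with hμ
  have hfin : ∫⁻ p, (f p : ENNReal) ∂(gaT n) ≠ ⊤ := by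
    have h1 : ∫⁻ p, (f p : ENNReal) ∂(gaT n) ≤ ∫⁻ p, (1 + nsq (T n p)) ∂(gaT n) := by
      refine lintegral_mono fun p => ?_
      change ENNReal.ofReal (w p) ≤ 1 + ENNReal.ofReal (‖T n p‖ ^ 2)
      rw [← ENNReal.ofReal_one, ← ENNReal.ofReal_add zero_le_one (sq_nonneg _)]
      apply ENNReal.ofReal_le_ofReal
      have h2 := (cut_mem ε (T n p)).2
      have h3 := (cut_mem ε (T n p)).1
      have h4 := norm_nonneg (T n p)
      have h5 : w p ≤ ‖T n p‖ := by
        rw [hw]
        nlinarith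
      nlinarith [sq_nonneg (‖T n p‖ - 1)]
    have h2 : ∫⁻ p, (1 + nsq (T n p)) ∂(gaT n) = 1 + ((n : ENNReal) + 3) := by
      rw [lintegral_add_left measurable_const, mom_norm, lintegral_const, measure_univ, mul_one]
    have h3 : (1 + ((n : ENNReal) + 3)) < ⊤ := by
      have : (1 + ((n : ENNReal) + 3)) = ((1 + (n + 3) : ℕ) : ENNReal) := by push_cast; rfl
      rw [this]
      exact ENNReal.natCast_lt_top _
    exact ((h1.trans h2.le).trans_lt h3).ne
  haveI : IsFiniteMeasure μ := isFiniteMeasure_withDensity hfin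
  have hfe : AEMeasurable (fun p => (f p : ENNReal)) (gaT n) :=
    hfm.coe_nnreal_ennreal.aemeasurable
  have hμ0 : μ ≠ 0 := by
    intro h0
    have h1 : μ univ = 0 := by rw [h0]; rfl
    rw [hμ, withDensity_apply_eq_zero' hfe] at h1
    apply Ctr_pos hn hε hε1
    refine measure_mono_null (fun p hp => ?_) h1
    refine ⟨?_, mem_univ _⟩
    have hp' : w p ≠ 0 := hp
    have hp1 : 0 < w p := lt_of_le_of_ne (hw0 p) hp'.symm
    change ((w p).toNNReal : ENNReal) ≠ 0
    rw [ne_eq, ENNReal.coe_eq_zero, Real.toNNReal_eq_zero, not_le]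
    exact hp1
  have hat : ∀ u, μ {p | ξ p = u} = 0 := by
    intro u
    rw [hμ, withDensity_apply_eq_zero' hfe]
    refine measure_mono_null (fun p hp => ?_) (Ctr_atom hε hG u)
    obtain ⟨hp1, hp2⟩ := hp
    refine ⟨fun h0 => hp1 ?_, hp2⟩
    change ((w p).toNNReal : ENNReal) = 0
    have : w p = 0 := by
      change cut ε (T n p) * ‖T n p‖ = 0
      rw [h0, zero_mul]
    rw [this, Real.toNNReal_zero, ENNReal.coe_zero]
  obtain ⟨a, ha, hint⟩ := cen μ hμ0 ξ hξm (fun p => norm_sg _) hat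
  refine ⟨a, ha, ?_⟩
  rw [hμ, integral_withDensity_eq_integral_smul hfm] at hint
  rw [← hint]
  congr 1
  funext p
  unfold Vf lift
  rw [smul_smul, NNReal.smul_def]
  change (cut ε (T n p) * ‖T n p‖) • mob a (sg (G (P (T n p)))) =
    (((w p).toNNReal : ℝ)) • mob a (sg (G (P (T n p))))
  rw [Real.coe_toNNReal _ (hw0 p)]

end MB
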