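import Pool.Agent.H16.MB.Defs

/-!
Row Dbl (MP_c844e7, about 90 lines).  Exchange of the order in `dbl`.

PROOF.  Tonelli with the indicator of `{(R,ρ) | 0 < ρ < R}` (as a function of `(R, ρ)` measurable):
`dbl K = ∫⁻ ρ in Ioi 0, K ρ * ∫⁻ R in Ioi ρ, ofReal (R² exp(-R²/2))` for measurable `K`.  For `ρ > 0`:
`∫_ρ^∞ R² exp(-R²/2) dR = ρ exp(-ρ²/2) + ∫_ρ^∞ exp(-R²/2) dR` (derivative of `-R exp(-R²/2)` is `(R² - 1) exp(-R²/2)`;
`integral_Ioi_of_hasDerivAt_of_tendsto`; or integration by parts) and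
`∫_ρ^∞ exp(-R²/2) dR = ∫_0^∞ exp(-(ρ+u)²/2) du ≤ exp(-ρ²/2) ∫_0^∞ exp(-u²/2) du = exp(-ρ²/2) √(π/2)` (`(ρ+u)² ≥ ρ² + u²`,
`integral_gaussian_Ioi`: `∫_0^∞ exp(-b x²) = √(π/b)/2`), and `√(π/2) ≤ 627/500` (`π < 3.1416`).  So
`∫⁻_{R>ρ} ofReal (R² exp(-R²/2)) ≤ ofReal ((ρ + 627/500) exp(-ρ²/2))`, and
`(ρ/(ρ+627/500)) (ρ+627/500) = ρ`.
-/

set_option autoImplicit false

open MeasureTheory Set

namespace MB

theorem Dbl_int (ρ : ℝ) (hρ : 0 < ρ) :
    ∫ R in Ioi ρ, R ^ 2 * Real.exp (-R ^ 2 / 2) ≤ (ρ + 627 / 500) * Real.exp (-ρ ^ 2 / 2) := by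
  have e0 : ∀ x : ℝ, Real.exp (-x ^ 2 / 2) = Real.exp (-(1 / 2) * x ^ 2) := by
    intro x
    congr 1
    ring
  have i0 : Integrable (fun x : ℝ => Real.exp (-x ^ 2 / 2)) := by
    simp only [e0]
    exact integrable_exp_neg_mul_sq (by norm_num)
  have i2 : Integrable (fun x : ℝ => x ^ 2 * Real.exp (-x ^ 2 / 2)) := by
    simp only [e0]
    have h := integrable_rpow_mul_exp_neg_mul_sq (b := 1 / 2) (by norm_num) (s := 2) (by norm_num)
    refine h.congr (Filter.Eventually.of_forall fun x => ?_)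
    simp only
    rw [Real.rpow_two]
  have i3 : Integrable (fun x : ℝ => (x ^ 2 - 1) * Real.exp (-x ^ 2 / 2)) := by
    refine (i2.sub i0).congr (Filter.Eventually.of_forall fun x => ?_)
    simp only [Pi.sub_apply]
    ring
  have h1 : ∫ R in Ioi ρ, (R ^ 2 - 1) * Real.exp (-R ^ 2 / 2) = ρ * Real.exp (-ρ ^ 2 / 2) := by
    have hd : ∀ x ∈ Ici ρ, HasDerivAt (fun x : ℝ => -(x * Real.exp (-x ^ 2 / 2)))
        ((x ^ 2 - 1) * Real.exp (-x ^ 2 / 2)) x := by
      intro x _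
      have h2 : HasDerivAt (fun x : ℝ => -x ^ 2 / 2) (-x) x := by
        have h3 := ((hasDerivAt_pow 2 x).neg).div_const 2
        refine h3.congr_deriv ?_
        norm_num
        ring
      have h3 := ((hasDerivAt_id x).mul h2.exp).neg
      refine h3.congr_deriv ?_
      simp only [id]
      ring
    have ht : Filter.Tendsto (fun x : ℝ => -(x * Real.exp (-x ^ 2 / 2))) Filter.atTop
        (nhds 0) := by
      have h4 : Filter.Tendsto (fun x : ℝ => x * Real.exp (-x ^ 2 / 2)) Filter.atTop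
          (nhds 0) := by
        have h5 := Real.tendsto_pow_mul_exp_neg_atTop_nhds_zero 1
        refine squeeze_zero' ?_ ?_ h5
        · filter_upwards [Filter.eventually_ge_atTop 0] with x hx
          positivity
        · filter_upwards [Filter.eventually_ge_atTop 2] with x hx
          rw [pow_one]
          refine mul_le_mul_of_nonneg_left (Real.exp_le_exp.2 ?_) (by linarith)
          nlinarith
      have h6 := h4.neg
      rwa [neg_zero] at h6
    rw [integral_Ioi_of_hasDerivAt_of_tendsto' hd i3.integrableOn ht]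
    ring
  have h2 : ∫ R in Ioi ρ, Real.exp (-R ^ 2 / 2) ≤ 627 / 500 * Real.exp (-ρ ^ 2 / 2) := by
    have i4 : Integrable (fun x : ℝ => Real.exp (-ρ ^ 2 / 2) * Real.exp (-(x - ρ) ^ 2 / 2)) :=
      (i0.comp_sub_right ρ).const_mul _
    have h3 : ∫ R in Ioi ρ, Real.exp (-R ^ 2 / 2) ≤
        ∫ R in Ioi ρ, Real.exp (-ρ ^ 2 / 2) * Real.exp (-(R - ρ) ^ 2 / 2) := by
      refine setIntegral_mono_on i0.integrableOn i4.integrableOn measurableSet_Ioi
        fun x hx => ?_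
      have hx' : ρ < x := hx
      rw [← Real.exp_add]
      refine Real.exp_le_exp.2 ?_
      nlinarith
    have h4 : ∫ R in Ioi ρ, Real.exp (-(R - ρ) ^ 2 / 2) = ∫ u in Ioi (0 : ℝ), Real.exp (-u ^ 2 / 2) := by
      rw [← integral_indicator measurableSet_Ioi, ← integral_indicator measurableSet_Ioi]
      rw [← integral_sub_right_eq_self (μ := volume)
        ((Ioi (0 : ℝ)).indicator fun u => Real.exp (-u ^ 2 / 2)) ρ]
      congr 1
      funext x
      by_cases hx : ρ < x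
      · rw [indicator_of_mem (show x ∈ Ioi ρ from hx),
          indicator_of_mem (show x - ρ ∈ Ioi (0 : ℝ) from sub_pos.2 hx)]
      · rw [indicator_of_notMem (show x ∉ Ioi ρ from hx),
          indicator_of_notMem (show x - ρ ∉ Ioi (0 : ℝ) from fun h => hx (sub_pos.1 h))]
    have h5 : ∫ u in Ioi (0 : ℝ), Real.exp (-u ^ 2 / 2) ≤ 627 / 500 := by
      simp only [e0]
      rw [integral_gaussian_Ioi]
      rw [div_le_iff₀ (by norm_num)]
      refine Real.sqrt_le_iff.2 ⟨by norm_num, ?_⟩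
      have := Real.pi_lt_d4
      linarith
    rw [integral_const_mul, h4] at h3
    have h6 := mul_le_mul_of_nonneg_left h5 (Real.exp_pos (-ρ ^ 2 / 2)).le
    linarith
  have h3 : ∫ R in Ioi ρ, R ^ 2 * Real.exp (-R ^ 2 / 2) =
      (∫ R in Ioi ρ, (R ^ 2 - 1) * Real.exp (-R ^ 2 / 2)) +
        ∫ R in Ioi ρ, Real.exp (-R ^ 2 / 2) := by
    rw [← integral_add i3.integrableOn i0.integrableOn]
    refine integral_congr_ae (Filter.Eventually.of_forall fun x => ?_)
    simp only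
    ring
  rw [h3, h1]
  linarith

theorem Dbl_lint (ρ : ℝ) (hρ : 0 < ρ) :
    ∫⁻ R in Ioi ρ, ENNReal.ofReal (R ^ 2 * Real.exp (-R ^ 2 / 2)) ≤
      ENNReal.ofReal ((ρ + 627 / 500) * Real.exp (-ρ ^ 2 / 2)) := by
  have i2 : Integrable (fun x : ℝ => x ^ 2 * Real.exp (-x ^ 2 / 2)) := by
    have h := integrable_rpow_mul_exp_neg_mul_sq (b := 1 / 2) (by norm_num) (s := 2) (by norm_num)
    refine h.congr (Filter.Eventually.of_forall fun x => ?_)
    simp only
    rw [Real.rpow_two]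
    congr 2
    ring
  rw [← ofReal_integral_eq_lintegral_ofReal i2.integrableOn
    (Filter.Eventually.of_forall fun x => by positivity)]
  exact ENNReal.ofReal_le_ofReal (Dbl_int ρ hρ)

theorem Dbl_swap (w K : ℝ → ENNReal) (hw : Measurable w) (hK : Measurable K) :
    ∫⁻ R in Ioi (0 : ℝ), w R * ∫⁻ ρ in Ioo 0 R, K ρ =
      ∫⁻ ρ in Ioi (0 : ℝ), K ρ * ∫⁻ R in Ioi ρ, w R := by
  classical
  have hS : MeasurableSet {p : ℝ × ℝ | p.2 < p.1} := measurableSet_lt measurable_snd measurable_fst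
  have hm : Measurable (Function.uncurry fun R ρ : ℝ =>
      if ρ < R then w R * K ρ else 0) := by
    refine Measurable.ite hS ?_ measurable_const
    exact (hw.comp measurable_fst).mul (hK.comp measurable_snd)
  have h1 : ∫⁻ R in Ioi (0 : ℝ), w R * ∫⁻ ρ in Ioo 0 R, K ρ =
      ∫⁻ R in Ioi (0 : ℝ), ∫⁻ ρ in Ioi (0 : ℝ), if ρ < R then w R * K ρ else 0 := by
    refine lintegral_congr fun R => ?_
    rw [← lintegral_const_mul _ hK, ← lintegral_indicator measurableSet_Ioo,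
      ← lintegral_indicator measurableSet_Ioi]
    refine lintegral_congr fun ρ => ?_
    by_cases h0 : 0 < ρ
    · by_cases hR : ρ < R
      · rw [indicator_of_mem (show ρ ∈ Ioo 0 R from ⟨h0, hR⟩),
          indicator_of_mem (show ρ ∈ Ioi (0 : ℝ) from h0), if_pos hR]
      · rw [indicator_of_notMem (show ρ ∉ Ioo 0 R from fun h => hR h.2),
          indicator_of_mem (show ρ ∈ Ioi (0 : ℝ) from h0), if_neg hR]
    · rw [indicator_of_notMem (show ρ ∉ Ioo 0 R from fun h => h0 h.1),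
        indicator_of_notMem (show ρ ∉ Ioi (0 : ℝ) from h0)]
  rw [h1, lintegral_lintegral_swap hm.aemeasurable]
  refine setLIntegral_congr_fun measurableSet_Ioi fun ρ hρ => ?_
  have hρ' : 0 < ρ := hρ
  rw [← lintegral_const_mul _ hw, ← lintegral_indicator measurableSet_Ioi,
    ← lintegral_indicator measurableSet_Ioi]
  refine lintegral_congr fun R => ?_
  by_cases hR : ρ < R
  · rw [indicator_of_mem (show R ∈ Ioi (0 : ℝ) from hρ'.trans hR),
      indicator_of_mem (show R ∈ Ioi ρ from hR), if_pos hR, mul_comm]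
  · rw [indicator_of_notMem (show R ∉ Ioi ρ from hR)]
    by_cases h0 : 0 < R
    · rw [indicator_of_mem (show R ∈ Ioi (0 : ℝ) from h0), if_neg hR]
    · rw [indicator_of_notMem (show R ∉ Ioi (0 : ℝ) from h0)]

theorem dbl_le (H : ℝ → ENNReal) (hH : Measurable H) :
    dbl (fun ρ => ENNReal.ofReal (ρ / (ρ + 627 / 500)) * H ρ) ≤
      ∫⁻ ρ in Ioi (0 : ℝ), ENNReal.ofReal (ρ * Real.exp (-ρ ^ 2 / 2)) * H ρ := by
  unfold dbl
  have hw : Measurable fun R : ℝ => ENNReal.ofReal (R ^ 2 * Real.exp (-R ^ 2 / 2)) := by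
    fun_prop
  have hK : Measurable fun ρ : ℝ => ENNReal.ofReal (ρ / (ρ + 627 / 500)) * H ρ := by
    refine Measurable.mul ?_ hH
    exact (measurable_id.div (measurable_id.add_const _)).ennreal_ofReal
  rw [Dbl_swap _ _ hw hK]
  refine setLIntegral_mono' measurableSet_Ioi fun ρ hρ => ?_
  have hρ' : 0 < ρ := hρ
  calc ENNReal.ofReal (ρ / (ρ + 627 / 500)) * H ρ *
        ∫⁻ R in Ioi ρ, ENNReal.ofReal (R ^ 2 * Real.exp (-R ^ 2 / 2))
      ≤ ENNReal.ofReal (ρ / (ρ + 627 / 500)) * H ρ *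
        ENNReal.ofReal ((ρ + 627 / 500) * Real.exp (-ρ ^ 2 / 2)) :=
        mul_le_mul_right (Dbl_lint ρ hρ') _
    _ = ENNReal.ofReal (ρ / (ρ + 627 / 500)) *
        ENNReal.ofReal ((ρ + 627 / 500) * Real.exp (-ρ ^ 2 / 2)) * H ρ := by ring
    _ = ENNReal.ofReal (ρ * Real.exp (-ρ ^ 2 / 2)) * H ρ := by
        rw [← ENNReal.ofReal_mul (by positivity)]
        congr 2
        field_simp

end MB
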