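import Pool.Agent.H16.MB.Vol
import Pool.Agent.H16.MB.Den

/-!
Row Edd (MP_c844e7, about 50 lines).  The Gaussian mean of the Jacobian is at most one.

PROOF.  `Dd_meas`: `fderiv ℝ (lift S G)` is measurable (`measurable_fderiv`), the determinant is continuous (`ContinuousLinearMap.continuous_det`), `Om` is open
(`Om_open`).  `edd`: `den` with `H X = ofReal (Dd R S G X)`: `C ∫⁻ ofReal (Dd (T p)) ∂gaT = ∫⁻ H X * ofReal (exp(-‖X‖²/2)) =
∫⁻_{Om} ofReal |det| * ofReal (exp …)` (`lintegral_indicator`), `C = ofReal (√(2π)^(n+3))`, which by `vol` is at most `∫⁻ ofReal (exp(-‖Z‖²/2)) = C`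
(`den` with `H = 1`; `gaT n` is a probability measure).  `C ≠ 0, ⊤`.
-/

set_option autoImplicit false

open MeasureTheory Set

namespace MB

variable {n : ℕ} {c R : ℝ} {G : E (n + 2) → E (n + 2)} {S : E (n + 2) → E (n + 3)}
  {μ : E (n + 2) → ℝ}

theorem Dd_nonneg (X : E (n + 3)) : 0 ≤ Dd R S G X := by
  unfold Dd
  exact Set.indicator_nonneg (fun _ _ => abs_nonneg _) X

theorem Dd_meas : Measurable (Dd (n := n) R S G) := by
  unfold Dd
  refine Measurable.indicator ?_ (Om_open n R).measurableSet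
  have h1 : Measurable (fun X : E (n + 3) => (fderiv ℝ (lift S G) X).det) :=
    ContinuousLinearMap.continuous_det.measurable.comp (measurable_fderiv ℝ (lift S G))
  exact continuous_abs.measurable.comp h1

theorem edd (hG : Dat c R G) (hS : ConfS S μ) :
    ∫⁻ p, ENNReal.ofReal (Dd R S G (T n p)) ∂(gaT n) ≤ 1 := by
  have h1 := den n (fun X => ENNReal.ofReal (Dd R S G X)) Dd_meas.ennreal_ofReal
  have h2 := den n (fun _ => 1) measurable_const
  have e1 : ∫⁻ X, ENNReal.ofReal (Dd R S G X) * ENNReal.ofReal (Real.exp (-‖X‖ ^ 2 / 2)) =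
      ∫⁻ X in Om n R, ENNReal.ofReal |(fderiv ℝ (lift S G) X).det| *
        ENNReal.ofReal (Real.exp (-‖X‖ ^ 2 / 2)) := by
    rw [← lintegral_indicator (Om_open n R).measurableSet]
    congr 1
    funext X
    by_cases hX : X ∈ Om n R
    · rw [indicator_of_mem hX]
      unfold Dd
      rw [indicator_of_mem hX]
    · rw [indicator_of_notMem hX]
      unfold Dd
      rw [indicator_of_notMem hX, ENNReal.ofReal_zero, zero_mul]
  have hC0 : ENNReal.ofReal (Real.sqrt (2 * Real.pi) ^ (n + 3)) ≠ 0 := by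
    rw [Ne, ENNReal.ofReal_eq_zero, not_le]
    positivity
  have hC1 : ENNReal.ofReal (Real.sqrt (2 * Real.pi) ^ (n + 3)) ≠ ⊤ := ENNReal.ofReal_ne_top
  have h3 := vol hG hS
  rw [← e1, h1] at h3
  have h5 : ∫⁻ Z : E (n + 3), ENNReal.ofReal (Real.exp (-‖Z‖ ^ 2 / 2)) =
      ENNReal.ofReal (Real.sqrt (2 * Real.pi) ^ (n + 3)) * 1 := by
    have h6 : ∫⁻ _ : (ℝ × ℝ) × (Fin (n + 1) → ℝ), (1 : ENNReal) ∂(gaT n) = 1 := by
      rw [lintegral_one]
      exact measure_univ
    rw [h6] at h2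
    rw [← h2]
    simp only [one_mul]
  rw [h5] at h3
  exact (ENNReal.mul_le_mul_iff_right hC0 hC1).1 h3

end MB
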