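import Pool.Agent.H16.MB.Defs

/-!
Row Pol (MP_c844e7, about 70 lines).  The Gaussian measure of the plane in polar coordinates.

PROOF.  `ga2 = ga.prod ga` is `volume.withDensity` of `φ x φ y`, `φ x = (√(2π))⁻¹ exp(-x²/2)` (`prod_withDensity`, `Measure.volume_eq_prod`), and
`φ x φ y = (2π)⁻¹ exp(-(x²+y²)/2)`.  So the left side is `∫⁻ z, ofReal ((2π)⁻¹ exp(-(z.1²+z.2²)/2)) * F z`.  `lintegral_comp_polarCoord_symm`:
`∫⁻ p in polarCoord.target, ofReal p.1 • H (polarCoord.symm p) = ∫⁻ H`, with `polarCoord.target = Ioi 0 ×ˢ Ioo (-π) π` and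
`polarCoord.symm (ρ, θ) = (ρ cos θ, ρ sin θ) = pol ρ θ`; Tonelli (`Measure.prod_restrict`, `lintegral_prod_symm`),
`(ρ cos θ)² + (ρ sin θ)² = ρ²`, and `ang` is `ofReal (2π)⁻¹` times the restriction of the Lebesgue measure.
-/

set_option autoImplicit false

open MeasureTheory Set

namespace MB

lemma Pol_ga : ga = (volume : Measure ℝ).withDensity
    (fun x => ENNReal.ofReal ((√(2 * Real.pi))⁻¹ * Real.exp (-x ^ 2 / 2))) := by
  unfold ga
  rw [ProbabilityTheory.gaussianReal_of_var_ne_zero 0 one_ne_zero]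
  congr 1
  ext x
  simp [ProbabilityTheory.gaussianPDF, ProbabilityTheory.gaussianPDFReal]

lemma Pol_ga2 : ga2 = (volume : Measure (ℝ × ℝ)).withDensity
    (fun z => ENNReal.ofReal ((2 * Real.pi)⁻¹ * Real.exp (-(z.1 ^ 2 + z.2 ^ 2) / 2))) := by
  unfold ga2
  rw [Pol_ga, prod_withDensity (by fun_prop) (by fun_prop), ← Measure.volume_eq_prod]
  congr 1
  ext z
  rw [← ENNReal.ofReal_mul (by positivity)]
  congr 1
  have h1 : (√(2 * Real.pi))⁻¹ * (√(2 * Real.pi))⁻¹ = (2 * Real.pi)⁻¹ := by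
    rw [← mul_inv, Real.mul_self_sqrt (by positivity)]
  have h2 : Real.exp (-(z.1 ^ 2 + z.2 ^ 2) / 2) = Real.exp (-z.1 ^ 2 / 2) * Real.exp (-z.2 ^ 2 / 2) := by
    rw [← Real.exp_add]
    congr 1
    ring
  rw [h2, ← h1]
  ring

theorem pol_int (F : ℝ × ℝ → ENNReal) (hF : Measurable F) :
    ∫⁻ z, F z ∂ga2 = ∫⁻ θ, (∫⁻ ρ in Ioi (0 : ℝ),
      ENNReal.ofReal (ρ * Real.exp (-ρ ^ 2 / 2)) * F (pol ρ θ)) ∂ang := by
  have hpol : Measurable (fun p : ℝ × ℝ => pol p.1 p.2) := by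
    unfold pol
    fun_prop
  rw [Pol_ga2, lintegral_withDensity_eq_lintegral_mul _ (by fun_prop) hF,
    ← lintegral_comp_polarCoord_symm]
  have ht : polarCoord.target = Ioi (0 : ℝ) ×ˢ Ioo (-Real.pi) Real.pi := rfl
  have hs : ∀ p : ℝ × ℝ, polarCoord.symm p = pol p.1 p.2 := fun p => rfl
  rw [ht, Measure.volume_eq_prod, ← Measure.prod_restrict]
  have hK : ∀ p : ℝ × ℝ, ENNReal.ofReal p.1 • (((fun z : ℝ × ℝ => ENNReal.ofReal ((2 * Real.pi)⁻¹ *
      Real.exp (-(z.1 ^ 2 + z.2 ^ 2) / 2))) * F) (polarCoord.symm p)) =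
      ENNReal.ofReal (2 * Real.pi)⁻¹ * (ENNReal.ofReal p.1 * (ENNReal.ofReal (Real.exp (-p.1 ^ 2 / 2)) *
        F (pol p.1 p.2))) := by
    intro p
    rw [hs p, Pi.mul_apply, smul_eq_mul]
    have h1 : (pol p.1 p.2).1 ^ 2 + (pol p.1 p.2).2 ^ 2 = p.1 ^ 2 := by
      simp only [pol]
      have := Real.cos_sq_add_sin_sq p.2
      linear_combination p.1 ^ 2 * this
    rw [h1, ENNReal.ofReal_mul (by positivity)]
    ring
  simp_rw [hK]
  rw [lintegral_prod_symm _ (by fun_prop)]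
  unfold ang
  refine Eq.trans ?_ (lintegral_smul_measure _ _).symm
  rw [smul_eq_mul, ← lintegral_const_mul' _ _ (by simp)]
  refine lintegral_congr fun θ => ?_
  rw [lintegral_const_mul' _ _ (by simp)]
  congr 1
  refine setLIntegral_congr_fun measurableSet_Ioi fun ρ hρ => ?_
  have h0 : (0 : ℝ) ≤ ρ := le_of_lt hρ
  simp only
  rw [ENNReal.ofReal_mul h0, mul_assoc]

end MB
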