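import Pool.Agent.H16.MB.Defs

/-!
Row Tau (MP_c844e7, about 120 lines).  The one-dimensional integral.

PROOF.  Let `m = 627/500`.  For `ρ > 0`, `x := (ρ+m)/ρ ≥ 1` and `0 ≤ s ≤ 1/2`: `x^s ≤ 1 - 2s + 2s x^(1/2)` (weighted
arithmetic–geometric mean: `x^s = 1^(1-2s) * (x^(1/2))^(2s)`, `Real.geom_mean_le_arith_mean2_weighted`), and with `a = 4/3`
`x^(1/2) = √(ρ+m) ρ^(-1/2) ≤ ((ρ+m)/a + a)/2 * ρ^(-1/2) = (1/2) ((1/a) ρ^(1/2) + (m/a + a) ρ^(-1/2))` (real powers).  So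
`x^s ≤ 1 - 2s + s ((3/4) ρ^(1/2) + (m*(3/4) + 4/3) ρ^(-1/2))`.  `∫_0^R ρ^(-1/2) = 2 R^(1/2)`, `∫_0^R ρ^(1/2) = (2/3) R^(3/2)`
(`integral_rpow`), so `∫_0^R x^s ≤ (1 - 2s) R + s ((1/2) R^(3/2) + 2 (3m/4 + 4/3) R^(1/2))`.  Multiply by `R²`:
`R² R^(1/2) ≤ (1/2) ((5/4) R² + (4/5) R³)` (`R^(1/2) ≤ (5/4 + (4/5) R)/2`), `R² R^(3/2) = R³ R^(1/2) ≤ (1/2) ((11/8) R³ + (8/11) R⁴)`.
`∫_0^∞ R² exp(-R²/2) = √(π/2)`, `∫_0^∞ R³ exp(-R²/2) = 2`, `∫_0^∞ R⁴ exp(-R²/2) = 3 √(π/2)` (`Real.integral_rpow_mul_exp_neg_mul_rpow` or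
`integral_rpow_mul_exp_neg_mul_sq`-like lemmas with the Gamma function, or integration by parts from `integral_gaussian_Ioi`), `√(π/2) ≤ 1.2534`.
Total: `2 (1-2s) + s (1/2) (1/2) ((11/8) 2 + (8/11) 3·1.2534) + 2 s (3m/4+4/3) (1/2) ((5/4) 1.2534 + (4/5) 2)
 = 2 + s (-4 + 1.3712 + 2·2.27384·1.583375) ≤ 2 + 4.573 s`, and `4.573 ≤ 23/5`.
-/

set_option autoImplicit false

open MeasureTheory Set

namespace MB

theorem Tau_sqrt (ρ : ℝ) (hρ : 0 < ρ) :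
    Real.sqrt ((ρ + 627 / 500) / ρ) ≤
      (3 / 4 * ρ ^ (1 / 2 : ℝ) + (627 / 500 * (3 / 4) + 4 / 3) * ρ ^ (-(1 / 2) : ℝ)) / 2 := by
  have h1 : 0 < ρ + 627 / 500 := by linarith
  have hs : ρ ^ (1 / 2 : ℝ) = Real.sqrt ρ := (Real.sqrt_eq_rpow ρ).symm
  have hs0 : 0 < Real.sqrt ρ := Real.sqrt_pos.2 hρ
  have hss : Real.sqrt ρ * Real.sqrt ρ = ρ := Real.mul_self_sqrt hρ.le
  have hn : ρ ^ (-(1 / 2) : ℝ) = (Real.sqrt ρ)⁻¹ := by
    rw [Real.rpow_neg hρ.le, hs]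
  rw [hs, hn, Real.sqrt_div h1.le, div_le_iff₀ hs0]
  have h2 : Real.sqrt (ρ + 627 / 500) * Real.sqrt (ρ + 627 / 500) = ρ + 627 / 500 :=
    Real.mul_self_sqrt h1.le
  have h3 : Real.sqrt (ρ + 627 / 500) ≤ ((ρ + 627 / 500) * (3 / 4) + 4 / 3) / 2 := by
    nlinarith [sq_nonneg (Real.sqrt (ρ + 627 / 500) - 4 / 3)]
  refine h3.trans (le_of_eq ?_)
  have h4 : (Real.sqrt ρ)⁻¹ * Real.sqrt ρ = 1 := inv_mul_cancel₀ hs0.ne'
  linear_combination (3 / 8 : ℝ) * (-hss) - (627 / 500 * (3 / 4) + 4 / 3) / 2 * h4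

theorem Tau_pt (s ρ : ℝ) (h0 : 0 ≤ s) (h1 : s ≤ 1 / 2) (hρ : 0 < ρ) :
    ((ρ + 627 / 500) / ρ) ^ s ≤ (1 - 2 * s) +
      s * (3 / 4 * ρ ^ (1 / 2 : ℝ) + (627 / 500 * (3 / 4) + 4 / 3) * ρ ^ (-(1 / 2) : ℝ)) := by
  have hx : 0 ≤ (ρ + 627 / 500) / ρ := by positivity
  have h2 := Real.geom_mean_le_arith_mean2_weighted (w₁ := 1 - 2 * s) (w₂ := 2 * s) (p₁ := 1)
    (p₂ := Real.sqrt ((ρ + 627 / 500) / ρ)) (by linarith) (by linarith) zero_le_one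
    (Real.sqrt_nonneg _) (by ring)
  have e : Real.sqrt ((ρ + 627 / 500) / ρ) ^ (2 * s) = ((ρ + 627 / 500) / ρ) ^ s := by
    rw [Real.sqrt_eq_rpow, ← Real.rpow_mul hx]
    congr 1
    ring
  rw [Real.one_rpow, one_mul, e, mul_one] at h2
  have h3 := mul_le_mul_of_nonneg_left (Tau_sqrt ρ hρ) (by linarith : 0 ≤ 2 * s)
  linarith

theorem Tau_ii1 (R : ℝ) : IntervalIntegrable (fun ρ : ℝ => ρ ^ (1 / 2 : ℝ)) volume 0 R :=
  intervalIntegral.intervalIntegrable_rpow' (by norm_num)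

theorem Tau_ii2 (R : ℝ) : IntervalIntegrable (fun ρ : ℝ => ρ ^ (-(1 / 2) : ℝ)) volume 0 R :=
  intervalIntegral.intervalIntegrable_rpow' (by norm_num)

theorem Tau_ii (s K R : ℝ) : IntervalIntegrable (fun ρ : ℝ => (1 - 2 * s) +
      s * (3 / 4 * ρ ^ (1 / 2 : ℝ) + K * ρ ^ (-(1 / 2) : ℝ))) volume 0 R :=
  intervalIntegrable_const.add ((((Tau_ii1 R).const_mul _).add ((Tau_ii2 R).const_mul _)).const_mul _)

theorem Tau_int (s K R : ℝ) (hR : 0 < R) : ∫ ρ in (0 : ℝ)..R, ((1 - 2 * s) +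
      s * (3 / 4 * ρ ^ (1 / 2 : ℝ) + K * ρ ^ (-(1 / 2) : ℝ))) =
    (1 - 2 * s) * R + s * (1 / 2 * (R * Real.sqrt R) + 2 * K * Real.sqrt R) := by
  rw [intervalIntegral.integral_add intervalIntegrable_const
      ((((Tau_ii1 R).const_mul _).add ((Tau_ii2 R).const_mul _)).const_mul _),
    intervalIntegral.integral_const_mul, intervalIntegral.integral_add ((Tau_ii1 R).const_mul _)
      ((Tau_ii2 R).const_mul _), intervalIntegral.integral_const_mul,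
    intervalIntegral.integral_const_mul, intervalIntegral.integral_const,
    integral_rpow (Or.inl (by norm_num)), integral_rpow (Or.inl (by norm_num))]
  have e1 : R ^ ((1 / 2 : ℝ) + 1) = R * Real.sqrt R := by
    rw [Real.rpow_add hR, Real.rpow_one, ← Real.sqrt_eq_rpow, mul_comm]
  have e2 : R ^ (-(1 / 2 : ℝ) + 1) = Real.sqrt R := by
    rw [Real.sqrt_eq_rpow]
    congr 1
    norm_num
  have e3 : (0 : ℝ) ^ ((1 / 2 : ℝ) + 1) = 0 := Real.zero_rpow (by norm_num)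
  have e4 : (0 : ℝ) ^ (-(1 / 2 : ℝ) + 1) = 0 := Real.zero_rpow (by norm_num)
  rw [e1, e2, e3, e4, smul_eq_mul]
  ring

theorem Tau_inner (s R : ℝ) (h0 : 0 ≤ s) (h1 : s ≤ 1 / 2) (hR : 0 < R) :
    ∫⁻ ρ in Ioo 0 R, ENNReal.ofReal (((ρ + 627 / 500) / ρ) ^ s) ≤
      ENNReal.ofReal ((1 - 2 * s) * R + s * (11 / 32 * R + 2 / 11 * R ^ 2 +
        5 / 4 * (627 / 500 * (3 / 4) + 4 / 3) + 4 / 5 * (627 / 500 * (3 / 4) + 4 / 3) * R)) := by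
  have hI : IntegrableOn (fun ρ : ℝ => (1 - 2 * s) +
      s * (3 / 4 * ρ ^ (1 / 2 : ℝ) + (627 / 500 * (3 / 4) + 4 / 3) * ρ ^ (-(1 / 2) : ℝ)))
      (Ioo 0 R) volume :=
    ((intervalIntegrable_iff_integrableOn_Ioo_of_le hR.le).1 (Tau_ii s _ R))
  have step1 : ∫⁻ ρ in Ioo 0 R, ENNReal.ofReal (((ρ + 627 / 500) / ρ) ^ s) ≤
      ∫⁻ ρ in Ioo 0 R, ENNReal.ofReal ((1 - 2 * s) +
      s * (3 / 4 * ρ ^ (1 / 2 : ℝ) + (627 / 500 * (3 / 4) + 4 / 3) * ρ ^ (-(1 / 2) : ℝ))) := by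
    refine setLIntegral_mono' measurableSet_Ioo fun ρ hρ => ENNReal.ofReal_le_ofReal ?_
    exact Tau_pt s ρ h0 h1 hρ.1
  refine step1.trans ?_
  rw [← ofReal_integral_eq_lintegral_ofReal hI, ← integral_Ioc_eq_integral_Ioo,
    ← intervalIntegral.integral_of_le hR.le, Tau_int s _ R hR]
  · apply ENNReal.ofReal_le_ofReal
    have hs : Real.sqrt R * Real.sqrt R = R := Real.mul_self_sqrt hR.le
    have a1 : Real.sqrt R ≤ (5 / 4 + 4 / 5 * R) / 2 := by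
      nlinarith [sq_nonneg (Real.sqrt R - 5 / 4)]
    have a2 : Real.sqrt R ≤ (11 / 8 + 8 / 11 * R) / 2 := by
      nlinarith [sq_nonneg (Real.sqrt R - 11 / 8)]
    have a3 := mul_le_mul_of_nonneg_left a2 hR.le
    have a4 : 1 / 2 * (R * Real.sqrt R) + 2 * (627 / 500 * (3 / 4) + 4 / 3) * Real.sqrt R ≤
        11 / 32 * R + 2 / 11 * R ^ 2 +
        5 / 4 * (627 / 500 * (3 / 4) + 4 / 3) + 4 / 5 * (627 / 500 * (3 / 4) + 4 / 3) * R := by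
      nlinarith
    have a5 := mul_le_mul_of_nonneg_left a4 h0
    linarith
  · filter_upwards [ae_restrict_mem measurableSet_Ioo] with ρ hρ
    have hρ0 : 0 < ρ := hρ.1
    have p1 : 0 ≤ ρ ^ (1 / 2 : ℝ) := Real.rpow_nonneg hρ0.le _
    have p2 : 0 ≤ ρ ^ (-(1 / 2) : ℝ) := Real.rpow_nonneg hρ0.le _
    have p3 : 0 ≤ s * (3 / 4 * ρ ^ (1 / 2 : ℝ) + (627 / 500 * (3 / 4) + 4 / 3) *
      ρ ^ (-(1 / 2) : ℝ)) := by positivity
    simp only [Pi.zero_apply]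
    linarith

theorem Tau_momI (k : ℕ) :
    IntegrableOn (fun R : ℝ => R ^ k * Real.exp (-R ^ 2 / 2)) (Ioi 0) volume := by
  have h := (integrable_rpow_mul_exp_neg_mul_sq (b := 1 / 2) (by norm_num) (s := (k : ℝ))
    (by have := Nat.cast_nonneg (α := ℝ) k; linarith)).integrableOn (s := Ioi 0)
  refine h.congr_fun (fun R _ => ?_) measurableSet_Ioi
  simp only [Real.rpow_natCast]
  congr 2
  ring

theorem Tau_mom (k : ℕ) : ∫ R in Ioi (0 : ℝ), R ^ k * Real.exp (-R ^ 2 / 2) =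
    (1 / 2 : ℝ) ^ (-((k : ℝ) + 1) / 2) * (1 / 2) * Real.Gamma (((k : ℝ) + 1) / 2) := by
  rw [← integral_rpow_mul_exp_neg_mul_rpow (p := 2) (q := (k : ℝ)) (b := 1 / 2) (by norm_num)
    (by have := Nat.cast_nonneg (α := ℝ) k; linarith) (by norm_num)]
  refine setIntegral_congr_fun measurableSet_Ioi fun R _ => ?_
  simp only [Real.rpow_natCast, Real.rpow_two]
  congr 2
  ring

theorem Tau_M2 : ∫ R in Ioi (0 : ℝ), R ^ 2 * Real.exp (-R ^ 2 / 2) ≤ 1.2534 := by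
  rw [Tau_mom]
  have hG : Real.Gamma (((2 : ℕ) : ℝ) / 2 + 1 / 2) = 1 / 2 * Real.sqrt Real.pi := by
    rw [show (((2 : ℕ) : ℝ) / 2 + 1 / 2) = (1 / 2 : ℝ) + 1 by norm_num,
      Real.Gamma_add_one (by norm_num), Real.Gamma_one_half_eq]
  have e : ((((2 : ℕ) : ℝ) + 1) / 2) = (((2 : ℕ) : ℝ) / 2 + 1 / 2) := by ring
  rw [e, hG]
  set A : ℝ := (1 / 2 : ℝ) ^ (-(((2 : ℕ) : ℝ) + 1) / 2) with hA
  have hA0 : 0 ≤ A := Real.rpow_nonneg (by norm_num) _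
  have hA2 : A ^ 2 = 8 := by
    rw [hA, ← Real.rpow_natCast, ← Real.rpow_mul (by norm_num)]
    rw [show (-(((2 : ℕ) : ℝ) + 1) / 2 * ((2 : ℕ) : ℝ)) = -((3 : ℕ) : ℝ) by norm_num,
      Real.rpow_neg (by norm_num), Real.rpow_natCast]
    norm_num
  have hp := Real.pi_lt_d4
  have hs : Real.sqrt Real.pi ^ 2 = Real.pi := Real.sq_sqrt Real.pi_pos.le
  have hx : 0 ≤ A * (1 / 2) * (1 / 2 * Real.sqrt Real.pi) := by positivity
  rw [← sq_le_sq₀ hx (by norm_num)]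
  have : (A * (1 / 2) * (1 / 2 * Real.sqrt Real.pi)) ^ 2 = A ^ 2 * Real.sqrt Real.pi ^ 2 / 16 := by
    ring
  rw [this, hA2, hs]
  norm_num
  linarith

theorem Tau_M3 : ∫ R in Ioi (0 : ℝ), R ^ 3 * Real.exp (-R ^ 2 / 2) = 2 := by
  rw [Tau_mom]
  have e : ((((3 : ℕ) : ℝ) + 1) / 2) = 1 + 1 := by norm_num
  have e2 : (-(((3 : ℕ) : ℝ) + 1) / 2) = -((2 : ℕ) : ℝ) := by norm_num
  rw [e, Real.Gamma_add_one (by norm_num), Real.Gamma_one, e2, Real.rpow_neg (by norm_num),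
    Real.rpow_natCast]
  norm_num

theorem Tau_M4 : ∫ R in Ioi (0 : ℝ), R ^ 4 * Real.exp (-R ^ 2 / 2) ≤ 3 * 1.2534 := by
  rw [Tau_mom]
  have hG : Real.Gamma ((((4 : ℕ) : ℝ) + 1) / 2) = 3 / 4 * Real.sqrt Real.pi := by
    rw [show ((((4 : ℕ) : ℝ) + 1) / 2) = ((1 / 2 : ℝ) + 1) + 1 by norm_num,
      Real.Gamma_add_one (by norm_num), Real.Gamma_add_one (by norm_num),
      Real.Gamma_one_half_eq]
    ring
  rw [hG]
  set A : ℝ := (1 / 2 : ℝ) ^ (-(((4 : ℕ) : ℝ) + 1) / 2) with hA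
  have hA0 : 0 ≤ A := Real.rpow_nonneg (by norm_num) _
  have hA2 : A ^ 2 = 32 := by
    rw [hA, ← Real.rpow_natCast, ← Real.rpow_mul (by norm_num)]
    rw [show (-(((4 : ℕ) : ℝ) + 1) / 2 * ((2 : ℕ) : ℝ)) = -((5 : ℕ) : ℝ) by norm_num,
      Real.rpow_neg (by norm_num), Real.rpow_natCast]
    norm_num
  have hp := Real.pi_lt_d4
  have hs : Real.sqrt Real.pi ^ 2 = Real.pi := Real.sq_sqrt Real.pi_pos.le
  have hx : 0 ≤ A * (1 / 2) * (3 / 4 * Real.sqrt Real.pi) := by positivity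
  rw [← sq_le_sq₀ hx (by norm_num)]
  have : (A * (1 / 2) * (3 / 4 * Real.sqrt Real.pi)) ^ 2 =
      A ^ 2 * Real.sqrt Real.pi ^ 2 * 9 / 64 := by ring
  rw [this, hA2, hs]
  norm_num
  linarith

theorem tau_le (s : ℝ) (h0 : 0 ≤ s) (h1 : s ≤ 1 / 2) :
    dbl (fun ρ => ENNReal.ofReal (((ρ + 627 / 500) / ρ) ^ s)) ≤
      ENNReal.ofReal (2 + 23 / 5 * s) := by
  unfold dbl
  obtain ⟨K, hK⟩ : ∃ K : ℝ, K = 627 / 500 * (3 / 4) + 4 / 3 := ⟨_, rfl⟩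
  have hKv : K = 3410750 / 1500000 := by rw [hK]; norm_num
  have step : ∫⁻ R in Ioi (0 : ℝ), ENNReal.ofReal (R ^ 2 * Real.exp (-R ^ 2 / 2)) *
      ∫⁻ ρ in Ioo 0 R, ENNReal.ofReal (((ρ + 627 / 500) / ρ) ^ s) ≤
      ∫⁻ R in Ioi (0 : ℝ), ENNReal.ofReal ((s * (5 / 4 * K)) * (R ^ 2 * Real.exp (-R ^ 2 / 2)) +
        ((1 - 2 * s) + s * (11 / 32 + 4 / 5 * K)) * (R ^ 3 * Real.exp (-R ^ 2 / 2)) +
        (s * (2 / 11)) * (R ^ 4 * Real.exp (-R ^ 2 / 2))) := by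
    refine setLIntegral_mono' measurableSet_Ioi fun R hR => ?_
    have hR0 : 0 < R := hR
    refine (mul_le_mul_right (Tau_inner s R h0 h1 hR0) _).trans ?_
    rw [← ENNReal.ofReal_mul (by positivity)]
    apply ENNReal.ofReal_le_ofReal
    rw [← hK]
    apply le_of_eq
    ring
  refine step.trans ?_
  have i2 := Tau_momI 2
  have i3 := Tau_momI 3
  have i4 := Tau_momI 4
  have hI : IntegrableOn (fun R : ℝ => (s * (5 / 4 * K)) * (R ^ 2 * Real.exp (-R ^ 2 / 2)) +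
        ((1 - 2 * s) + s * (11 / 32 + 4 / 5 * K)) * (R ^ 3 * Real.exp (-R ^ 2 / 2)) +
        (s * (2 / 11)) * (R ^ 4 * Real.exp (-R ^ 2 / 2))) (Ioi 0) volume :=
    ((i2.const_mul _).add (i3.const_mul _)).add (i4.const_mul _)
  have hK0 : 0 ≤ K := by rw [hKv]; norm_num
  rw [← ofReal_integral_eq_lintegral_ofReal hI]
  · apply ENNReal.ofReal_le_ofReal
    have h23 : IntegrableOn (fun R : ℝ => (s * (5 / 4 * K)) * (R ^ 2 * Real.exp (-R ^ 2 / 2)) +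
        ((1 - 2 * s) + s * (11 / 32 + 4 / 5 * K)) * (R ^ 3 * Real.exp (-R ^ 2 / 2)))
        (Ioi 0) volume := (i2.const_mul _).add (i3.const_mul _)
    rw [integral_add h23 (i4.const_mul _),
      integral_add (i2.const_mul _) (i3.const_mul _), integral_const_mul, integral_const_mul,
      integral_const_mul, Tau_M3]
    have m2 := mul_le_mul_of_nonneg_left Tau_M2 (by positivity : 0 ≤ s * (5 / 4 * K))
    have m4 := mul_le_mul_of_nonneg_left Tau_M4 (by positivity : 0 ≤ s * (2 / 11))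
    rw [hKv] at m2 ⊢
    norm_num at m2 m4 ⊢
    linarith
  · filter_upwards [ae_restrict_mem measurableSet_Ioi] with R hR
    have hR0 : 0 < R := hR
    simp only [Pi.zero_apply]
    have p1 : 0 ≤ (1 - 2 * s) + s * (11 / 32 + 4 / 5 * K) := by
      have : 0 ≤ s * (11 / 32 + 4 / 5 * K) := by positivity
      linarith
    have q1 : 0 ≤ (s * (5 / 4 * K)) * (R ^ 2 * Real.exp (-R ^ 2 / 2)) := by positivity
    have q2 : 0 ≤ ((1 - 2 * s) + s * (11 / 32 + 4 / 5 * K)) * (R ^ 3 * Real.exp (-R ^ 2 / 2)) :=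
      mul_nonneg p1 (by positivity)
    have q3 : 0 ≤ (s * (2 / 11)) * (R ^ 4 * Real.exp (-R ^ 2 / 2)) := by positivity
    linarith

end MB
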