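import Pool.Agent.H16.MB.Est
import Pool.Agent.H16.MB.Edd
import Pool.Agent.H16.MB.Dbl
import Pool.Agent.H16.MB.Tau
import Pool.Agent.H16.MB.Pol

/-!
Row IntR (MP_c844e7, about 110 lines).  Integration of `est_R`.

PROOF.  `dbl` is monotone in the values at `ρ > 0` and additive/homogeneous for measurable functions.  By `est_R`, for all `W, θ`:
`dbl (nsq …) ≤ ofReal (1+ε) * (dbl (ρ ↦ ofReal (ρ/(ρ+m)) * H ρ) + ofReal (n/(n+2)) * dbl (ρ ↦ ofReal (((ρ+m)/ρ)^(2/n)))) + ofReal (128 ε) * dbl (ρ ↦ ofReal (qq²))` with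
`H ρ = ofReal ((2/(n+2)) ((1-kp) + kp (c Dd)))` at `T n (pol ρ θ, W)`.  First part: `dbl_le`, then `∫⁻_θ ∂ang` and `pol_int` (for fixed `W`), then `∫⁻_W`, and Tonelli
(`lintegral_prod_symm`) give `∫⁻ p, ofReal ((2/(n+2)) ((1-kp) + kp (c Dd))) ∂gaT`.  Second: `tau_le` with `s = 2/n ≤ 1/2` (`n ≥ 4`); `ang` and `gad` have total mass
at most `1`: `ang univ = ofReal (2π)⁻¹ * volume (Ioo (-π) π) = 1`.
-/

set_option autoImplicit false

open MeasureTheory Set

namespace MB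

variable {n : ℕ} {c ε : ℝ} {G : E (n + 2) → E (n + 2)} {S : E (n + 2) → E (n + 3)}
  {μ : E (n + 2) → ℝ}

theorem IntR_dbl_mono {F H : ℝ → ENNReal} (h : ∀ ρ, 0 < ρ → F ρ ≤ H ρ) : dbl F ≤ dbl H := by
  unfold dbl
  refine lintegral_mono fun R => ?_
  refine mul_le_mul_right (setLIntegral_mono' measurableSet_Ioo fun ρ hρ => h ρ hρ.1) _

theorem IntR_meas (H : ℝ → ENNReal) : Measurable (fun R : ℝ => ∫⁻ ρ in Ioo 0 R, H ρ) := by
  refine Monotone.measurable fun a b hab => ?_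
  exact lintegral_mono_set (Ioo_subset_Ioo_right hab)

theorem IntR_dbl_add {F : ℝ → ENNReal} (H : ℝ → ENNReal) (hF : Measurable F) :
    dbl (fun ρ => F ρ + H ρ) = dbl F + dbl H := by
  unfold dbl
  rw [← lintegral_add_left]
  · refine lintegral_congr fun R => ?_
    rw [← mul_add, lintegral_add_left hF]
  · refine Measurable.mul ?_ (IntR_meas F)
    fun_prop

theorem IntR_dbl_mul {a : ENNReal} (ha : a ≠ ⊤) (H : ℝ → ENNReal) :
    dbl (fun ρ => a * H ρ) = a * dbl H := by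
  unfold dbl
  rw [← lintegral_const_mul' _ _ ha]
  refine lintegral_congr fun R => ?_
  rw [lintegral_const_mul' _ _ ha]
  ring

theorem IntR_dbl_lin {F H : ℝ → ENNReal} (L : ℝ → ENNReal) {a b d : ENNReal}
    (hF : Measurable F) (hH : Measurable fun ρ => b * H ρ) (ha : a ≠ ⊤) (hb : b ≠ ⊤)
    (hd : d ≠ ⊤) :
    dbl (fun ρ => a * (F ρ + b * H ρ) + d * L ρ) = a * (dbl F + b * dbl H) + d * dbl L := by
  have h1 : Measurable fun ρ => a * (F ρ + b * H ρ) := (hF.add hH).const_mul a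
  rw [IntR_dbl_add _ h1, IntR_dbl_mul ha, IntR_dbl_add _ hF, IntR_dbl_mul hb, IntR_dbl_mul hd]

theorem IntR_ang : ang univ = 1 := by
  have hpi := Real.pi_pos
  simp only [ang, Measure.smul_apply, Measure.restrict_apply_univ, Real.volume_Ioo, smul_eq_mul]
  rw [← ENNReal.ofReal_mul (by positivity)]
  have : (2 * Real.pi)⁻¹ * (Real.pi - -Real.pi) = 1 := by
    field_simp
    ring
  rw [this, ENNReal.ofReal_one]

theorem IntR_kp_meas (n : ℕ) : Measurable (kp : E (n + 3) → ℝ) := by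
  unfold kp
  have h0 : Measurable fun X : E (n + 3) => X 0 := by fun_prop
  have h1 : Measurable fun X : E (n + 3) => X 1 := by fun_prop
  exact (((measurable_norm.pow_const 2).sub (h0.pow_const 2)).sub (h1.pow_const 2)).div
    (measurable_norm.pow_const 2)

theorem IntR_pol_meas : Measurable fun q : ℝ × ℝ => pol q.1 q.2 := by
  unfold pol
  fun_prop

theorem IntR_lin {α : Type*} [MeasurableSpace α] (ν : Measure α) {f : α → ENNReal}
    (g : α → ENNReal) (hf : Measurable f) {a d : ENNReal} (b : ENNReal) (ha : a ≠ ⊤) (hd : d ≠ ⊤)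
    (hν : ν univ = 1) :
    ∫⁻ x, (a * (f x + b) + d * g x) ∂ν = a * (∫⁻ x, f x ∂ν + b) + d * ∫⁻ x, g x ∂ν := by
  have h1 : Measurable fun x => a * (f x + b) := (hf.add_const b).const_mul a
  rw [lintegral_add_left h1, lintegral_const_mul' _ _ ha, lintegral_const_mul' _ _ hd,
    lintegral_add_left hf, lintegral_const, hν, mul_one]

theorem int_R (hn : 4 ≤ n) (hε : 0 < ε) (hε1 : ε ≤ 1) (hc : 0 ≤ c) (hG : Dat c (2 / ε) G)
    (hS : ConfS S μ) :
    ∫⁻ W, ∫⁻ θ, dbl (fun ρ => nsq (fderiv ℝ (Vf ε S G) (T n (pol ρ θ, W)) (bR n θ))) ∂ang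
        ∂(gad (n + 1)) ≤
      ENNReal.ofReal (1 + ε) * (∫⁻ p, ENNReal.ofReal (2 / (n + 2) *
        ((1 - kp (T n p)) + kp (T n p) * (c * Dd (2 / ε) S G (T n p)))) ∂(gaT n) +
        ENNReal.ofReal (n / (n + 2) * (2 + 23 / 5 * (2 / n)))) +
      ENNReal.ofReal (128 * ε) *
        ∫⁻ W, ∫⁻ θ, dbl (fun ρ => ENNReal.ofReal (qq (T n (pol ρ θ, W)) ^ 2)) ∂ang
          ∂(gad (n + 1)) := by
  have hTm : Measurable (T n) := (cont_T n).measurable
  have hn0 : (0 : ℝ) < n := by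
    have : 0 < n := by omega
    exact_mod_cast this
  -- the integrand
  obtain ⟨K, hK⟩ : ∃ K : (ℝ × ℝ) × (Fin (n + 1) → ℝ) → ENNReal, K = fun p =>
    ENNReal.ofReal (2 / (n + 2) *
      ((1 - kp (T n p)) + kp (T n p) * (c * Dd (2 / ε) S G (T n p)))) := ⟨_, rfl⟩
  have hkm : Measurable fun p => kp (T n p) := (IntR_kp_meas n).comp hTm
  have hDm : Measurable fun p => Dd (2 / ε) S G (T n p) := Dd_meas.comp hTm
  have hKm : Measurable K := by
    rw [hK]
    exact (((measurable_const.sub hkm).add (hkm.mul (hDm.const_mul c))).const_mul _).ennreal_ofReal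
  have hb : ENNReal.ofReal (1 + ε) ≠ ⊤ := ENNReal.ofReal_ne_top
  have hd : ENNReal.ofReal (128 * ε) ≠ ⊤ := ENNReal.ofReal_ne_top
  have hconst : ENNReal.ofReal (n / (n + 2) * (2 + 23 / 5 * (2 / n))) =
      ENNReal.ofReal (n / (n + 2)) * ENNReal.ofReal (2 + 23 / 5 * (2 / n)) :=
    ENNReal.ofReal_mul (by positivity)
  -- step 1: the bound for fixed `W, θ`
  have step1 : ∀ (W : Fin (n + 1) → ℝ) (θ : ℝ),
      dbl (fun ρ => nsq (fderiv ℝ (Vf ε S G) (T n (pol ρ θ, W)) (bR n θ))) ≤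
        ENNReal.ofReal (1 + ε) * ((∫⁻ ρ in Ioi (0 : ℝ),
          ENNReal.ofReal (ρ * Real.exp (-ρ ^ 2 / 2)) * K (pol ρ θ, W)) +
          ENNReal.ofReal (n / (n + 2) * (2 + 23 / 5 * (2 / n)))) +
        ENNReal.ofReal (128 * ε) *
          dbl (fun ρ => ENNReal.ofReal (qq (T n (pol ρ θ, W)) ^ 2)) := by
    intro W θ
    have hpm : Measurable fun ρ : ℝ => (pol ρ θ, W) := by
      refine Measurable.prodMk ?_ measurable_const
      exact IntR_pol_meas.comp (measurable_id.prodMk measurable_const)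
    have hKρ : Measurable fun ρ : ℝ => K (pol ρ θ, W) := hKm.comp hpm
    have h1 : dbl (fun ρ => nsq (fderiv ℝ (Vf ε S G) (T n (pol ρ θ, W)) (bR n θ))) ≤
        dbl (fun ρ => ENNReal.ofReal (1 + ε) *
          (ENNReal.ofReal (ρ / (ρ + 627 / 500)) * K (pol ρ θ, W) +
            ENNReal.ofReal (n / (n + 2)) *
              ENNReal.ofReal (((ρ + 627 / 500) / ρ) ^ ((2 : ℝ) / n))) +
          ENNReal.ofReal (128 * ε) * ENNReal.ofReal (qq (T n (pol ρ θ, W)) ^ 2)) := by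
      refine IntR_dbl_mono fun ρ hρ => ?_
      have hE := est_R (by omega) hε hε1 hc hG hS ρ θ W hρ
      have hk := kp_mem (T n (pol ρ θ, W))
      have hD := Dd_nonneg (R := 2 / ε) (S := S) (G := G) (T n (pol ρ θ, W))
      have hX : 0 ≤ (1 - kp (T n (pol ρ θ, W))) +
          kp (T n (pol ρ θ, W)) * (c * Dd (2 / ε) S G (T n (pol ρ θ, W))) :=
        add_nonneg (by linarith [hk.2]) (mul_nonneg hk.1 (mul_nonneg hc hD))
      have hρ' : 0 ≤ ρ / (ρ + 627 / 500) := by positivity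
      have hY : 0 ≤ ((ρ + 627 / 500) / ρ) ^ ((2 : ℝ) / n) := by positivity
      rw [hK]
      simp only [nsq]
      rw [← ENNReal.ofReal_mul hρ', ← ENNReal.ofReal_mul (by positivity),
        ← ENNReal.ofReal_add (by positivity) (by positivity),
        ← ENNReal.ofReal_mul (by positivity), ← ENNReal.ofReal_mul (by positivity),
        ← ENNReal.ofReal_add (by positivity) (by positivity)]
      refine ENNReal.ofReal_le_ofReal (hE.trans (le_of_eq ?_))
      ring
    refine h1.trans ?_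
    have hm1 : Measurable fun ρ : ℝ => ENNReal.ofReal (ρ / (ρ + 627 / 500)) * K (pol ρ θ, W) := by
      refine Measurable.mul ?_ hKρ
      fun_prop
    have hm2 : Measurable fun ρ : ℝ => ENNReal.ofReal (n / (n + 2)) *
        ENNReal.ofReal (((ρ + 627 / 500) / ρ) ^ ((2 : ℝ) / n)) := by
      fun_prop
    rw [IntR_dbl_lin _ hm1 hm2 hb ENNReal.ofReal_ne_top hd]
    have hs : dbl (fun ρ => ENNReal.ofReal (((ρ + 627 / 500) / ρ) ^ ((2 : ℝ) / n))) ≤
        ENNReal.ofReal (2 + 23 / 5 * (2 / n)) := by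
      refine tau_le _ (by positivity) ?_
      rw [div_le_iff₀ hn0]
      have : (4 : ℝ) ≤ n := by exact_mod_cast hn
      linarith
    rw [hconst]
    gcongr
    exact dbl_le _ hKρ
  -- step 2: integration in `θ`
  have hjoint : Measurable fun q : (Fin (n + 1) → ℝ) × ℝ × ℝ =>
      ENNReal.ofReal (q.2.2 * Real.exp (-q.2.2 ^ 2 / 2)) * K (pol q.2.2 q.2.1, q.1) := by
    refine Measurable.mul (by fun_prop) (hKm.comp ?_)
    exact (IntR_pol_meas.comp (measurable_snd.snd.prodMk measurable_snd.fst)).prodMk measurable_fst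
  have step2 : ∀ W : Fin (n + 1) → ℝ,
      ∫⁻ θ, dbl (fun ρ => nsq (fderiv ℝ (Vf ε S G) (T n (pol ρ θ, W)) (bR n θ))) ∂ang ≤
        ENNReal.ofReal (1 + ε) * (∫⁻ z, K (z, W) ∂ga2 +
          ENNReal.ofReal (n / (n + 2) * (2 + 23 / 5 * (2 / n)))) +
        ENNReal.ofReal (128 * ε) *
          ∫⁻ θ, dbl (fun ρ => ENNReal.ofReal (qq (T n (pol ρ θ, W)) ^ 2)) ∂ang := by
    intro W
    have hm : Measurable fun θ : ℝ => ∫⁻ ρ in Ioi (0 : ℝ),
        ENNReal.ofReal (ρ * Real.exp (-ρ ^ 2 / 2)) * K (pol ρ θ, W) := by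
      have := hjoint.comp (measurable_const (a := W) |>.prodMk (measurable_id (α := ℝ × ℝ)))
      exact Measurable.lintegral_prod_right' this
    refine (lintegral_mono fun θ => step1 W θ).trans (le_of_eq ?_)
    have hK2 : Measurable fun z : ℝ × ℝ => K (z, W) :=
      hKm.comp (measurable_id.prodMk measurable_const)
    rw [IntR_lin ang _ hm _ hb hd IntR_ang, pol_int _ hK2]
  -- step 3: integration in `W`
  refine (lintegral_mono step2).trans (le_of_eq ?_)
  have hm : Measurable fun W : Fin (n + 1) → ℝ => ∫⁻ z, K (z, W) ∂ga2 :=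
    Measurable.lintegral_prod_left' hKm
  rw [IntR_lin (gad (n + 1)) _ hm _ hb hd measure_univ,
    ← lintegral_prod_symm _ hKm.aemeasurable, hK]

end MB
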