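import Pool.Agent.H16.MB.Defs

/-!
Row Efs (MP_c844e7, about 120 lines).  Variance inequalities (Efron–Stein with two blocks).

PROOF.  `var_min`: for `f ∈ L²` with mean `c`: `‖f x - b‖² = ‖f x - c‖² + 2⟪f x - c, c - b⟫ + ‖c - b‖²`, and the integral of
the middle term is `0`.  In extended numbers: `nsq` of an `L²` function has a finite lintegral equal to `ofReal` of the
Bochner integral of `‖·‖²` (`ofReal_integral_eq_lintegral_ofReal`).

`efs`: put `c = E f`, `m b = ∫ f (a,b) dμ a`.  By the computation above (with `b := c`), for almost every `b` (those with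
`f (·,b) ∈ L²(μ)`, Fubini for `MemLp`): `∫⁻_a nsq (f (a,b) - c) = ∫⁻_a nsq (f (a,b) - m b) + nsq (m b - c)`.  And
`m b - c = ∫_a (f (a,b) - k a) dμ a` with `k a = ∫ f (a,b') dν b'` (as `∫ k dμ = c`, `integral_prod`), so
`nsq (m b - c) ≤ ∫⁻_a nsq (f (a,b) - k a) dμ a` (Jensen: `‖∫ h‖² ≤ ∫ ‖h‖²` for a probability measure; if the lintegral is `⊤`
nothing to show).  Integrate over `b` and exchange the order (`lintegral_prod`, `lintegral_prod_symm`,
`lintegral_lintegral_swap`; `k` is a.e. strongly measurable: `AEStronglyMeasurable.integral_prod_right'`).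
-/

set_option autoImplicit false

open MeasureTheory Set

namespace MB

variable {α β : Type*} [MeasurableSpace α] [MeasurableSpace β] {m : ℕ}

theorem Efs_meas {m : ℕ} {γ : Type*} [MeasurableSpace γ] {κ : Measure γ} {h : γ → E m}
    (hh : AEStronglyMeasurable h κ) : AEMeasurable (fun x => nsq (h x)) κ := by
  unfold nsq
  exact (hh.norm.aemeasurable.pow_const 2).ennreal_ofReal

theorem Efs_lint {m : ℕ} (μ : Measure α) [IsProbabilityMeasure μ] (f : α → E m)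
    (hf : MemLp f 2 μ) (b : E m) :
    ∫⁻ x, nsq (f x - b) ∂μ = ENNReal.ofReal (∫ x, ‖f x - b‖ ^ 2 ∂μ) := by
  unfold nsq
  have h : MemLp (fun x => f x - b) 2 μ := hf.sub (memLp_const b)
  rw [ofReal_integral_eq_lintegral_ofReal]
  · exact MemLp.integrable_norm_pow (p := 2) (by exact_mod_cast h) (by norm_num)
  · exact Filter.Eventually.of_forall fun x => by positivity

theorem Efs_steiner {m : ℕ} (μ : Measure α) [IsProbabilityMeasure μ] (f : α → E m)
    (hf : MemLp f 2 μ) (b : E m) :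
    ∫⁻ x, nsq (f x - b) ∂μ =
      ∫⁻ x, nsq (f x - ∫ y, f y ∂μ) ∂μ + nsq ((∫ y, f y ∂μ) - b) := by
  obtain ⟨c, hc⟩ : ∃ c : E m, c = ∫ y, f y ∂μ := ⟨_, rfl⟩
  rw [← hc, Efs_lint μ f hf b, Efs_lint μ f hf c]
  have hi : Integrable f μ := hf.integrable (by norm_num)
  have h1 : ∀ b : E m, Integrable (fun x => ‖f x - b‖ ^ 2) μ := fun b =>
    MemLp.integrable_norm_pow (p := 2)
      (by exact_mod_cast (hf.sub (memLp_const b) : MemLp (fun x => f x - b) 2 μ)) (by norm_num)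
  have h2 : ∫ x, inner ℝ (c - b) (f x - c) ∂μ = 0 := by
    have hs : Integrable (fun x => f x - c) μ := hi.sub (integrable_const c)
    rw [integral_inner hs]
    rw [integral_sub hi (integrable_const c), ← hc]
    simp
  have h3 : ∫ x, ‖f x - b‖ ^ 2 ∂μ = ∫ x, ‖f x - c‖ ^ 2 ∂μ + ‖c - b‖ ^ 2 := by
    have e : ∀ x, ‖f x - b‖ ^ 2 =
        ‖f x - c‖ ^ 2 + (2 * inner ℝ (c - b) (f x - c) + ‖c - b‖ ^ 2) := by
      intro x
      have e1 : f x - b = (f x - c) + (c - b) := by abel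
      rw [e1, norm_add_sq_real, real_inner_comm]
      ring
    have h4 : Integrable (fun x => 2 * inner ℝ (c - b) (f x - c)) μ :=
      ((hi.sub (integrable_const c)).const_inner (c - b)).const_mul 2
    have h5 : Integrable (fun x => 2 * inner ℝ (c - b) (f x - c) + ‖c - b‖ ^ 2) μ :=
      h4.add (integrable_const _)
    rw [integral_congr_ae (Filter.Eventually.of_forall e), integral_add (h1 c) h5,
      integral_add h4 (integrable_const _), integral_const_mul, h2]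
    simp
  rw [h3, ENNReal.ofReal_add (integral_nonneg fun x => by positivity) (by positivity)]
  rfl

theorem Efs_jensen {m : ℕ} (μ : Measure α) [IsProbabilityMeasure μ] (h : α → E m)
    (hh : AEStronglyMeasurable h μ) : nsq (∫ x, h x ∂μ) ≤ ∫⁻ x, nsq (h x) ∂μ := by
  have e : ∀ x : E m, nsq x = ‖x‖ₑ ^ 2 := by
    intro x
    unfold nsq
    rw [ENNReal.ofReal_pow (norm_nonneg _), ofReal_norm]
  have h1 : ‖∫ x, h x ∂μ‖ₑ ≤ eLpNorm h 2 μ := by
    refine (enorm_integral_le_lintegral_enorm h).trans ?_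
    rw [← eLpNorm_one_eq_lintegral_enorm]
    exact eLpNorm_le_eLpNorm_of_exponent_le (by norm_num) hh
  have h2 : eLpNorm h 2 μ ^ 2 = ∫⁻ x, ‖h x‖ₑ ^ 2 ∂μ := by
    rw [eLpNorm_eq_lintegral_rpow_enorm_toReal (by norm_num) (by norm_num)]
    rw [← ENNReal.rpow_natCast, ← ENNReal.rpow_mul]
    norm_num
  rw [e]
  calc ‖∫ x, h x ∂μ‖ₑ ^ 2 ≤ eLpNorm h 2 μ ^ 2 := by gcongr
    _ = ∫⁻ x, ‖h x‖ₑ ^ 2 ∂μ := h2
    _ = ∫⁻ x, nsq (h x) ∂μ := by simp only [e]

theorem var_min (μ : Measure α) [IsProbabilityMeasure μ] (f : α → E m) (hf : MemLp f 2 μ)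
    (b : E m) : ∫⁻ x, nsq (f x - ∫ y, f y ∂μ) ∂μ ≤ ∫⁻ x, nsq (f x - b) ∂μ := by
  rw [Efs_steiner μ f hf b]
  exact le_self_add

theorem efs (μ : Measure α) (ν : Measure β) [IsProbabilityMeasure μ] [IsProbabilityMeasure ν]
    (f : α × β → E m) (hf : MemLp f 2 (μ.prod ν)) :
    ∫⁻ p, nsq (f p - ∫ q, f q ∂(μ.prod ν)) ∂(μ.prod ν) ≤
      ∫⁻ b, ∫⁻ a, nsq (f (a, b) - ∫ a', f (a', b) ∂μ) ∂μ ∂ν +
        ∫⁻ a, ∫⁻ b, nsq (f (a, b) - ∫ b', f (a, b') ∂ν) ∂ν ∂μ := by
  obtain ⟨c, hc⟩ : ∃ c : E m, c = ∫ q, f q ∂(μ.prod ν) := ⟨_, rfl⟩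
  rw [← hc]
  have hi : Integrable f (μ.prod ν) := hf.integrable (by norm_num)
  have hsq : Integrable (fun p => ‖f p‖ ^ 2) (μ.prod ν) :=
    MemLp.integrable_norm_pow (p := 2) (by exact_mod_cast hf) (by norm_num)
  have hmem : ∀ᵐ b ∂ν, MemLp (fun a => f (a, b)) 2 μ := by
    filter_upwards [hsq.prod_left_ae, hi.prod_left_ae] with b hb1 hb2
    exact (memLp_two_iff_integrable_sq_norm hb2.aestronglyMeasurable).2 hb1
  have hk : AEStronglyMeasurable (fun a => ∫ b', f (a, b') ∂ν) μ :=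
    hi.aestronglyMeasurable.integral_prod_right'
  have hki : Integrable (fun a => ∫ b', f (a, b') ∂ν) μ := hi.integral_prod_left
  have hg : AEMeasurable (fun p : α × β => nsq (f p - ∫ b', f (p.1, b') ∂ν)) (μ.prod ν) :=
    Efs_meas (hi.aestronglyMeasurable.sub hk.comp_fst)
  have key : ∀ᵐ b ∂ν, ∫⁻ a, nsq (f (a, b) - c) ∂μ ≤
      ∫⁻ a, nsq (f (a, b) - ∫ a', f (a', b) ∂μ) ∂μ +
        ∫⁻ a, nsq (f (a, b) - ∫ b', f (a, b') ∂ν) ∂μ := by
    filter_upwards [hmem] with b hb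
    have hbi : Integrable (fun a => f (a, b)) μ := hb.integrable (by norm_num)
    rw [Efs_steiner μ (fun a => f (a, b)) hb c]
    refine add_le_add le_rfl ?_
    have e : (∫ a', f (a', b) ∂μ) - c = ∫ a, (f (a, b) - ∫ b', f (a, b') ∂ν) ∂μ := by
      rw [integral_sub hbi hki, hc, integral_prod f hi]
    rw [e]
    exact Efs_jensen μ _ (hbi.sub hki).aestronglyMeasurable
  have hsw : ∫⁻ a, ∫⁻ b, nsq (f (a, b) - ∫ b', f (a, b') ∂ν) ∂ν ∂μ =
      ∫⁻ b, ∫⁻ a, nsq (f (a, b) - ∫ b', f (a, b') ∂ν) ∂μ ∂ν :=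
    lintegral_lintegral_swap (f := fun a b => nsq (f (a, b) - ∫ b', f (a, b') ∂ν)) hg
  have hg2 : AEMeasurable (fun p : α × β => nsq (f p - c)) (μ.prod ν) :=
    Efs_meas (hi.aestronglyMeasurable.sub aestronglyMeasurable_const)
  rw [hsw, lintegral_prod_symm _ hg2, ← lintegral_add_right' _ hg.lintegral_prod_left']
  exact lintegral_mono_ae key

end MB
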