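import Pool.Agent.H16.MB.Defs

/-!
Row Mom (MP_c844e7, about 100 lines).  Moments of the Gaussian measures.

PROOF.  `∫⁻ x, ofReal (x^2) ∂ga = 1` (the variance of `gaussianReal 0 1`: `ProbabilityTheory.variance_id_gaussianReal`,
`integral_id_gaussianReal`, or `memLp_id_gaussianReal`).  For a coordinate `i`, `∫⁻ ofReal (x i ^ 2) ∂(gad d) = 1` (the evaluation
`Function.eval i` is measure preserving, `measurePreserving_eval`).  `mom_gad`: `‖x‖ ≤ √(∑ x i ^2)` (sup norm), so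
`‖f x‖^2 ≤ 2 C^2 (1 + ∑ x i ^2)` has finite lintegral (and `f` is a.e. strongly measurable by continuity).  The same for the
products (`measurePreserving_fst`, `measurePreserving_snd`; `‖p‖ ≤ ‖p.1‖ + ‖p.2‖`).  `mom_norm`:
`‖T n p‖^2 = p.1.1^2 + p.1.2^2 + ∑ j, p.2 j ^2` (`EuclideanSpace.norm_sq_eq`, `Fin.sum_univ_succ` twice, `Fin.cons_zero`, `Fin.cons_succ`), sum of
`n + 3` lintegrals equal to `1`.
-/

set_option autoImplicit false

open MeasureTheory Set

namespace MB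

open ProbabilityTheory in
theorem Mom_real : ∫⁻ x, ENNReal.ofReal (x ^ 2) ∂ga = 1 := by
  have hv : Var[fun x : ℝ => x; ga] = 1 := by
    simp
  rw [ProbabilityTheory.variance_eq_integral measurable_id'.aemeasurable] at hv
  have h0 : ∫ x, x ∂ga = 0 := ProbabilityTheory.integral_id_gaussianReal
  rw [h0] at hv
  simp only [sub_zero] at hv
  have hI : Integrable (fun x : ℝ => x ^ 2) ga := by
    have h2 : MemLp (fun x : ℝ => x) 2 ga :=
      ProbabilityTheory.memLp_id_gaussianReal' 2 (by simp)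
    exact h2.integrable_sq
  rw [← ofReal_integral_eq_lintegral_ofReal hI (Filter.Eventually.of_forall fun x => sq_nonneg x),
    hv, ENNReal.ofReal_one]

theorem Mom_eval (d : ℕ) (i : Fin d) : ∫⁻ x, ENNReal.ofReal (x i ^ 2) ∂(gad d) = 1 := by
  have h := (measurePreserving_eval (fun _ : Fin d => ga) i).lintegral_comp
    (f := fun y : ℝ => ENNReal.ofReal (y ^ 2)) (by fun_prop)
  exact h.trans Mom_real

theorem Mom_idR : MemLp (fun x : ℝ => x) 2 ga :=
  ProbabilityTheory.memLp_id_gaussianReal' 2 (by simp)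

theorem Mom_idd (d : ℕ) : MemLp (fun x : Fin d → ℝ => x) 2 (gad d) := by
  refine MemLp.of_eval fun i => ?_
  exact Mom_idR.comp_measurePreserving (measurePreserving_eval (fun _ : Fin d => ga) i)

theorem Mom_of {Ω F : Type*} [MeasurableSpace Ω] [NormedAddCommGroup Ω] [BorelSpace Ω]
    [SecondCountableTopology Ω] [NormedAddCommGroup F] [SecondCountableTopology F]
    [MeasurableSpace F] [BorelSpace F]
    (μ : Measure Ω) [IsFiniteMeasure μ] (h : MemLp (fun x : Ω => ‖x‖) 2 μ) (f : Ω → F)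
    (hc : Continuous f) (C : ℝ) (hC : ∀ x, ‖f x‖ ≤ C * (1 + ‖x‖)) : MemLp f 2 μ := by
  have h1 : MemLp (fun x : Ω => 1 + ‖x‖) 2 μ := (memLp_const (1 : ℝ)).add h
  refine MemLp.of_le_mul (c := C) h1 hc.measurable.aestronglyMeasurable
    (Filter.Eventually.of_forall fun x => ?_)
  rw [Real.norm_of_nonneg (by positivity)]
  exact hC x

theorem Mom_pair {A B : Type*} [MeasurableSpace A] [NormedAddCommGroup A] [BorelSpace A]
    [SecondCountableTopology A] [MeasurableSpace B] [NormedAddCommGroup B] [BorelSpace B]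
    [SecondCountableTopology B] (μ : Measure A) (ν : Measure B) [IsProbabilityMeasure μ]
    [IsProbabilityMeasure ν] (h : MemLp (fun x : A => ‖x‖) 2 μ)
    (h' : MemLp (fun x : B => ‖x‖) 2 ν) : MemLp (fun x : A × B => ‖x‖) 2 (μ.prod ν) := by
  have h1 : MemLp (fun x : A × B => ‖x.1‖) 2 (μ.prod ν) :=
    h.comp_measurePreserving measurePreserving_fst
  have h2 : MemLp (fun x : A × B => ‖x.2‖) 2 (μ.prod ν) :=
    h'.comp_measurePreserving measurePreserving_snd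
  refine (h1.add h2).mono continuous_norm.measurable.aestronglyMeasurable
    (Filter.Eventually.of_forall fun x => ?_)
  have hx : ‖x‖ ≤ ‖x.1‖ + ‖x.2‖ := by
    rw [Prod.norm_def]
    exact max_le (by linarith [norm_nonneg x.2]) (by linarith [norm_nonneg x.1])
  simp only [Pi.add_apply, norm_norm]
  exact hx.trans (le_abs_self _)

theorem norm_T (n : ℕ) (p : (ℝ × ℝ) × (Fin (n + 1) → ℝ)) :
    ‖T n p‖ ^ 2 = p.1.1 ^ 2 + p.1.2 ^ 2 + ∑ j, p.2 j ^ 2 := by
  rw [EuclideanSpace.norm_sq_eq, Fin.sum_univ_succ, Fin.sum_univ_succ]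
  simp [T, add_assoc]

theorem mom_gad {m : ℕ} (d : ℕ) (f : (Fin d → ℝ) → E m) (hc : Continuous f) (C : ℝ)
    (hC : ∀ x, ‖f x‖ ≤ C * (1 + ‖x‖)) : MemLp f 2 (gad d) :=
  Mom_of (gad d) (Mom_idd d).norm f hc C hC

theorem mom_ga2 {m : ℕ} (f : ℝ × ℝ → E m) (hc : Continuous f) (C : ℝ)
    (hC : ∀ x, ‖f x‖ ≤ C * (1 + ‖x‖)) : MemLp f 2 ga2 :=
  Mom_of ga2 (Mom_pair ga ga Mom_idR.norm Mom_idR.norm) f hc C hC

theorem mom_gaT {m : ℕ} (n : ℕ) (f : (ℝ × ℝ) × (Fin (n + 1) → ℝ) → E m) (hc : Continuous f)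
    (C : ℝ) (hC : ∀ x, ‖f x‖ ≤ C * (1 + ‖x‖)) : MemLp f 2 (gaT n) :=
  Mom_of (gaT n) (Mom_pair ga2 (gad (n + 1)) (Mom_pair ga ga Mom_idR.norm Mom_idR.norm)
    (Mom_idd (n + 1)).norm) f hc C hC

theorem mom_norm (n : ℕ) : ∫⁻ p, nsq (T n p) ∂(gaT n) = (n : ENNReal) + 3 := by
  have hfst : MeasurePreserving (Prod.fst : (ℝ × ℝ) × (Fin (n + 1) → ℝ) → ℝ × ℝ) (gaT n) ga2 :=
    measurePreserving_fst
  have hsnd : MeasurePreserving (Prod.snd : (ℝ × ℝ) × (Fin (n + 1) → ℝ) → _) (gaT n)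
    (gad (n + 1)) := measurePreserving_snd
  have hf1 : MeasurePreserving (Prod.fst : ℝ × ℝ → ℝ) ga2 ga := measurePreserving_fst
  have hf2 : MeasurePreserving (Prod.snd : ℝ × ℝ → ℝ) ga2 ga := measurePreserving_snd
  have hm : Measurable (fun y : ℝ => ENNReal.ofReal (y ^ 2)) := by fun_prop
  have e1 : ∫⁻ p : (ℝ × ℝ) × (Fin (n + 1) → ℝ), ENNReal.ofReal (p.1.1 ^ 2) ∂(gaT n) = 1 :=
    ((hf1.comp hfst).lintegral_comp hm).trans Mom_real
  have e2 : ∫⁻ p : (ℝ × ℝ) × (Fin (n + 1) → ℝ), ENNReal.ofReal (p.1.2 ^ 2) ∂(gaT n) = 1 :=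
    ((hf2.comp hfst).lintegral_comp hm).trans Mom_real
  have e3 : ∀ j, ∫⁻ p : (ℝ × ℝ) × (Fin (n + 1) → ℝ), ENNReal.ofReal (p.2 j ^ 2) ∂(gaT n) = 1 :=
    fun j => (((measurePreserving_eval (fun _ : Fin (n + 1) => ga) j).comp hsnd).lintegral_comp
      hm).trans Mom_real
  have hT : ∀ p : (ℝ × ℝ) × (Fin (n + 1) → ℝ), nsq (T n p) =
      ENNReal.ofReal (p.1.1 ^ 2) + ENNReal.ofReal (p.1.2 ^ 2) +
        ∑ j, ENNReal.ofReal (p.2 j ^ 2) := by
    intro p
    rw [nsq, norm_T, ENNReal.ofReal_add (by positivity) (Finset.sum_nonneg fun j _ => sq_nonneg _),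
      ENNReal.ofReal_add (sq_nonneg _) (sq_nonneg _),
      ENNReal.ofReal_sum_of_nonneg fun j _ => sq_nonneg _]
  simp_rw [hT]
  rw [lintegral_add_left (by fun_prop), lintegral_add_left (by fun_prop),
    lintegral_finsetSum _ (fun j _ => by fun_prop), e1, e2]
  simp only [e3, Finset.sum_const, Finset.card_univ, Fintype.card_fin, nsmul_eq_mul, mul_one]
  push_cast
  ring

end MB
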