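import Pool.Agent.H16.MB.Ftc
import Pool.Agent.H16.MB.Efs
import Pool.Agent.H16.MB.Mom
import Pool.Agent.H16.MB.Pol

/-!
Row Rad (MP_c844e7, about 60 lines).  The variance in the plane by the radial derivative only.

PROOF.  `var_min` with `b = u 0` (`MemLp` by `mom_ga2`), `pol_int` for `F z = nsq (u z - u 0)`, and for every `θ` and `R > 0`, `ftc_sq` for
`f r = u (pol r θ)` (`pol 0 θ = 0`, continuity of `u` and `pol`; `h · θ` is measurable):
`nsq (u (pol R θ) - u 0) ≤ ofReal R * ∫⁻ ρ in Ioo 0 R, nsq (h ρ θ)`.  Multiply by `ofReal (R exp(-R²/2))`: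
`ofReal (R exp(-R²/2)) * ofReal R = ofReal (R² exp(-R²/2))`, which is `dbl`.
-/

set_option autoImplicit false

open MeasureTheory Set

namespace MB

theorem rad {m : ℕ} (u : ℝ × ℝ → E m) (h : ℝ → ℝ → E m) (hc : Continuous u) (C : ℝ)
    (hC : ∀ z, ‖u z‖ ≤ C * (1 + ‖z‖))
    (hd : ∀ θ, ∀ ρ > 0, HasDerivAt (fun r => u (pol r θ)) (h ρ θ) ρ)
    (hm : Measurable (Function.uncurry h)) :
    ∫⁻ z, nsq (u z - ∫ z', u z' ∂ga2) ∂ga2 ≤ ∫⁻ θ, dbl (fun ρ => nsq (h ρ θ)) ∂ang := by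
  refine (var_min ga2 u (mom_ga2 u hc C hC) (u 0)).trans ?_
  have hmeas : Measurable (fun z => nsq (u z - u 0)) := by
    unfold nsq
    exact (((hc.sub continuous_const).norm.pow 2).measurable).ennreal_ofReal
  rw [pol_int (fun z => nsq (u z - u 0)) hmeas]
  refine lintegral_mono fun θ => ?_
  unfold dbl
  refine setLIntegral_mono' measurableSet_Ioi fun R hR => ?_
  have hR0 : (0 : ℝ) < R := hR
  have hpc : Continuous (fun r : ℝ => pol r θ) := by
    unfold pol
    fun_prop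
  have hp0 : pol 0 θ = 0 := by simp [pol]
  have hf := ftc_sq (fun r => u (pol r θ)) (fun r => h r θ) R hR0.le
    (hc.comp hpc).continuousOn (fun x hx => hd θ x hx.1)
    (hm.comp (measurable_id.prodMk measurable_const)).aestronglyMeasurable
  simp only [hp0] at hf
  calc ENNReal.ofReal (R * Real.exp (-R ^ 2 / 2)) * nsq (u (pol R θ) - u 0)
      ≤ ENNReal.ofReal (R * Real.exp (-R ^ 2 / 2)) *
          (ENNReal.ofReal R * ∫⁻ t in Ioo 0 R, nsq (h t θ)) := by gcongr
    _ = ENNReal.ofReal (R ^ 2 * Real.exp (-R ^ 2 / 2)) * ∫⁻ ρ in Ioo 0 R, nsq (h ρ θ) := by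
        rw [← mul_assoc, ← ENNReal.ofReal_mul (by positivity)]
        congr 2
        ring

end MB
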