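import Pool.Agent.H16.MB.Gpd
import Pool.Agent.H16.MB.Rad

/-!
Row Wp (MP_c844e7, about 80 lines).  Poincaré inequality without the angular derivative.

PROOF.  `nsq (v p) = nsq (v p - ∫ v)` by `h0`.  `efs` with `μ = ga2`, `ν = gad (n+1)` (`MemLp` by `mom_gaT`).  Second term of `efs`
(`∫⁻_z ∫⁻_W nsq (v (z,W) - ∫ v (z,·))`): for `z ≠ 0` (almost every `z`: `ga2 {0} = 0`, as `ga` has no atoms) `gpd` for `W ↦ v (z, W)`
(continuous, linear growth with constant `|C| (1 + ‖z‖)`), then `lintegral_prod` for `nsq (g i p)` and `lintegral_finsetSum`.  First term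
(`∫⁻_W ∫⁻_z nsq (v (z,W) - ∫ v (·,W))`): `rad` for `z ↦ v (z, W)`, for every `W` (`h · · W` is measurable as a section of a measurable function).
-/

set_option autoImplicit false

open MeasureTheory Set

namespace MB

theorem Wp_nsq_meas {m : ℕ} {γ : Type*} [MeasurableSpace γ] {h : γ → E m}
    (hh : Measurable h) : Measurable (fun x => nsq (h x)) := by
  unfold nsq
  exact (hh.norm.pow_const 2).ennreal_ofReal

theorem Wp_ne : ∀ᵐ z ∂ga2, z ≠ (0 : ℝ × ℝ) := by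
  haveI : NullSingletonClass ga :=
    ProbabilityTheory.nullSingletonClass_gaussianReal (by norm_num)
  rw [ae_iff]
  have e : {a : ℝ × ℝ | ¬ a ≠ 0} = {(0 : ℝ)} ×ˢ (univ : Set ℝ) ∩ {a | a = 0} := by
    ext a
    simp only [ne_eq, not_not, mem_setOf_eq, mem_inter_iff, mem_prod, mem_singleton_iff, mem_univ,
      and_true]
    constructor
    · intro h
      exact ⟨by rw [h]; rfl, h⟩
    · exact fun h => h.2
  rw [e]
  refine measure_mono_null inter_subset_left ?_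
  rw [Measure.prod_prod, measure_singleton, zero_mul]

theorem Wp_b1 {m : ℕ} {α β : Type*} [SeminormedAddCommGroup α] [SeminormedAddCommGroup β]
    {v : α × β → E m} {C : ℝ} (hC : ∀ p, ‖v p‖ ≤ C * (1 + ‖p‖)) (a : α) (b : β) :
    ‖v (a, b)‖ ≤ |C| * ((1 + ‖a‖) * (1 + ‖b‖)) := by
  refine (hC (a, b)).trans ?_
  have h1 : ‖(a, b)‖ ≤ ‖a‖ + ‖b‖ := by
    rw [Prod.norm_def]
    exact max_le (by linarith [norm_nonneg b]) (by linarith [norm_nonneg a])
  have h2 : 0 ≤ ‖(a, b)‖ := norm_nonneg _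
  calc C * (1 + ‖(a, b)‖) ≤ |C| * (1 + ‖(a, b)‖) :=
        mul_le_mul_of_nonneg_right (le_abs_self C) (by linarith)
    _ ≤ |C| * ((1 + ‖a‖) * (1 + ‖b‖)) := by
        refine mul_le_mul_of_nonneg_left ?_ (abs_nonneg C)
        nlinarith [mul_nonneg (norm_nonneg a) (norm_nonneg b)]

theorem wp {m : ℕ} (n : ℕ) (v : (ℝ × ℝ) × (Fin (n + 1) → ℝ) → E m)
    (g : Fin (n + 1) → (ℝ × ℝ) × (Fin (n + 1) → ℝ) → E m)
    (h : ℝ → ℝ → (Fin (n + 1) → ℝ) → E m) (hc : Continuous v) (C : ℝ)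
    (hC : ∀ p, ‖v p‖ ≤ C * (1 + ‖p‖))
    (hg : ∀ z : ℝ × ℝ, z ≠ 0 → ∀ (W : Fin (n + 1) → ℝ) (i : Fin (n + 1)),
      HasDerivAt (fun t => v (z, Function.update W i t)) (g i (z, W)) (W i))
    (hgm : ∀ i, Measurable (g i))
    (hd : ∀ (W : Fin (n + 1) → ℝ) (θ : ℝ), ∀ ρ > 0,
      HasDerivAt (fun r => v (pol r θ, W)) (h ρ θ W) ρ)
    (hm : Measurable (fun p : ℝ × ℝ × (Fin (n + 1) → ℝ) => h p.1 p.2.1 p.2.2))
    (h0 : ∫ p, v p ∂(gaT n) = 0) :
    ∫⁻ p, nsq (v p) ∂(gaT n) ≤ ∑ i, ∫⁻ p, nsq (g i p) ∂(gaT n) +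
      ∫⁻ W, ∫⁻ θ, dbl (fun ρ => nsq (h ρ θ W)) ∂ang ∂(gad (n + 1)) := by
  have h1 : ∫⁻ p, nsq (v p) ∂(gaT n) = ∫⁻ p, nsq (v p - ∫ q, v q ∂(gaT n)) ∂(gaT n) := by
    rw [h0]
    simp only [sub_zero]
  rw [h1]
  refine (efs ga2 (gad (n + 1)) v (mom_gaT n v hc C hC)).trans ?_
  rw [add_comm]
  refine add_le_add ?_ ?_
  · have h2 : ∀ᵐ z ∂ga2, ∫⁻ W, nsq (v (z, W) - ∫ W', v (z, W') ∂(gad (n + 1))) ∂(gad (n + 1)) ≤
        ∑ i, ∫⁻ W, nsq (g i (z, W)) ∂(gad (n + 1)) := by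
      filter_upwards [Wp_ne] with z hz
      refine gpd (n + 1) (fun W => v (z, W)) (fun i W => g i (z, W))
        (hc.comp (Continuous.prodMk_right z)) (|C| * (1 + ‖z‖)) (fun W => ?_)
        (fun W i => hg z hz W i) (fun i => (hgm i).comp measurable_prodMk_left)
      refine (Wp_b1 hC z W).trans (le_of_eq ?_)
      ring
    refine (lintegral_mono_ae h2).trans (le_of_eq ?_)
    rw [lintegral_finsetSum]
    · refine Finset.sum_congr rfl fun i _ => ?_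
      rw [lintegral_prod _ (Wp_nsq_meas (hgm i)).aemeasurable]
    · intro i _
      exact (Wp_nsq_meas (hgm i)).lintegral_prod_right'
  · refine lintegral_mono fun W => ?_
    refine rad (fun z => v (z, W)) (fun ρ θ => h ρ θ W) (hc.comp (Continuous.prodMk_left W))
      (|C| * (1 + ‖W‖)) (fun z => ?_) (fun θ ρ hρ => hd W θ ρ hρ) ?_
    · refine (Wp_b1 hC z W).trans (le_of_eq ?_)
      ring
    · exact hm.comp (measurable_fst.prodMk (measurable_snd.prodMk measurable_const))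

end MB
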