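import Pool.Agent.H16.MB.IntW
import Pool.Agent.H16.MB.IntR
import Pool.Agent.H16.MB.Ctr
import Pool.Agent.H16.MB.Wp

/-!
Row Cor (MP_c844e7, about 150 lines).  The main inequality.

PROOF.  `N = n+2`, `d = n+1`.  `C = (4 κ₁ + 128 d κ₂ + 128 κ₃).toReal` with the finite integrals of `kap1`, `kap2`, `kap3` (`C` does not depend on `G`, `ε`, `c`).  `ctr` gives `a`;
`S z = mob a (sg z)` is `ConfS` (`conf_mob conf_sg a ha`).  `v p = Vf ε S G (T n p)` is continuous (`Vf_cont`, `cont_T`), `‖v p‖ ≤ ‖T n p‖ ≤ (n+3)(1+‖p‖)` (`Vf_norm`,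
`cut_mem`, `norm_T`), mean zero.  `wp` with `g i p = fderiv ℝ (Vf ε S G) (T n p) (bW n i)`, `h ρ θ W = fderiv ℝ (Vf ε S G) (T n (pol ρ θ, W)) (bR n θ)` (`dir_W`, `dir_R`, `Vf_diff`, `ax_T`,
`pol_ne`; measurability: `measurable_fderiv` and evaluation).  So `∫⁻ nsq (v p) ≤ int_W + int_R`.  The sum of the two integrals of `kp` and `Dd`:
`(2/N) kp + (2/N)(d-kp)cD + (2/N)((1-kp) + kp cD) = 2/N + (2d/N) c D`, and `∫⁻ ofReal (Dd) ≤ 1` (`edd`), so
`∫⁻ nsq (v p) ≤ ofReal ((1+ε)(2/N + dn/N + (2d/N)c + (n/N)(2+(23/5)(2/n)))) + ofReal ε * (128 d κ₂ + 128 κ₃)`.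
Left side: `nsq (T n p) ≤ nsq (v p) + 4 ε² ofReal (‖T n p‖² qq (T n p))` a.e. (`‖v‖² = cut² ‖X‖²`, `1 - cut² ≤ 2(1-cut) ≤ 4ε² qq` by `cut_one`, `wq_pos_ae`), and
`∫⁻ nsq (T n p) = n+3` (`mom_norm`).  Take `toReal`.
-/

set_option autoImplicit false

open MeasureTheory Set

namespace MB

lemma Cor_norm_T_le (n : ℕ) (p : (ℝ × ℝ) × (Fin (n + 1) → ℝ)) :
    ‖T n p‖ ≤ (n + 3) * (1 + ‖p‖) := by
  have h := norm_T n p
  have h1 : |p.1.1| ≤ ‖p‖ := by
    rw [← Real.norm_eq_abs]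
    exact (norm_fst_le p.1).trans (norm_fst_le p)
  have h2 : |p.1.2| ≤ ‖p‖ := by
    rw [← Real.norm_eq_abs]
    exact (norm_snd_le p.1).trans (norm_fst_le p)
  have h3 : ∀ j, |p.2 j| ≤ ‖p‖ := by
    intro j
    rw [← Real.norm_eq_abs]
    exact (norm_le_pi_norm p.2 j).trans (norm_snd_le p)
  have hn := norm_nonneg p
  have sq1 : ∀ x : ℝ, |x| ≤ ‖p‖ → x ^ 2 ≤ ‖p‖ ^ 2 := by
    intro x hx
    rw [← sq_abs]
    exact pow_le_pow_left₀ (abs_nonneg x) hx 2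
  have h4 : ∑ j, p.2 j ^ 2 ≤ ∑ _j : Fin (n + 1), ‖p‖ ^ 2 :=
    Finset.sum_le_sum fun j _ => sq1 _ (h3 j)
  rw [Finset.sum_const, Finset.card_univ, Fintype.card_fin, nsmul_eq_mul] at h4
  push_cast at h4
  have h5 : ‖T n p‖ ^ 2 ≤ (n + 3) * ‖p‖ ^ 2 := by
    rw [h]
    nlinarith [sq1 _ h1, sq1 _ h2]
  have hnn : (0 : ℝ) ≤ n := Nat.cast_nonneg n
  refine le_of_sq_le_sq ?_ (by positivity)
  calc ‖T n p‖ ^ 2 ≤ (n + 3) * ‖p‖ ^ 2 := h5
    _ ≤ ((n + 3) * (1 + ‖p‖)) ^ 2 := by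
        rw [mul_pow]
        have a1 : (n + 3 : ℝ) ≤ (n + 3) ^ 2 := by nlinarith
        have a2 : ‖p‖ ^ 2 ≤ (1 + ‖p‖) ^ 2 := by nlinarith
        exact mul_le_mul a1 a2 (by positivity) (by positivity)

lemma Cor_bR (n : ℕ) (θ : ℝ) :
    bR n θ = Real.cos θ • T n ((1, 0), 0) + Real.sin θ • T n ((0, 1), 0) := by
  ext i
  refine Fin.cases ?_ (fun i => Fin.cases ?_ (fun j => ?_) i) i
  · simp [bR, T, pol]
  · simp [bR, T, pol]
  · simp [bR, T, pol]

lemma Cor_meas_h {n : ℕ} (V : E (n + 3) → E (n + 3)) :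
    Measurable (fun p : ℝ × ℝ × (Fin (n + 1) → ℝ) =>
      fderiv ℝ V (T n (pol p.1 p.2.1, p.2.2)) (bR n p.2.1)) := by
  have hq : Measurable (fun p : ℝ × ℝ × (Fin (n + 1) → ℝ) => T n (pol p.1 p.2.1, p.2.2)) := by
    refine (cont_T n).measurable.comp ?_
    refine Measurable.prodMk ?_ (measurable_snd.comp measurable_snd)
    unfold pol
    exact Measurable.prodMk
      (measurable_fst.mul (Real.measurable_cos.comp (measurable_fst.comp measurable_snd)))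
      (measurable_fst.mul (Real.measurable_sin.comp (measurable_fst.comp measurable_snd)))
  have h1 := (measurable_fderiv_apply_const ℝ V (T n ((1, 0), 0))).comp hq
  have h2 := (measurable_fderiv_apply_const ℝ V (T n ((0, 1), 0))).comp hq
  have e : (fun p : ℝ × ℝ × (Fin (n + 1) → ℝ) =>
      fderiv ℝ V (T n (pol p.1 p.2.1, p.2.2)) (bR n p.2.1)) =
      fun p => Real.cos p.2.1 • fderiv ℝ V (T n (pol p.1 p.2.1, p.2.2)) (T n ((1, 0), 0)) +
        Real.sin p.2.1 • fderiv ℝ V (T n (pol p.1 p.2.1, p.2.2)) (T n ((0, 1), 0)) := by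
    funext p
    rw [Cor_bR, map_add, map_smul, map_smul]
  rw [e]
  exact ((Real.measurable_cos.comp (measurable_fst.comp measurable_snd)).smul h1).add
    ((Real.measurable_sin.comp (measurable_fst.comp measurable_snd)).smul h2)

lemma Cor_meas_kp (n : ℕ) : Measurable (fun p => kp (T n p)) := by
  have h : Measurable (kp (n := n)) := by
    unfold kp
    have c0 : Measurable (fun X : E (n + 3) => X 0) := by fun_prop
    have c1 : Measurable (fun X : E (n + 3) => X 1) := by fun_prop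
    exact (((measurable_norm.pow_const 2).sub (c0.pow_const 2)).sub (c1.pow_const 2)).div
      (measurable_norm.pow_const 2)
  exact h.comp (cont_T n).measurable

/-- The left side. -/
lemma Cor_left (n : ℕ) (hn : 1 ≤ n) {ε : ℝ} {S : E (n + 2) → E (n + 3)} {μ : E (n + 2) → ℝ}
    {G : E (n + 2) → E (n + 2)} (hS : ConfS S μ) (hv : Continuous (Vf ε S G)) :
    (n : ENNReal) + 3 ≤ ∫⁻ p, nsq (Vf ε S G (T n p)) ∂(gaT n) +
      ENNReal.ofReal (4 * ε ^ 2) * ∫⁻ p, ENNReal.ofReal (‖T n p‖ ^ 2 * qq (T n p)) ∂(gaT n) := by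
  have hm : Measurable (fun p => nsq (Vf ε S G (T n p))) := by
    unfold nsq
    exact (((hv.comp (cont_T n)).norm.measurable).pow_const 2).ennreal_ofReal
  rw [← mom_norm n, ← lintegral_const_mul' _ _ ENNReal.ofReal_ne_top, ← lintegral_add_left hm]
  refine lintegral_mono_ae ?_
  filter_upwards [wq_pos_ae n hn] with p hp
  have h1 := Vf_norm (ε := ε) (G := G) hS (T n p)
  have h2 := cut_mem ε (T n p)
  have h3 := cut_one ε (T n p) hp
  unfold nsq
  rw [← ENNReal.ofReal_mul (by positivity)]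
  refine (ENNReal.ofReal_le_ofReal ?_).trans ENNReal.ofReal_add_le
  rw [h1]
  have h4 : 0 ≤ ‖T n p‖ ^ 2 := by positivity
  have h5 : 1 - (cut ε (T n p)) ^ 2 ≤ 2 * (1 - cut ε (T n p)) := by
    nlinarith [h2.1, h2.2]
  have h6 : 1 - (cut ε (T n p)) ^ 2 ≤ 4 * ε ^ 2 * qq (T n p) := by linarith
  nlinarith [mul_le_mul_of_nonneg_right h6 h4]

/-- The two integrals with `kp` and `Dd`. -/
lemma Cor_mid {n : ℕ} {c ε : ℝ} (hc : 0 ≤ c) {S : E (n + 2) → E (n + 3)} {μ : E (n + 2) → ℝ}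
    {G : E (n + 2) → E (n + 2)} (hS : ConfS S μ) (hG : Dat c (2 / ε) G) :
    ∫⁻ p, ENNReal.ofReal (2 / (n + 2) * kp (T n p) +
        2 / (n + 2) * ((n + 1) - kp (T n p)) * (c * Dd (2 / ε) S G (T n p))) ∂(gaT n) +
      ∫⁻ p, ENNReal.ofReal (2 / (n + 2) *
        ((1 - kp (T n p)) + kp (T n p) * (c * Dd (2 / ε) S G (T n p)))) ∂(gaT n) ≤
      ENNReal.ofReal (2 / (n + 2) + 2 * (n + 1) / (n + 2) * c) := by
  have hD : Measurable (fun p => Dd (2 / ε) S G (T n p)) := Dd_meas.comp (cont_T n).measurable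
  have hk := Cor_meas_kp n
  have hnn : (0 : ℝ) ≤ n := Nat.cast_nonneg n
  have m1 : Measurable (fun p => ENNReal.ofReal (2 / (n + 2) * kp (T n p) +
        2 / (n + 2) * ((n + 1) - kp (T n p)) * (c * Dd (2 / ε) S G (T n p)))) :=
    ((hk.const_mul _).add (((measurable_const.sub hk).const_mul _).mul
      (hD.const_mul _))).ennreal_ofReal
  rw [← lintegral_add_left m1]
  calc _ ≤ ∫⁻ p, (ENNReal.ofReal (2 / (n + 2)) + ENNReal.ofReal (2 * (n + 1) / (n + 2) * c) *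
        ENNReal.ofReal (Dd (2 / ε) S G (T n p))) ∂(gaT n) := by
        refine lintegral_mono fun p => ?_
        have d0 := Dd_nonneg (R := 2 / ε) (S := S) (G := G) (T n p)
        have k0 := kp_mem (T n p)
        have c0 : 0 ≤ c * Dd (2 / ε) S G (T n p) := mul_nonneg hc d0
        have n1 : 0 ≤ (n + 1 : ℝ) - kp (T n p) := by linarith [k0.2]
        simp only []
        rw [← ENNReal.ofReal_add, ← ENNReal.ofReal_mul (by positivity), ← ENNReal.ofReal_add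
          (by positivity) (by positivity)]
        · refine ENNReal.ofReal_le_ofReal (le_of_eq ?_)
          field_simp
          ring
        · have := mul_nonneg (by positivity : (0 : ℝ) ≤ 2 / (n + 2)) k0.1
          have := mul_nonneg (mul_nonneg (by positivity : (0 : ℝ) ≤ 2 / (n + 2)) n1) c0
          linarith
        · have h1 : 0 ≤ 1 - kp (T n p) := by linarith [k0.2]
          have h2 := mul_nonneg k0.1 c0
          have h3 : (0 : ℝ) ≤ 2 / (n + 2) := by positivity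
          exact mul_nonneg h3 (by linarith)
    _ = ENNReal.ofReal (2 / (n + 2)) + ENNReal.ofReal (2 * (n + 1) / (n + 2) * c) *
          ∫⁻ p, ENNReal.ofReal (Dd (2 / ε) S G (T n p)) ∂(gaT n) := by
        rw [lintegral_add_left measurable_const, lintegral_const,
          lintegral_const_mul' _ _ ENNReal.ofReal_ne_top, measure_univ, mul_one]
    _ ≤ ENNReal.ofReal (2 / (n + 2)) + ENNReal.ofReal (2 * (n + 1) / (n + 2) * c) * 1 := by
        gcongr
        exact edd hG hS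
    _ = _ := by
        rw [mul_one, ← ENNReal.ofReal_add (by positivity) (by positivity)]

theorem core (n : ℕ) (hn : 5 ≤ n) : ∃ C : ℝ, ∀ ε : ℝ, 0 < ε → ε ≤ 1 / 2 → ∀ c : ℝ, 0 ≤ c →
    ∀ G : E (n + 2) → E (n + 2), Dat c (2 / ε) G →
      (n + 3 : ℝ) ≤ (1 + ε) * (2 / (n + 2) + (n + 1) * n / (n + 2) + 2 * (n + 1) / (n + 2) * c +
        n / (n + 2) * (2 + 23 / 5 * (2 / n))) + C * ε := by
  obtain ⟨K1, hK1⟩ : ∃ x, x = ∫⁻ p, ENNReal.ofReal (‖T n p‖ ^ 2 * qq (T n p)) ∂(gaT n) := ⟨_, rfl⟩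
  obtain ⟨K2, hK2⟩ : ∃ x, x = ∫⁻ p, ENNReal.ofReal (qq (T n p) ^ 2) ∂(gaT n) := ⟨_, rfl⟩
  obtain ⟨K3, hK3⟩ : ∃ x, x = ∫⁻ W, ∫⁻ θ,
    dbl (fun ρ => ENNReal.ofReal (qq (T n (pol ρ θ, W)) ^ 2)) ∂ang ∂(gad (n + 1)) := ⟨_, rfl⟩
  have f1 : K1 ≠ ⊤ := by rw [hK1]; exact (kap1 n hn).ne
  have f2 : K2 ≠ ⊤ := by rw [hK2]; exact (kap2 n hn).ne
  have f3 : K3 ≠ ⊤ := by rw [hK3]; exact (kap3 n hn).ne
  refine ⟨4 * K1.toReal + 128 * (n + 1) * K2.toReal + 128 * K3.toReal,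
    fun ε hε hε1 c hc G hG => ?_⟩
  obtain ⟨a, ha, h0⟩ := ctr (by omega : 1 ≤ n) hε hε1 hG
  have hS := conf_mob (conf_sg (n := n + 2)) a ha
  obtain ⟨S, hSd⟩ : ∃ S : E (n + 2) → E (n + 3), S = fun z => mob a (sg z) := ⟨_, rfl⟩
  rw [← hSd] at hS h0
  have hvc := Vf_cont hε hG hS
  have hnn : (0 : ℝ) ≤ n := Nat.cast_nonneg n
  have hL := Cor_left n (by omega) hS hvc
  have hW := int_W hε (by linarith) hc hG hS
  have hR := int_R (by omega : 4 ≤ n) hε (by linarith) hc hG hS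
  have hM := Cor_mid hc hS hG
  have hwp := wp n (fun p => Vf ε S G (T n p))
    (fun i p => fderiv ℝ (Vf ε S G) (T n p) (bW n i))
    (fun ρ θ W => fderiv ℝ (Vf ε S G) (T n (pol ρ θ, W)) (bR n θ))
    (hvc.comp (cont_T n)) (n + 3)
    (fun p => by
      rw [Vf_norm hS]
      have h2 := cut_mem ε (T n p)
      calc cut ε (T n p) * ‖T n p‖ ≤ 1 * ‖T n p‖ :=
            mul_le_mul_of_nonneg_right h2.2 (norm_nonneg _)
        _ ≤ _ := by rw [one_mul]; exact Cor_norm_T_le n p)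
    (fun z hz W i => dir_W _ z W i (Vf_diff hε hG hS _ (by rw [ax_T]; exact hz)))
    (fun i => (measurable_fderiv_apply_const ℝ (Vf ε S G) (bW n i)).comp (cont_T n).measurable)
    (fun W θ ρ hρ => dir_R _ ρ θ W (Vf_diff hε hG hS _ (by rw [ax_T]; exact pol_ne hρ)))
    (Cor_meas_h _) h0
  rw [← hK1] at hL
  rw [← hK2] at hW
  rw [← hK3] at hR
  obtain ⟨I1, hI1⟩ : ∃ x, x = ∫⁻ p, ENNReal.ofReal (2 / (n + 2) * kp (T n p) +
        2 / (n + 2) * ((n + 1) - kp (T n p)) * (c * Dd (2 / ε) S G (T n p))) ∂(gaT n) := ⟨_, rfl⟩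
  obtain ⟨I2, hI2⟩ : ∃ x, x = ∫⁻ p, ENNReal.ofReal (2 / (n + 2) *
        ((1 - kp (T n p)) + kp (T n p) * (c * Dd (2 / ε) S G (T n p)))) ∂(gaT n) := ⟨_, rfl⟩
  rw [← hI1] at hW hM
  rw [← hI2] at hR hM
  have g1 : K1 = ENNReal.ofReal K1.toReal := (ENNReal.ofReal_toReal f1).symm
  have g2 : K2 = ENNReal.ofReal K2.toReal := (ENNReal.ofReal_toReal f2).symm
  have g3 : K3 = ENNReal.ofReal K3.toReal := (ENNReal.ofReal_toReal f3).symm
  have t1 : 0 ≤ K1.toReal := ENNReal.toReal_nonneg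
  have t2 : 0 ≤ K2.toReal := ENNReal.toReal_nonneg
  have t3 : 0 ≤ K3.toReal := ENNReal.toReal_nonneg
  obtain ⟨x1, hx1⟩ : ∃ x, x = K1.toReal := ⟨_, rfl⟩
  obtain ⟨x2, hx2⟩ : ∃ x, x = K2.toReal := ⟨_, rfl⟩
  obtain ⟨x3, hx3⟩ : ∃ x, x = K3.toReal := ⟨_, rfl⟩
  rw [← hx1] at g1 t1
  rw [← hx2] at g2 t2
  rw [← hx3] at g3 t3
  rw [← hx1, ← hx2, ← hx3]
  have hn0 : (0 : ℝ) < n := by exact_mod_cast (by omega : 0 < n)
  have key : ENNReal.ofReal (n + 3 : ℝ) ≤ ENNReal.ofReal ((1 + ε) * (2 / (n + 2) +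
        (n + 1) * n / (n + 2) + 2 * (n + 1) / (n + 2) * c +
        n / (n + 2) * (2 + 23 / 5 * (2 / n))) + 128 * ε * (n + 1) * x2 + 128 * ε * x3 +
        4 * ε ^ 2 * x1) := by
    have e0 : ENNReal.ofReal (n + 3 : ℝ) = (n : ENNReal) + 3 := by
      rw [ENNReal.ofReal_add hnn (by norm_num), ENNReal.ofReal_natCast]
      norm_num
    rw [e0]
    refine hL.trans ?_
    have hA : ∫⁻ p, nsq (Vf ε S G (T n p)) ∂(gaT n) ≤
        ENNReal.ofReal (1 + ε) * (I1 + ENNReal.ofReal ((n + 1) * n / (n + 2))) +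
          ENNReal.ofReal (128 * ε * (n + 1)) * K2 +
        (ENNReal.ofReal (1 + ε) * (I2 + ENNReal.ofReal (n / (n + 2) * (2 + 23 / 5 * (2 / n)))) +
          ENNReal.ofReal (128 * ε) * K3) := hwp.trans (add_le_add hW hR)
    have hB : ENNReal.ofReal (1 + ε) * (I1 + ENNReal.ofReal ((n + 1) * n / (n + 2))) +
          ENNReal.ofReal (128 * ε * (n + 1)) * K2 +
        (ENNReal.ofReal (1 + ε) * (I2 + ENNReal.ofReal (n / (n + 2) * (2 + 23 / 5 * (2 / n)))) +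
          ENNReal.ofReal (128 * ε) * K3) =
        ENNReal.ofReal (1 + ε) * ((I1 + I2) + ENNReal.ofReal ((n + 1) * n / (n + 2)) +
          ENNReal.ofReal (n / (n + 2) * (2 + 23 / 5 * (2 / n)))) +
          ENNReal.ofReal (128 * ε * (n + 1)) * K2 + ENNReal.ofReal (128 * ε) * K3 := by
      ring
    rw [hB] at hA
    have hC : ENNReal.ofReal (1 + ε) * ((I1 + I2) + ENNReal.ofReal ((n + 1) * n / (n + 2)) +
          ENNReal.ofReal (n / (n + 2) * (2 + 23 / 5 * (2 / n)))) +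
          ENNReal.ofReal (128 * ε * (n + 1)) * K2 + ENNReal.ofReal (128 * ε) * K3 ≤
        ENNReal.ofReal (1 + ε) * (ENNReal.ofReal (2 / (n + 2) + 2 * (n + 1) / (n + 2) * c) +
          ENNReal.ofReal ((n + 1) * n / (n + 2)) +
          ENNReal.ofReal (n / (n + 2) * (2 + 23 / 5 * (2 / n)))) +
          ENNReal.ofReal (128 * ε * (n + 1)) * K2 + ENNReal.ofReal (128 * ε) * K3 := by
      gcongr
    refine (add_le_add (hA.trans hC) le_rfl).trans (le_of_eq ?_)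
    rw [g1, g2, g3, ← ENNReal.ofReal_add (by positivity) (by positivity),
      ← ENNReal.ofReal_add (by positivity) (by positivity),
      ← ENNReal.ofReal_mul (by positivity), ← ENNReal.ofReal_mul (by positivity),
      ← ENNReal.ofReal_mul (by positivity), ← ENNReal.ofReal_mul (by positivity),
      ← ENNReal.ofReal_add (by positivity) (by positivity),
      ← ENNReal.ofReal_add (by positivity) (by positivity),
      ← ENNReal.ofReal_add (by positivity) (by positivity)]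
    congr 1
    ring
  have key2 := (ENNReal.ofReal_le_ofReal_iff (by positivity)).1 key
  have e2 : 4 * ε ^ 2 * x1 ≤ 4 * ε * x1 := by
    have : ε ^ 2 ≤ ε := by nlinarith
    nlinarith [mul_le_mul_of_nonneg_right this t1]
  calc (n + 3 : ℝ) ≤ _ := key2
    _ ≤ _ := by
      have : (4 * x1 + 128 * (n + 1) * x2 + 128 * x3) * ε =
        128 * ε * (n + 1) * x2 + 128 * ε * x3 + 4 * ε * x1 := by ring
      rw [this]
      linarith

end MB
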