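import Mathlib

/-!
# MP_c844e7 (Martio), flat image of the branch set: definitions

`N = n + 2` is the dimension of the source space of `G` (and of the problem), `E (n + 3)` is the
space of the homogeneous lift.  Coordinates `0, 1` are the plane of the winding; the coordinates
`2, …, n + 1` are `w'`, the last coordinate of `E (n + 3)` is `w₀`.
-/

set_option autoImplicit false

open MeasureTheory Set

namespace MB

/-- Euclidean space. -/
abbrev E (n : ℕ) : Type := EuclideanSpace ℝ (Fin n)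

/-- The first `n` coordinates. -/
noncomputable def ini (n : ℕ) : E (n + 1) →L[ℝ] E n :=
  LinearMap.toContinuousLinearMap
    { toFun := fun X => WithLp.toLp 2 fun i => X i.castSucc
      map_add' := fun _ _ => rfl
      map_smul' := fun _ _ => rfl }

/-- Appending the coordinate `0`. -/
noncomputable def emb (n : ℕ) : E n →L[ℝ] E (n + 1) :=
  LinearMap.toContinuousLinearMap
    { toFun := fun z => WithLp.toLp 2 (Fin.snoc (α := fun _ => ℝ) (fun i => z i) 0)
      map_add' := fun x y => by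
        ext i
        refine Fin.lastCases ?_ (fun j => ?_) i <;> simp
      map_smul' := fun c x => by
        ext i
        refine Fin.lastCases ?_ (fun j => ?_) i <;> simp }

/-- The last basis vector. -/
noncomputable def eL (n : ℕ) : E (n + 1) := EuclideanSpace.single (Fin.last n) 1

/-- The last coordinate. -/
def lst {n : ℕ} (X : E (n + 1)) : ℝ := X (Fin.last n)

lemma ini_apply {n : ℕ} (X : E (n + 1)) (i : Fin n) : ini n X i = X i.castSucc := rfl

lemma emb_castSucc {n : ℕ} (z : E n) (i : Fin n) : emb n z i.castSucc = z i := by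
  change (Fin.snoc (α := fun _ => ℝ) (fun i => z i) 0) i.castSucc = z i
  simp

lemma emb_last {n : ℕ} (z : E n) : emb n z (Fin.last n) = 0 := by
  change (Fin.snoc (α := fun _ => ℝ) (fun i => z i) 0) (Fin.last n) = 0
  simp

lemma ini_emb {n : ℕ} (z : E n) : ini n (emb n z) = z := by
  ext i
  rw [ini_apply, emb_castSucc]

lemma ini_eL (n : ℕ) : ini n (eL n) = 0 := by
  ext i
  rw [ini_apply]
  simp [eL, (Fin.castSucc_lt_last i).ne]

lemma lst_add {n : ℕ} (X Y : E (n + 1)) : lst (X + Y) = lst X + lst Y := rfl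

lemma lst_sub {n : ℕ} (X Y : E (n + 1)) : lst (X - Y) = lst X - lst Y := rfl

lemma lst_smul {n : ℕ} (c : ℝ) (X : E (n + 1)) : lst (c • X) = c * lst X := rfl

lemma lst_emb {n : ℕ} (z : E n) : lst (emb n z) = 0 := emb_last z

lemma lst_eL (n : ℕ) : lst (eL n) = 1 := by
  simp [lst, eL]

lemma emb_ini {n : ℕ} (X : E (n + 1)) : emb n (ini n X) + lst X • eL n = X := by
  ext i
  refine Fin.lastCases ?_ (fun j => ?_) i
  · simp [emb_last, eL, lst]
  · simp [emb_castSucc, ini_apply, eL, (Fin.castSucc_lt_last j).ne]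

lemma inner_eq {n : ℕ} (X Y : E (n + 1)) :
    inner ℝ X Y = inner ℝ (ini n X) (ini n Y) + lst X * lst Y := by
  simp only [PiLp.inner_apply]
  rw [Fin.sum_univ_castSucc]
  congr 1
  simp [lst, mul_comm]

lemma norm_sq_eq {n : ℕ} (X : E (n + 1)) : ‖X‖ ^ 2 = ‖ini n X‖ ^ 2 + lst X ^ 2 := by
  rw [← real_inner_self_eq_norm_sq, inner_eq, real_inner_self_eq_norm_sq, sq (lst X)]

lemma norm_emb {n : ℕ} (z : E n) : ‖emb n z‖ = ‖z‖ := by
  have h := norm_sq_eq (emb n z)
  rw [ini_emb, lst_emb] at h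
  have h2 : ‖emb n z‖ ^ 2 = ‖z‖ ^ 2 := by linarith
  exact (sq_eq_sq₀ (norm_nonneg _) (norm_nonneg _)).1 h2

lemma norm_eL (n : ℕ) : ‖eL n‖ = 1 := by
  simp [eL]

/-- The rotation field of the plane of the coordinates `0, 1`. -/
noncomputable def th {m : ℕ} (x : E (m + 2)) : E (m + 2) :=
  WithLp.toLp 2 fun i => if i = 0 then -x 1 else if i = 1 then x 0 else 0

/-- The axis `{x 0 = x 1 = 0}`. -/
def ax {m : ℕ} (x : E (m + 2)) : Prop := x 0 = 0 ∧ x 1 = 0

/-- Stereographic projection of `X / ‖X‖`, extended to be homogeneous of degree `0`. -/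
noncomputable def P {n : ℕ} (X : E (n + 1)) : E n := (‖X‖ + lst X)⁻¹ • ini n X

/-- Inverse stereographic projection. -/
noncomputable def sg {n : ℕ} (z : E n) : E (n + 1) :=
  (1 + ‖z‖ ^ 2)⁻¹ • ((2 : ℝ) • emb n z + (1 - ‖z‖ ^ 2) • eL n)

/-- The conformal map of the unit sphere with parameter `a`. -/
noncomputable def mob {n : ℕ} (a x : E n) : E n :=
  ((1 - ‖a‖ ^ 2) / ‖x - a‖ ^ 2) • (x - a) - a

/-- `S` is an injective conformal map of `ℝⁿ` into the unit sphere of `ℝⁿ⁺¹` with conformal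
factor `μ`. -/
structure ConfS {n : ℕ} (S : E n → E (n + 1)) (μ : E n → ℝ) : Prop where
  diff : ∀ z, DifferentiableAt ℝ S z
  norm : ∀ z, ‖S z‖ = 1
  inj : Function.Injective S
  pos : ∀ z, 0 < μ z
  conf : ∀ z h, ‖fderiv ℝ S z h‖ = μ z * ‖h‖

/-- The homogeneous lift of `G`. -/
noncomputable def lift {n : ℕ} (S : E n → E (n + 1)) (G : E n → E n) (X : E (n + 1)) : E (n + 1) :=
  ‖X‖ • S (G (P X))

/-- The hypothesis (T) on the ball of radius `R`, with constant `c`, in dimension `n + 2`. -/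
structure Dat {n : ℕ} (c R : ℝ) (G : E (n + 2) → E (n + 2)) : Prop where
  meas : Measurable G
  cont : ContinuousOn G (Metric.ball 0 R)
  inj : Set.InjOn G (Metric.ball 0 R)
  diff : ∀ y ∈ Metric.ball (0 : E (n + 2)) R, ¬ ax y → DifferentiableAt ℝ G y
  bnd : ∀ y ∈ Metric.ball (0 : E (n + 2)) R, ¬ ax y → ∀ h : E (n + 2), inner ℝ h (th y) = 0 →
    ‖fderiv ℝ G y h‖ ^ (n + 2) ≤ c * |(fderiv ℝ G y).det| * ‖h‖ ^ (n + 2)

/-- The good part of the space of the lift. -/
def Om (n : ℕ) (R : ℝ) : Set (E (n + 3)) :=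
  {X | 0 < ‖X‖ + lst X ∧ P X ∈ Metric.ball (0 : E (n + 2)) R ∧ ¬ ax X}

/-- `|w'|²`. -/
noncomputable def wq {n : ℕ} (X : E (n + 3)) : ℝ := ∑ i : Fin n, X (i.succ.succ.castSucc) ^ 2

/-- The cut-off function. -/
noncomputable def cut {n : ℕ} (ε : ℝ) (X : E (n + 3)) : ℝ :=
  (max 0 (wq X - ε ^ 2 * ‖X‖ ^ 2) / wq X) ^ 2

/-- Coordinates of `ℝⁿ⁺³`. -/
noncomputable def T (n : ℕ) (p : (ℝ × ℝ) × (Fin (n + 1) → ℝ)) : E (n + 3) :=
  WithLp.toLp 2 (Fin.cons p.1.1 (Fin.cons p.1.2 p.2))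

/-- The standard Gaussian measure of the line. -/
noncomputable abbrev ga : Measure ℝ := ProbabilityTheory.gaussianReal 0 1

/-- The standard Gaussian measure of the plane. -/
noncomputable abbrev ga2 : Measure (ℝ × ℝ) := ga.prod ga

/-- The standard Gaussian measure of `ℝᵈ`. -/
noncomputable abbrev gad (d : ℕ) : Measure (Fin d → ℝ) := Measure.pi fun _ => ga

/-- The standard Gaussian measure in the coordinates of `T`. -/
noncomputable abbrev gaT (n : ℕ) : Measure ((ℝ × ℝ) × (Fin (n + 1) → ℝ)) := ga2.prod (gad (n + 1))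

/-- squared norm as an extended nonnegative number -/
noncomputable def nsq {F : Type*} [NormedAddCommGroup F] (x : F) : ENNReal :=
  ENNReal.ofReal (‖x‖ ^ 2)

/-- The point of the plane with polar coordinates `ρ, θ`. -/
noncomputable def pol (ρ θ : ℝ) : ℝ × ℝ := (ρ * Real.cos θ, ρ * Real.sin θ)

/-- The measure of the angle. -/
noncomputable def ang : Measure ℝ :=
  ENNReal.ofReal (2 * Real.pi)⁻¹ • volume.restrict (Ioo (-Real.pi) Real.pi)

/-- `∫_0^∞ R² exp(-R²/2) ∫_0^R H`. -/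
noncomputable def dbl (H : ℝ → ENNReal) : ENNReal :=
  ∫⁻ R in Ioi (0 : ℝ), ENNReal.ofReal (R ^ 2 * Real.exp (-R ^ 2 / 2)) * ∫⁻ ρ in Ioo 0 R, H ρ

/-- The cut-off lift. -/
noncomputable def Vf {n : ℕ} (ε : ℝ) (S : E (n + 2) → E (n + 3)) (G : E (n + 2) → E (n + 2))
    (X : E (n + 3)) : E (n + 3) := cut ε X • lift S G X

/-- The Jacobian of the lift on the good part. -/
noncomputable def Dd {n : ℕ} (R : ℝ) (S : E (n + 2) → E (n + 3)) (G : E (n + 2) → E (n + 2))
    (X : E (n + 3)) : ℝ := (Om n R).indicator (fun X => |(fderiv ℝ (lift S G) X).det|) X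

/-- `|W|² / |X|²`. -/
noncomputable def kp {n : ℕ} (X : E (n + 3)) : ℝ := (‖X‖ ^ 2 - X 0 ^ 2 - X 1 ^ 2) / ‖X‖ ^ 2

/-- `|X|² / |w'|²`. -/
noncomputable def qq {n : ℕ} (X : E (n + 3)) : ℝ := ‖X‖ ^ 2 / wq X

/-- The basis vectors of `W`. -/
noncomputable def bW (n : ℕ) (i : Fin (n + 1)) : E (n + 3) := EuclideanSpace.single i.succ.succ 1

/-- The radial unit vectors of the plane. -/
noncomputable def bR (n : ℕ) (θ : ℝ) : E (n + 3) := T n (pol 1 θ, 0)

/-- The `k`-winding map about the axis `{x 0 = x 1 = 0}`: `r e^{iθ} ↦ r e^{ikθ}` in the plane of the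
coordinates `0, 1`, identity in the other coordinates. -/
noncomputable def winding {n : ℕ} (k : ℕ) (x : E (n + 2)) : E (n + 2) :=
  WithLp.toLp 2 fun i =>
    if i = 0 then ((⟨x 0, x 1⟩ : ℂ) ^ k / (‖(⟨x 0, x 1⟩ : ℂ)‖ : ℂ) ^ (k - 1)).re
    else if i = 1 then ((⟨x 0, x 1⟩ : ℂ) ^ k / (‖(⟨x 0, x 1⟩ : ℂ)‖ : ℂ) ^ (k - 1)).im
    else x i

end MB
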