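import Pool.Agent.H16.MB.Defs

/-!
Row Yng (MP_c844e7, about 40 lines).  Young's inequality.

PROOF.  `yng2`: weighted inequality of arithmetic and geometric mean (`Real.geom_mean_le_arith_mean2_weighted`) with the weights `2/(n+2)`, `n/(n+2)` for
`x = b⁻¹ Λ^(n+2)` and `y = b^(2/n)`: `x^(2/(n+2)) y^(n/(n+2)) = Λ² b^(-2/(n+2)) b^(2/(n+2)) = Λ²`.  `yng1`: the same with `b = 1` (for `n = 0` it is an equality).
-/

set_option autoImplicit false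

namespace MB

lemma Yng_pow (n : ℕ) {Λ : ℝ} (h : 0 ≤ Λ) : (Λ ^ (n + 2)) ^ ((2 : ℝ) / (n + 2)) = Λ ^ 2 := by
  have h0 : (n : ℝ) + 2 ≠ 0 := by positivity
  rw [← Real.rpow_natCast Λ (n + 2), ← Real.rpow_mul h]
  have h1 : ((n + 2 : ℕ) : ℝ) * (2 / (n + 2)) = (2 : ℕ) := by
    push_cast
    field_simp
  rw [h1, Real.rpow_natCast]

theorem yng1 (n : ℕ) (Λ : ℝ) (h : 0 ≤ Λ) :
    Λ ^ 2 ≤ 2 / (n + 2) * Λ ^ (n + 2) + n / (n + 2) := by
  have h0 : (n : ℝ) + 2 ≠ 0 := by positivity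
  have h1 := Real.geom_mean_le_arith_mean2_weighted (w₁ := 2 / ((n : ℝ) + 2))
    (w₂ := n / ((n : ℝ) + 2)) (p₁ := Λ ^ (n + 2)) (p₂ := 1) (by positivity) (by positivity)
    (by positivity) zero_le_one (by field_simp; ring)
  rwa [Yng_pow n h, Real.one_rpow, mul_one, mul_one] at h1

theorem yng2 (n : ℕ) (hn : 1 ≤ n) (Λ b : ℝ) (h : 0 ≤ Λ) (hb : 0 < b) :
    Λ ^ 2 ≤ 2 / (n + 2) * b⁻¹ * Λ ^ (n + 2) + n / (n + 2) * b ^ ((2 : ℝ) / n) := by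
  have h0 : (n : ℝ) + 2 ≠ 0 := by positivity
  have hn0 : (n : ℝ) ≠ 0 := by
    have : (1 : ℝ) ≤ n := by exact_mod_cast hn
    positivity
  have h1 := Real.geom_mean_le_arith_mean2_weighted (w₁ := 2 / ((n : ℝ) + 2))
    (w₂ := n / ((n : ℝ) + 2)) (p₁ := b⁻¹ * Λ ^ (n + 2)) (p₂ := b ^ ((2 : ℝ) / n))
    (by positivity) (by positivity) (by positivity) (by positivity) (by field_simp; ring)
  rw [Real.mul_rpow (by positivity) (by positivity), Yng_pow n h, ← Real.rpow_mul hb.le] at h1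
  have h2 : (2 : ℝ) / n * (n / (n + 2)) = 2 / (n + 2) := by
    field_simp
  rw [h2, Real.inv_rpow hb.le] at h1
  have h3 : (b ^ ((2 : ℝ) / (n + 2)))⁻¹ * Λ ^ 2 * b ^ ((2 : ℝ) / (n + 2)) = Λ ^ 2 := by
    have : b ^ ((2 : ℝ) / (n + 2)) ≠ 0 := (Real.rpow_pos_of_pos hb _).ne'
    field_simp
  rw [h3] at h1
  linarith

end MB
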