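import Pool.Agent.H16.MB.Pt
import Pool.Agent.H16.MB.CutV
import Pool.Agent.H16.MB.Dir
import Pool.Agent.H16.MB.Yng

/-!
Row Est (MP_c844e7, about 130 lines).  The two pointwise estimates of the derivatives of the cut-off lift.

PROOF.  `X = T n p` is not on the axis (`ax_T`, `pol_ne`).  If `X ∉ Om n (2/ε)` the derivative is `0` (`Vf_out`), and the right sides are nonnegative (`kp_mem`,
`Dd ≥ 0`).  If `X ∈ Om n (2/ε)`: `Dd (2/ε) S G X = |det D lift|`; `pt` gives `Λ ≥ 0` with `Λ^(n+2) = c Dd`.  `Vf_grad` and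
`(x+y)² ≤ (1+ε)x² + (1+1/ε)y²`, `(1+1/ε)(8ε qq)² = 64(ε²+ε) qq² ≤ 128 ε qq²`, for unit vectors.
`est_W`: `e = bW n i`, `α = (W i/‖X‖)²`: `‖D lift e‖² ≤ α + (1-α)Λ²`, `Λ² ≤ (2/N) cD + n/N` (`yng1`, `N = n+2`), so it is at most
`(2/N)α + n/N + (2/N)(1-α) cD` (`1 - n/N = 2/N`); sum over `i`, `∑ α = kp X` (`kp_W`).
`est_R`: `e = bR n θ`, `α = (ρ/‖X‖)² = 1 - kp X`; with `b = (ρ+m)/ρ`, `m = 627/500`: `yng2` for `Λ` and for `1`:
`α·1 + (1-α)Λ² ≤ (2/N) b⁻¹ (α + (1-α) cD) + (n/N) b^(2/n)`.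
-/

set_option autoImplicit false

open MeasureTheory Set

namespace MB

variable {n : ℕ} {c ε : ℝ} {G : E (n + 2) → E (n + 2)} {S : E (n + 2) → E (n + 3)}
  {μ : E (n + 2) → ℝ}

lemma Est_sq {x y z ε : ℝ} (hε : 0 < ε) (hε1 : ε ≤ 1) (hz : 0 ≤ z) (hzy : z ≤ x + 8 * ε * y) :
    z ^ 2 ≤ (1 + ε) * x ^ 2 + 128 * ε * y ^ 2 := by
  have h1 : z ^ 2 ≤ (x + 8 * ε * y) ^ 2 := pow_le_pow_left₀ hz hzy 2
  have h2 : 0 ≤ ε * (x - 8 * y) ^ 2 := mul_nonneg hε.le (sq_nonneg _)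
  have h3 : 0 ≤ 64 * ε * (1 - ε) * y ^ 2 :=
    mul_nonneg (mul_nonneg (by linarith) (by linarith)) (sq_nonneg _)
  nlinarith

lemma Est_al {n : ℕ} (X e : E (n + 3)) (he : ‖e‖ = 1) : (inner ℝ X e / ‖X‖) ^ 2 ≤ 1 := by
  have h := abs_real_inner_div_norm_mul_norm_le_one X e
  rw [he, mul_one] at h
  rw [← sq_abs]
  exact pow_le_one₀ (abs_nonneg _) h

lemma Est_key (hε : 0 < ε) (hε1 : ε ≤ 1) (hc : 0 ≤ c) (hG : Dat c (2 / ε) G) (hS : ConfS S μ)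
    (X : E (n + 3)) (hX : ¬ ax X) :
    ∃ Λ : ℝ, 0 ≤ Λ ∧ Λ ^ (n + 2) = c * Dd (2 / ε) S G X ∧
      ∀ e : E (n + 3), ‖e‖ = 1 → inner ℝ e (th X) = 0 →
        ‖fderiv ℝ (Vf ε S G) X e‖ ^ 2 ≤
          (1 + ε) * ((inner ℝ X e / ‖X‖) ^ 2 + (1 - (inner ℝ X e / ‖X‖) ^ 2) * Λ ^ 2) +
            128 * ε * qq X ^ 2 := by
  by_cases hO : X ∈ Om n (2 / ε)
  · obtain ⟨Λ, h0, h1, h2⟩ := pt hG hc hS X hO
    refine ⟨Λ, h0, ?_, ?_⟩
    · rw [h1, Dd, Set.indicator_of_mem hO]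
    · intro e he hth
      have h3 := Vf_grad hε hε1 hG hS X e hX
      rw [he, mul_one] at h3
      have h4 := Est_sq hε hε1 (norm_nonneg _) h3
      refine h4.trans ?_
      have h5 := mul_le_mul_of_nonneg_left (h2 e he hth) (by linarith : (0 : ℝ) ≤ 1 + ε)
      linarith
  · refine ⟨0, le_refl _, ?_, ?_⟩
    · rw [Dd, Set.indicator_of_notMem hO, mul_zero]
      exact zero_pow (by omega)
    · intro e he hth
      rw [Vf_out hε hG hS X hX hO]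
      simp only [ContinuousLinearMap.zero_apply, norm_zero]
      have h1 : 0 ≤ (inner ℝ X e / ‖X‖) ^ 2 := sq_nonneg _
      have h2 : 0 ≤ qq X ^ 2 := sq_nonneg _
      have h3 : 0 ≤ (1 + ε) * (inner ℝ X e / ‖X‖) ^ 2 := mul_nonneg (by linarith) h1
      have h4 : 0 ≤ 128 * ε * qq X ^ 2 := mul_nonneg (by linarith) h2
      nlinarith

theorem est_W (hε : 0 < ε) (hε1 : ε ≤ 1) (hc : 0 ≤ c) (hG : Dat c (2 / ε) G) (hS : ConfS S μ)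
    (p : (ℝ × ℝ) × (Fin (n + 1) → ℝ)) (hp : p.1 ≠ 0) :
    ∑ i, ‖fderiv ℝ (Vf ε S G) (T n p) (bW n i)‖ ^ 2 ≤
      (1 + ε) * (2 / (n + 2) * kp (T n p) + (n + 1) * n / (n + 2) +
        2 / (n + 2) * ((n + 1) - kp (T n p)) * (c * Dd (2 / ε) S G (T n p))) +
      128 * ε * (n + 1) * qq (T n p) ^ 2 := by
  have hax : ¬ ax (T n p) := by rwa [ax_T]
  obtain ⟨Λ, hΛ, hΛ2, h⟩ := Est_key hε hε1 hc hG hS (T n p) hax
  have hy := yng1 n Λ hΛ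
  rw [hΛ2] at hy
  set D : ℝ := c * Dd (2 / ε) S G (T n p) with hD
  set q : ℝ := qq (T n p) with hq
  have hsum : ∑ i, (inner ℝ (T n p) (bW n i) / ‖T n p‖) ^ 2 = kp (T n p) := by
    rw [kp_W, Finset.sum_div]
    refine Finset.sum_congr rfl fun i _ => ?_
    rw [bW_inner, div_pow]
  have hN : (0 : ℝ) < (n : ℝ) + 2 := by positivity
  have hab : (2 : ℝ) / (n + 2) + (n : ℝ) / (n + 2) = 1 := by
    rw [← add_div, add_comm]
    exact div_self hN.ne'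
  have hn1 : ((n : ℝ) + 1) * n / (n + 2) = (n + 1) * ((n : ℝ) / (n + 2)) := by ring
  rw [hn1]
  set a : ℝ := (2 : ℝ) / (n + 2) with ha
  set b : ℝ := (n : ℝ) / (n + 2) with hb
  have hi : ∀ i, ‖fderiv ℝ (Vf ε S G) (T n p) (bW n i)‖ ^ 2 ≤
      (1 + ε) * (a * (inner ℝ (T n p) (bW n i) / ‖T n p‖) ^ 2 + b +
        a * (1 - (inner ℝ (T n p) (bW n i) / ‖T n p‖) ^ 2) * D) + 128 * ε * q ^ 2 := by
    intro i
    have h1 := h (bW n i) (bW_norm n i) (bW_th n i _)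
    have h2 := Est_al (T n p) (bW n i) (bW_norm n i)
    refine h1.trans ?_
    set α : ℝ := (inner ℝ (T n p) (bW n i) / ‖T n p‖) ^ 2 with hα
    have h3 := mul_le_mul_of_nonneg_left hy (sub_nonneg.2 h2)
    have h4 : α + (1 - α) * Λ ^ 2 ≤ a * α + b + a * (1 - α) * D := by
      have h5 : α * (a + b) = α := by rw [hab, mul_one]
      nlinarith
    have h6 := mul_le_mul_of_nonneg_left h4 (by linarith : (0 : ℝ) ≤ 1 + ε)
    linarith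
  refine (Finset.sum_le_sum fun i _ => hi i).trans (le_of_eq ?_)
  have hs2 : ∑ i : Fin (n + 1), ((1 + ε) * (a * (inner ℝ (T n p) (bW n i) / ‖T n p‖) ^ 2 + b +
        a * (1 - (inner ℝ (T n p) (bW n i) / ‖T n p‖) ^ 2) * D) + 128 * ε * q ^ 2) =
      ∑ i : Fin (n + 1), (((1 + ε) * (b + a * D) + 128 * ε * q ^ 2) +
        ((1 + ε) * (a - a * D)) * (inner ℝ (T n p) (bW n i) / ‖T n p‖) ^ 2) :=
    Finset.sum_congr rfl fun i _ => by ring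
  rw [hs2, Finset.sum_add_distrib, ← Finset.mul_sum, hsum, Finset.sum_const, Finset.card_univ,
    Fintype.card_fin, nsmul_eq_mul]
  push_cast
  ring

theorem est_R (hn : 1 ≤ n) (hε : 0 < ε) (hε1 : ε ≤ 1) (hc : 0 ≤ c) (hG : Dat c (2 / ε) G)
    (hS : ConfS S μ) (ρ θ : ℝ) (W : Fin (n + 1) → ℝ) (hρ : 0 < ρ) :
    ‖fderiv ℝ (Vf ε S G) (T n (pol ρ θ, W)) (bR n θ)‖ ^ 2 ≤
      (1 + ε) * (2 / (n + 2) * (ρ / (ρ + 627 / 500)) *
        ((1 - kp (T n (pol ρ θ, W))) +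
          kp (T n (pol ρ θ, W)) * (c * Dd (2 / ε) S G (T n (pol ρ θ, W)))) +
        n / (n + 2) * ((ρ + 627 / 500) / ρ) ^ ((2 : ℝ) / n)) +
      128 * ε * qq (T n (pol ρ θ, W)) ^ 2 := by
  have hax : ¬ ax (T n (pol ρ θ, W)) := by
    rw [ax_T]
    exact pol_ne hρ
  obtain ⟨Λ, hΛ, hΛ2, h⟩ := Est_key hε hε1 hc hG hS (T n (pol ρ θ, W)) hax
  have h1 := h (bR n θ) (bR_norm n θ) (bR_th n ρ θ W)
  have hα1 := Est_al (T n (pol ρ θ, W)) (bR n θ) (bR_norm n θ)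
  rw [bR_inner] at h1 hα1
  have hk := kp_R n ρ θ W hρ
  rw [hk] at h1 hα1
  have hk0 : 0 ≤ 1 - kp (T n (pol ρ θ, W)) := by
    rw [← hk]
    exact sq_nonneg _
  have hk1 : 0 ≤ kp (T n (pol ρ θ, W)) := by linarith
  have hb : (0 : ℝ) < (ρ + 627 / 500) / ρ := div_pos (by linarith) hρ
  have hy := yng2 n hn Λ ((ρ + 627 / 500) / ρ) hΛ hb
  have hy1 := yng2 n hn 1 ((ρ + 627 / 500) / ρ) zero_le_one hb
  rw [hΛ2] at hy
  rw [one_pow, one_pow, mul_one] at hy1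
  rw [inv_div] at hy hy1
  refine h1.trans ?_
  set D : ℝ := c * Dd (2 / ε) S G (T n (pol ρ θ, W)) with hD
  set κ : ℝ := kp (T n (pol ρ θ, W)) with hκ
  set A : ℝ := 2 / ((n : ℝ) + 2) * (ρ / (ρ + 627 / 500)) with hA
  set B : ℝ := (n : ℝ) / (n + 2) * ((ρ + 627 / 500) / ρ) ^ ((2 : ℝ) / n) with hB
  have h2 := mul_le_mul_of_nonneg_left hy hk1
  have h3 := mul_le_mul_of_nonneg_left hy1 hk0
  have h4 : (1 - κ) + (1 - (1 - κ)) * Λ ^ 2 ≤ A * ((1 - κ) + κ * D) + B := by nlinarith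
  have h5 := mul_le_mul_of_nonneg_left h4 (by linarith : (0 : ℝ) ≤ 1 + ε)
  linarith

end MB
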