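import Pool.Agent.H16.MB.Win

/-!
Row Fdt (MP_c844e7, about 150 lines).  From the map `f = w_k ∘ F` to the data (T).

PROOF.  Let `p = F x₀`; `F '' D` is open (`hFo D`), so it contains a ball `B(p, r)`, `r > 0`.  Let `s = r/(2R)`, and `G y = invFunOn F D (p + s y)` for `y ∈ ball 0 R`, `G y = 0` otherwise.
For `y` in the ball `p + s y ∈ B(p,r)`, so `G y ∈ D` and `F (G y) = p + s y`.  `cont`: for `y` in the ball and a neighbourhood `U ⊆ D` of `G y`, open, `F '' U` is open and contains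
`p + s y`; for `y'` near `y`, `p + s y' ∈ F '' U`, so `G y' ∈ U` (injectivity).  `inj`: apply `F`.  `meas`: continuous on the open ball, constant elsewhere.
`diff`, `bnd`: let `¬ ax y`; as `ax p` and `s ≠ 0`, `¬ ax (p + s y)`; `x = G y`, `A = fderiv F x` invertible (`det ≠ 0`; `ContinuousLinearEquiv` from it:
`LinearMap.equivOfDetNeZero` / `ContinuousLinearMap.toContinuousLinearEquivOfDetNeZero`).  `HasFDerivAt.of_local_left_inverse` for `x ↦ s⁻¹ (F x - p)` (derivative `s⁻¹ A`) gives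
`DG(y) = s A⁻¹`.  `f = winding k ∘ F` on the open set `D`, so `Df(x) = Dw(F x) ∘ A` (`winding_diff`).  Let `⟪h, th y⟫ = 0`, `h ≠ 0` (for `h = 0` trivial); `⟪h, th (F x)⟫ = 0`, because
`th (p + s y) = s th y` (`ax p`).  With `q = A⁻¹ h ≠ 0`, `u = q/‖q‖`: `‖Df(x) u‖ = ‖Dw h‖/‖q‖ = ‖h‖/‖q‖` (`winding_norm`), `|det Df(x)| = k |det A|` (`winding_det`).  `hK`:
`k |det A| ≤ K ‖h‖^N/‖q‖^N`, i.e. `‖q‖^N ≤ (K/k) ‖h‖^N/|det A|`, and `‖DG h‖^N = s^N ‖q‖^N`, `|det DG| = s^N/|det A|`, `N = n+2`.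
`K_pos`: `F '' D` is a nonempty open set, so it contains a point off the axis (the axis has empty interior: move in the coordinate `0`); at such `x ∈ D`: `0 < k|det A| ≤ K‖Df(x) h‖^N` for a
unit vector `h`, so `K > 0`.
-/

set_option autoImplicit false

open MeasureTheory Set

namespace MB

variable {n k : ℕ} {D : Set (E (n + 2))} {F f : E (n + 2) → E (n + 2)} {K : ℝ}

private lemma Fdt_deriv (hk : 1 ≤ k) (hD : IsOpen D)
    (hd : ∀ x ∈ D, ¬ ax (F x) → DifferentiableAt ℝ F x ∧ (fderiv ℝ F x).det ≠ 0)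
    (hf : ∀ x ∈ D, f x = winding k (F x)) {x : E (n + 2)} (hx : x ∈ D) (ha : ¬ ax (F x)) :
    fderiv ℝ f x = (fderiv ℝ (winding (n := n) k) (F x)).comp (fderiv ℝ F x) := by
  have h1 : f =ᶠ[nhds x] winding (n := n) k ∘ F := by
    filter_upwards [hD.mem_nhds hx] with y hy
    exact hf y hy
  rw [h1.fderiv_eq]
  exact fderiv_comp x (winding_diff hk (F x) ha) (hd x hx ha).1

private lemma Fdt_det (hk : 1 ≤ k) (hD : IsOpen D)
    (hd : ∀ x ∈ D, ¬ ax (F x) → DifferentiableAt ℝ F x ∧ (fderiv ℝ F x).det ≠ 0)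
    (hf : ∀ x ∈ D, f x = winding k (F x)) {x : E (n + 2)} (hx : x ∈ D) (ha : ¬ ax (F x)) :
    |(fderiv ℝ f x).det| = k * |(fderiv ℝ F x).det| := by
  rw [Fdt_deriv hk hD hd hf hx ha]
  have h1 : ((fderiv ℝ (winding (n := n) k) (F x)).comp (fderiv ℝ F x)).det =
      (fderiv ℝ (winding (n := n) k) (F x)).det * (fderiv ℝ F x).det := by
    exact LinearMap.det_comp _ _
  rw [h1, abs_mul, winding_det hk (F x) ha]

private lemma Fdt_cont (hFi : InjOn F D)
    (hFo : ∀ U ⊆ D, IsOpen U → IsOpen (F '' U)) (hD : IsOpen D) {q : E (n + 2)}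
    (hq : q ∈ F '' D) : ContinuousAt (Function.invFunOn F D) q := by
  have hm : ∀ q' ∈ F '' D, Function.invFunOn F D q' ∈ D := fun q' h => Function.invFunOn_mem h
  have he : ∀ q' ∈ F '' D, F (Function.invFunOn F D q') = q' := fun q' h =>
    Function.invFunOn_eq h
  intro U hU
  obtain ⟨V, hVU, hVo, hqV⟩ := mem_nhds_iff.mp hU
  have h1 : IsOpen (F '' (V ∩ D)) := hFo _ inter_subset_right (hVo.inter hD)
  have h2 : q ∈ F '' (V ∩ D) := ⟨_, ⟨hqV, hm q hq⟩, he q hq⟩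
  rw [Filter.mem_map]
  filter_upwards [h1.mem_nhds h2] with q' hq'
  obtain ⟨u, ⟨huV, huD⟩, rfl⟩ := hq'
  have h3 : F u ∈ F '' D := ⟨u, huD, rfl⟩
  have h4 : Function.invFunOn F D (F u) = u := hFi (hm _ h3) huD (he _ h3)
  rw [mem_preimage, h4]
  exact hVU huV

private lemma Fdt_inv (hFi : InjOn F D)
    (hFo : ∀ U ⊆ D, IsOpen U → IsOpen (F '' U)) (hD : IsOpen D)
    {x : E (n + 2)} (hx : x ∈ D) (e : E (n + 2) ≃L[ℝ] E (n + 2))
    (h : HasFDerivAt F (e : E (n + 2) →L[ℝ] E (n + 2)) x) :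
    HasFDerivAt (Function.invFunOn F D) (e.symm : E (n + 2) →L[ℝ] E (n + 2)) (F x) := by
  have h3 : F x ∈ F '' D := ⟨x, hx, rfl⟩
  have h4 : Function.invFunOn F D (F x) = x :=
    hFi (Function.invFunOn_mem h3) hx (Function.invFunOn_eq h3)
  apply HasFDerivAt.of_local_left_inverse (f := F)
  · exact Fdt_cont hFi hFo hD h3
  · rw [h4]; exact h
  · filter_upwards [(hFo D subset_rfl hD).mem_nhds h3] with q hq
    exact Function.invFunOn_eq hq

private lemma Fdt_ax {p y : E (n + 2)} {s : ℝ} (hs : s ≠ 0) (hp : ax p) (hy : ¬ ax y) :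
    ¬ ax (p + s • y) := by
  rintro ⟨h0, h1⟩
  apply hy
  have e0 : (p + s • y) 0 = p 0 + s * y 0 := rfl
  have e1 : (p + s • y) 1 = p 1 + s * y 1 := rfl
  rw [e0, hp.1, zero_add] at h0
  rw [e1, hp.2, zero_add] at h1
  exact ⟨(mul_eq_zero.mp h0).resolve_left hs, (mul_eq_zero.mp h1).resolve_left hs⟩

private lemma Fdt_th {p y : E (n + 2)} {s : ℝ} (hp : ax p) : th (p + s • y) = s • th y := by
  have e0 : (p + s • y) 0 = s * y 0 := by
    have : (p + s • y) 0 = p 0 + s * y 0 := rfl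
    rw [this, hp.1, zero_add]
  have e1 : (p + s • y) 1 = s * y 1 := by
    have : (p + s • y) 1 = p 1 + s * y 1 := rfl
    rw [this, hp.2, zero_add]
  ext i
  have a1 : (th (p + s • y)) i = if i = 0 then -(p + s • y) 1 else if i = 1 then (p + s • y) 0
    else 0 := rfl
  have a2 : (s • th y) i = s * (if i = 0 then -y 1 else if i = 1 then y 0 else 0) := rfl
  rw [a1, a2, e0, e1]
  split_ifs <;> ring

theorem K_pos (hk : 1 ≤ k) (hD : IsOpen D) (hFo : ∀ U ⊆ D, IsOpen U → IsOpen (F '' U))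
    (hne : D.Nonempty)
    (hd : ∀ x ∈ D, ¬ ax (F x) → DifferentiableAt ℝ F x ∧ (fderiv ℝ F x).det ≠ 0)
    (hf : ∀ x ∈ D, f x = winding k (F x))
    (hK : ∀ x ∈ D, ¬ ax (F x) → ∀ h : E (n + 2), ‖h‖ = 1 →
      |(fderiv ℝ f x).det| ≤ K * ‖fderiv ℝ f x h‖ ^ (n + 2)) : 0 < K := by
  have hO := hFo D subset_rfl hD
  obtain ⟨x₁, hx₁⟩ := hne
  obtain ⟨x, hx, ha⟩ : ∃ x ∈ D, ¬ ax (F x) := by
    by_cases ha : ax (F x₁)
    · obtain ⟨r, hr, hball⟩ := Metric.isOpen_iff.mp hO (F x₁) ⟨x₁, hx₁, rfl⟩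
      have hm : F x₁ + (r / 2) • (EuclideanSpace.single 0 1 : E (n + 2)) ∈ Metric.ball (F x₁) r := by
        rw [Metric.mem_ball, dist_eq_norm, add_sub_cancel_left, norm_smul,
          EuclideanSpace.norm_single, norm_one, mul_one, Real.norm_eq_abs, abs_of_pos (by linarith)]
        linarith
      obtain ⟨x, hx, hxe⟩ := hball hm
      refine ⟨x, hx, ?_⟩
      rw [hxe]
      apply Fdt_ax (by positivity) ha
      rintro ⟨h0, -⟩
      simp at h0
    · exact ⟨x₁, hx₁, ha⟩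
  have h1 := hK x hx ha (EuclideanSpace.single 0 1) (by
    rw [EuclideanSpace.norm_single, norm_one])
  rw [Fdt_det hk hD hd hf hx ha] at h1
  have h2 : 0 < (k : ℝ) * |(fderiv ℝ F x).det| := by
    have : 0 < |(fderiv ℝ F x).det| := abs_pos.mpr (hd x hx ha).2
    have hk' : (0 : ℝ) < k := by exact_mod_cast hk
    positivity
  by_contra hK0
  rw [not_lt] at hK0
  have h3 : K * ‖fderiv ℝ f x (EuclideanSpace.single 0 1)‖ ^ (n + 2) ≤ 0 :=
    mul_nonpos_of_nonpos_of_nonneg hK0 (by positivity)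
  linarith

theorem exists_dat (hk : 1 ≤ k) (hD : IsOpen D) (hFc : ContinuousOn F D) (hFi : InjOn F D)
    (hFo : ∀ U ⊆ D, IsOpen U → IsOpen (F '' U)) {x₀ : E (n + 2)} (hx₀ : x₀ ∈ D)
    (hax : ax (F x₀))
    (hd : ∀ x ∈ D, ¬ ax (F x) → DifferentiableAt ℝ F x ∧ (fderiv ℝ F x).det ≠ 0)
    (hf : ∀ x ∈ D, f x = winding k (F x))
    (hK : ∀ x ∈ D, ¬ ax (F x) → ∀ h : E (n + 2), ‖h‖ = 1 →
      |(fderiv ℝ f x).det| ≤ K * ‖fderiv ℝ f x h‖ ^ (n + 2)) (R : ℝ) (hR : 0 < R) :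
    ∃ G : E (n + 2) → E (n + 2), Dat (K / k) R G := by
  classical
  have hk' : (0 : ℝ) < k := by exact_mod_cast hk
  have hO := hFo D subset_rfl hD
  obtain ⟨r, hr, hball⟩ := Metric.isOpen_iff.mp hO (F x₀) ⟨x₀, hx₀, rfl⟩
  obtain ⟨s, hs, hsR⟩ : ∃ s : ℝ, 0 < s ∧ s * R < r := by
    refine ⟨r / (2 * R), by positivity, ?_⟩
    rw [div_mul_eq_mul_div, div_lt_iff₀ (by positivity)]
    nlinarith [mul_pos hr hR]
  set p := F x₀ with hp
  set H := Function.invFunOn F D with hH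
  have hm : ∀ y ∈ Metric.ball (0 : E (n + 2)) R, p + s • y ∈ F '' D := by
    intro y hy
    apply hball
    rw [mem_ball_zero_iff] at hy
    rw [Metric.mem_ball, dist_eq_norm, add_sub_cancel_left, norm_smul, Real.norm_eq_abs,
      abs_of_pos hs]
    calc s * ‖y‖ ≤ s * R := mul_le_mul_of_nonneg_left hy.le hs.le
      _ < r := hsR
  have hGD : ∀ y ∈ Metric.ball (0 : E (n + 2)) R, H (p + s • y) ∈ D := fun y hy =>
    Function.invFunOn_mem (hm y hy)
  have hGF : ∀ y ∈ Metric.ball (0 : E (n + 2)) R, F (H (p + s • y)) = p + s • y := fun y hy =>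
    Function.invFunOn_eq (hm y hy)
  let G : E (n + 2) → E (n + 2) :=
    (Metric.ball (0 : E (n + 2)) R).piecewise (fun y => H (p + s • y)) (fun _ => 0)
  have hGe : ∀ y ∈ Metric.ball (0 : E (n + 2)) R, G y = H (p + s • y) := fun y hy =>
    Set.piecewise_eq_of_mem _ _ _ hy
  have hGn : ∀ y ∈ Metric.ball (0 : E (n + 2)) R, G =ᶠ[nhds y] fun y => H (p + s • y) := by
    intro y hy
    filter_upwards [Metric.isOpen_ball.mem_nhds hy] with z hz
    exact hGe z hz
  have haff : Continuous fun y : E (n + 2) => p + s • y := by fun_prop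
  have hc0 : ContinuousOn (fun y => H (p + s • y)) (Metric.ball (0 : E (n + 2)) R) := by
    intro y hy
    apply ContinuousAt.continuousWithinAt
    exact ContinuousAt.comp (g := H) (f := fun y : E (n + 2) => p + s • y)
      (Fdt_cont hFi hFo hD (hm y hy)) haff.continuousAt
  have hder : ∀ y ∈ Metric.ball (0 : E (n + 2)) R, ¬ ax y →
      ∃ e : E (n + 2) ≃L[ℝ] E (n + 2),
        (e : E (n + 2) →L[ℝ] E (n + 2)) = fderiv ℝ F (H (p + s • y)) ∧
        HasFDerivAt G (s • (e.symm : E (n + 2) →L[ℝ] E (n + 2))) y := by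
    intro y hy hay
    have hay' : ¬ ax (F (H (p + s • y))) := by
      rw [hGF y hy]
      exact Fdt_ax hs.ne' hax hay
    obtain ⟨h1, h2⟩ := hd _ (hGD y hy) hay'
    refine ⟨(fderiv ℝ F (H (p + s • y))).toContinuousLinearEquivOfDetNeZero h2, ?_, ?_⟩
    · exact ContinuousLinearMap.coe_toContinuousLinearEquivOfDetNeZero _ h2
    · set e := (fderiv ℝ F (H (p + s • y))).toContinuousLinearEquivOfDetNeZero h2 with he
      have h3 : (e : E (n + 2) →L[ℝ] E (n + 2)) = fderiv ℝ F (H (p + s • y)) :=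
        ContinuousLinearMap.coe_toContinuousLinearEquivOfDetNeZero _ h2
      have h4 : HasFDerivAt H (e.symm : E (n + 2) →L[ℝ] E (n + 2)) (F (H (p + s • y))) := by
        apply Fdt_inv hFi hFo hD (hGD y hy)
        rw [h3]
        exact h1.hasFDerivAt
      rw [hGF y hy] at h4
      have h5 : HasFDerivAt (fun y : E (n + 2) => p + s • y)
          (s • ContinuousLinearMap.id ℝ (E (n + 2))) y :=
        ((hasFDerivAt_id y).const_smul s).const_add p
      have h6 := HasFDerivAt.comp y h4 h5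
      have h7 : ((e.symm : E (n + 2) →L[ℝ] E (n + 2)).comp
          (s • ContinuousLinearMap.id ℝ (E (n + 2)))) =
          s • (e.symm : E (n + 2) →L[ℝ] E (n + 2)) := by
        ext z
        simp
      rw [h7] at h6
      exact h6.congr_of_eventuallyEq (hGn y hy)
  refine ⟨G, ?_, ?_, ?_, ?_, ?_⟩
  · exact ContinuousOn.measurable_piecewise hc0 continuousOn_const Metric.isOpen_ball.measurableSet
  · exact hc0.congr hGe
  · intro y hy z hz hyz
    rw [hGe y hy, hGe z hz] at hyz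
    have h1 := congrArg F hyz
    rw [hGF y hy, hGF z hz] at h1
    exact smul_right_injective _ hs.ne' (add_left_cancel h1)
  · intro y hy hay
    obtain ⟨e, -, he⟩ := hder y hy hay
    exact he.differentiableAt
  · intro y hy hay h hh
    obtain ⟨e, he1, he⟩ := hder y hy hay
    rw [he.fderiv]
    set x := H (p + s • y) with hx
    have hxD : x ∈ D := hGD y hy
    have hxF : F x = p + s • y := hGF y hy
    have hax' : ¬ ax (F x) := by
      rw [hxF]
      exact Fdt_ax hs.ne' hax hay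
    by_cases h0 : h = 0
    · rw [h0, map_zero, norm_zero, zero_pow (by omega), mul_zero]
    set q : E (n + 2) := e.symm h with hq
    have hAq : fderiv ℝ F x q = h := by
      rw [← he1, hq]
      exact e.apply_symm_apply h
    have hq0 : q ≠ 0 := by
      intro hq0
      apply h0
      rw [← hAq, hq0, map_zero]
    have hqn : 0 < ‖q‖ := norm_pos_iff.mpr hq0
    have hu : ‖‖q‖⁻¹ • q‖ = 1 := by
      rw [norm_smul, norm_inv, norm_norm, inv_mul_cancel₀ hqn.ne']
    have h1 := hK x hxD hax' _ hu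
    rw [Fdt_det hk hD hd hf hxD hax', Fdt_deriv hk hD hd hf hxD hax'] at h1
    have hDw : ‖(fderiv ℝ (winding (n := n) k) (F x)).comp (fderiv ℝ F x) (‖q‖⁻¹ • q)‖ =
        ‖q‖⁻¹ * ‖h‖ := by
      rw [ContinuousLinearMap.comp_apply, map_smul, map_smul, hAq, norm_smul, norm_inv, norm_norm,
        winding_norm hk (F x) h hax']
      rw [hxF, Fdt_th hax, inner_smul_right, hh, mul_zero]
    rw [hDw, mul_pow] at h1
    have hdA : 0 < |(fderiv ℝ F x).det| := abs_pos.mpr (hd x hxD hax').2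
    have hdet : |(s • (e.symm : E (n + 2) →L[ℝ] E (n + 2))).det| =
        s ^ (n + 2) * |(fderiv ℝ F x).det|⁻¹ := by
      have e1 : (s • (e.symm : E (n + 2) →L[ℝ] E (n + 2))).det =
          s ^ (n + 2) * (e.symm : E (n + 2) →L[ℝ] E (n + 2)).det := by
        unfold ContinuousLinearMap.det
        rw [ContinuousLinearMap.coe_smul, LinearMap.det_smul, finrank_euclideanSpace_fin]
      rw [e1, ContinuousLinearEquiv.det_coe_symm, he1, abs_mul, abs_inv, abs_of_pos (by positivity)]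
    have happ : (s • (e.symm : E (n + 2) →L[ℝ] E (n + 2))) h = s • q := rfl
    rw [hdet, happ, norm_smul, Real.norm_eq_abs, abs_of_pos hs, mul_pow]
    have h2 : k * |(fderiv ℝ F x).det| * ‖q‖ ^ (n + 2) ≤ K * ‖h‖ ^ (n + 2) := by
      have h3 := mul_le_mul_of_nonneg_right h1 (pow_nonneg hqn.le (n + 2))
      have h4 : K * (‖q‖⁻¹ ^ (n + 2) * ‖h‖ ^ (n + 2)) * ‖q‖ ^ (n + 2) = K * ‖h‖ ^ (n + 2) := by
        rw [inv_pow]
        field_simp
      rw [h4] at h3
      exact h3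
    have h5 : ‖q‖ ^ (n + 2) ≤ K / k * |(fderiv ℝ F x).det|⁻¹ * ‖h‖ ^ (n + 2) := by
      have h6 : K / k * |(fderiv ℝ F x).det|⁻¹ * ‖h‖ ^ (n + 2) =
          (K * ‖h‖ ^ (n + 2)) / (k * |(fderiv ℝ F x).det|) := by
        field_simp
      rw [h6, le_div_iff₀ (by positivity)]
      linarith
    have h7 := mul_le_mul_of_nonneg_left h5 (pow_nonneg hs.le (n + 2))
    calc s ^ (n + 2) * ‖q‖ ^ (n + 2)
        ≤ s ^ (n + 2) * (K / k * |(fderiv ℝ F x).det|⁻¹ * ‖h‖ ^ (n + 2)) := h7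
      _ = K / k * (s ^ (n + 2) * |(fderiv ℝ F x).det|⁻¹) * ‖h‖ ^ (n + 2) := by ring

end MB
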