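import Pool.Agent.H16.MB.Defs

/-!
Row Ftc (MP_c844e7, about 60 lines).  Fundamental theorem of calculus and Cauchy–Schwarz, in extended
nonnegative numbers (`nsq x = ENNReal.ofReal (‖x‖ ^ 2)`).

PROOF.  `R = 0`: the left side is `nsq 0 = 0`.  Let `R > 0` and `I = ∫⁻ t in Ioo 0 R, nsq (g t)`.  If `I = ⊤` then
the right side is `⊤`.  If `I < ⊤`: `MemLp g 2 (volume.restrict (Ioo 0 R))` (`memLp_two_iff_integrable_sq_norm` or
`MemLp` from `eLpNorm`, the lintegral of `‖g‖ₑ^2` is `I`), a finite measure, so `g` is integrable on `Ioo 0 R`, hence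
interval integrable, and `∫ t in 0..R, g t = f R - f 0` (`intervalIntegral.integral_eq_sub_of_hasDerivAt_of_le`).
`‖∫ g‖ ≤ ∫ ‖g‖` and `(∫_{Ioo 0 R} ‖g‖)^2 ≤ R ∫ ‖g‖^2` (Cauchy–Schwarz: Hölder with the function `1`, or
`0 ≤ ∫ (‖g‖ - c)^2` with `c` the mean).  Finally `ENNReal.ofReal (R * ∫ ‖g‖^2) = ENNReal.ofReal R * I`
(`ofReal_integral_eq_lintegral_ofReal`).
-/

set_option autoImplicit false

open MeasureTheory Set

namespace MB

lemma Ftc_cs {R A B : ℝ} {μ : Measure ℝ} {h : ℝ → ℝ} (hR : 0 < R) (hμ : μ.real univ = R)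
    [IsFiniteMeasure μ] (h1 : Integrable h μ) (h2 : Integrable (fun x => h x ^ 2) μ)
    (hA : A = ∫ x, h x ∂μ) (hB : B = ∫ x, h x ^ 2 ∂μ) : A ^ 2 ≤ R * B := by
  have h3 : 0 ≤ ∫ x, (h x - A / R) ^ 2 ∂μ := integral_nonneg fun x => sq_nonneg _
  have h4 : ∫ x, (h x - A / R) ^ 2 ∂μ = B - 2 * (A / R) * A + (A / R) ^ 2 * R := by
    have h5 : ∀ x, (h x - A / R) ^ 2 = (h x ^ 2 - 2 * (A / R) * h x) + (A / R) ^ 2 := by
      intro x; ring
    simp only [h5]
    have h6 : Integrable (fun x => h x ^ 2 - 2 * (A / R) * h x) μ := h2.sub (h1.const_mul _)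
    rw [integral_add h6 (integrable_const _), integral_sub h2 (h1.const_mul _), integral_const_mul, ← hA, ← hB, integral_const,
      smul_eq_mul, hμ]
    ring
  rw [h4] at h3
  have h6 : B - 2 * (A / R) * A + (A / R) ^ 2 * R = B - A ^ 2 / R := by
    field_simp
    ring
  rw [h6] at h3
  have h7 : A ^ 2 / R ≤ B := by linarith
  rw [div_le_iff₀ hR] at h7
  linarith

theorem ftc_sq {m : ℕ} (f g : ℝ → E m) (R : ℝ) (hR : 0 ≤ R) (hc : ContinuousOn f (Icc 0 R))
    (hf : ∀ x ∈ Ioo 0 R, HasDerivAt f (g x) x)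
    (hg : AEStronglyMeasurable g (volume.restrict (Ioo 0 R))) :
    nsq (f R - f 0) ≤ ENNReal.ofReal R * ∫⁻ t in Ioo 0 R, nsq (g t) := by
  rcases hR.eq_or_lt with rfl | hR
  · simp [nsq]
  by_cases hI : ∫⁻ t in Ioo 0 R, nsq (g t) = ⊤
  · rw [hI, ENNReal.mul_top (by simpa using hR)]
    exact le_top
  have hsq : Integrable (fun x => ‖g x‖ ^ 2) (volume.restrict (Ioo 0 R)) := by
    refine ⟨hg.norm.pow 2, ?_⟩
    rw [hasFiniteIntegral_iff_ofReal (Filter.Eventually.of_forall fun x => by positivity)]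
    exact lt_top_iff_ne_top.2 hI
  have hmem : MemLp g 2 (volume.restrict (Ioo 0 R)) := (memLp_two_iff_integrable_sq_norm hg).2 hsq
  have hint : Integrable g (volume.restrict (Ioo 0 R)) := hmem.integrable one_le_two
  have hii : IntervalIntegrable g volume 0 R :=
    (intervalIntegrable_iff_integrableOn_Ioo_of_le hR.le).2 hint
  have hftc := intervalIntegral.integral_eq_sub_of_hasDerivAt_of_le hR.le hc hf hii
  rw [intervalIntegral.integral_of_le hR.le, integral_Ioc_eq_integral_Ioo] at hftc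
  have hcs := Ftc_cs (R := R) (μ := volume.restrict (Ioo 0 R)) (h := fun x => ‖g x‖) hR
    (by simp [Measure.real, hR.le]) hint.norm hsq rfl rfl
  have h1 : ‖f R - f 0‖ ^ 2 ≤ R * ∫ x in Ioo 0 R, ‖g x‖ ^ 2 := by
    refine le_trans ?_ hcs
    rw [← hftc]
    exact pow_le_pow_left₀ (norm_nonneg _) (norm_integral_le_integral_norm _) 2
  unfold nsq
  refine (ENNReal.ofReal_le_ofReal h1).trans ?_
  rw [ENNReal.ofReal_mul hR.le, ofReal_integral_eq_lintegral_ofReal hsq
    (Filter.Eventually.of_forall fun x => by positivity)]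

end MB
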