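import Pool.Agent.H16.MB.Ftc

/-!
Row Gp1 (MP_c844e7, about 90 lines).  One-dimensional Gaussian Poincaré inequality (with the base point `0`).

PROOF.  `ga = gaussianReal 0 1` has the density `φ x = (√(2π))⁻¹ exp(-x²/2)` (`gaussianReal_apply`, `gaussianReal` is
`volume.withDensity (gaussianPDF 0 1)`), so `∫⁻ F ∂ga = ∫⁻ x, ofReal (φ x) * F x` for measurable `F`
(`lintegral_withDensity_eq_lintegral_mul`); `f` is continuous, `g = deriv f` is measurable (`measurable_deriv`).  Split into `Ioi 0` and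
`Iio 0` (the point `0` has measure `0`; the two halves are exchanged by `x ↦ -x`, apply the first half to `f (-x)`).  For
`x > 0`: `ftc_sq` gives `nsq (f x - f 0) ≤ ofReal x * ∫⁻ t in Ioo 0 x, nsq (g t)`.  Tonelli (`lintegral_lintegral_swap`, with the
indicator of `{(x,t) | 0 < t < x}`): `∫⁻_{x>0} ofReal (x φ x) ∫⁻_{0<t<x} G t = ∫⁻_{t>0} G t ∫⁻_{x>t} ofReal (x φ x)` and
`∫⁻_{x>t} ofReal (x φ x) = ofReal (φ t)`, because `(-φ)' = x φ` and `φ → 0` (`integral_Ioi_of_hasDerivAt_of_nonneg'` or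
`…_of_tendsto`).
-/

set_option autoImplicit false

open MeasureTheory Set

namespace MB

/-- the standard Gaussian density -/
noncomputable def Gp1_phi (x : ℝ) : ℝ := (Real.sqrt (2 * Real.pi))⁻¹ * Real.exp (-x ^ 2 / 2)

lemma Gp1_pos (x : ℝ) : 0 < Gp1_phi x := by
  unfold Gp1_phi
  positivity

lemma Gp1_neg (x : ℝ) : Gp1_phi (-x) = Gp1_phi x := by
  unfold Gp1_phi
  rw [neg_sq]

lemma Gp1_pdf (x : ℝ) : ProbabilityTheory.gaussianPDF 0 1 x = ENNReal.ofReal (Gp1_phi x) := by
  unfold ProbabilityTheory.gaussianPDF ProbabilityTheory.gaussianPDFReal Gp1_phi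
  simp

lemma Gp1_deriv (x : ℝ) : HasDerivAt (fun x => -Gp1_phi x) (x * Gp1_phi x) x := by
  have h1 : HasDerivAt (fun x : ℝ => -x ^ 2 / 2) (-x) x := by
    have h2 := ((hasDerivAt_pow 2 x).neg).div_const 2
    refine h2.congr_deriv ?_
    push_cast
    ring
  have h3 := (h1.exp.const_mul (Real.sqrt (2 * Real.pi))⁻¹).neg
  refine h3.congr_deriv ?_
  unfold Gp1_phi
  ring

lemma Gp1_tend : Filter.Tendsto (fun x => -Gp1_phi x) Filter.atTop (nhds 0) := by
  have h1 : Filter.Tendsto (fun x : ℝ => x ^ 2 / 2) Filter.atTop Filter.atTop :=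
    (Filter.tendsto_pow_atTop two_ne_zero).atTop_div_const (by norm_num)
  have h2 := ((Real.tendsto_exp_neg_atTop_nhds_zero.comp h1).const_mul
    (Real.sqrt (2 * Real.pi))⁻¹).neg
  simp only [mul_zero, neg_zero] at h2
  refine h2.congr fun x => ?_
  unfold Gp1_phi
  simp only [Function.comp_apply, neg_div]

lemma Gp1_tail {t : ℝ} (ht : 0 < t) :
    ∫⁻ x in Ioi t, ENNReal.ofReal (x * Gp1_phi x) = ENNReal.ofReal (Gp1_phi t) := by
  have h0 : ∀ x ∈ Ici t, HasDerivAt (fun x => -Gp1_phi x) (x * Gp1_phi x) x :=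
    fun x _ => Gp1_deriv x
  have h1 : ∀ x ∈ Ioi t, 0 ≤ x * Gp1_phi x := fun x hx =>
    mul_nonneg (ht.le.trans (le_of_lt hx)) (Gp1_pos x).le
  have h2 := integral_Ioi_of_hasDerivAt_of_nonneg' h0 h1 Gp1_tend
  have h3 := integrableOn_Ioi_deriv_of_nonneg' h0 h1 Gp1_tend
  rw [← ofReal_integral_eq_lintegral_ofReal h3 ((ae_restrict_iff' measurableSet_Ioi).2
    (Filter.Eventually.of_forall h1)), h2]
  congr 1
  ring

lemma Gp1_nsq_neg {F : Type*} [NormedAddCommGroup F] (x : F) : nsq (-x) = nsq x := by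
  unfold nsq
  rw [norm_neg]

lemma Gp1_meas {m : ℕ} {g : ℝ → E m} (hg : Measurable g) : Measurable fun x => nsq (g x) := by
  unfold nsq
  exact (hg.norm.pow_const 2).ennreal_ofReal

lemma Gp1_phi_meas : Measurable Gp1_phi := by
  unfold Gp1_phi
  fun_prop

lemma Gp1_half {m : ℕ} (f g : ℝ → E m) (hf : ∀ x, HasDerivAt f (g x) x) :
    ∫⁻ x in Ioi (0 : ℝ), ENNReal.ofReal (Gp1_phi x) * nsq (f x - f 0) ≤
      ∫⁻ x in Ioi (0 : ℝ), ENNReal.ofReal (Gp1_phi x) * nsq (g x) := by
  have hgd : g = deriv f := funext fun x => (hf x).deriv.symm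
  have hgm : Measurable g := by
    rw [hgd]; exact measurable_deriv f
  have hgn : Measurable fun x => nsq (g x) := Gp1_meas hgm
  have hcont : Continuous f := continuous_iff_continuousAt.2 fun x => (hf x).continuousAt
  set K : ℝ → ℝ → ENNReal := fun x t =>
    if t < x then ENNReal.ofReal (x * Gp1_phi x) * nsq (g t) else 0 with hK
  have hKm : Measurable (Function.uncurry K) := by
    apply Measurable.ite (measurableSet_lt measurable_snd measurable_fst)
    · exact (((measurable_id.mul Gp1_phi_meas).ennreal_ofReal).comp measurable_fst).mul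
        (hgn.comp measurable_snd)
    · exact measurable_const
  have h1 : ∫⁻ x in Ioi (0 : ℝ), ENNReal.ofReal (Gp1_phi x) * nsq (f x - f 0) ≤
      ∫⁻ x in Ioi (0 : ℝ), ∫⁻ t in Ioi (0 : ℝ), K x t := by
    refine setLIntegral_mono' measurableSet_Ioi fun x hx => ?_
    have hx0 : (0 : ℝ) < x := hx
    have h2 := ftc_sq f g x hx0.le hcont.continuousOn (fun y _ => hf y)
      hgm.aestronglyMeasurable
    have h3 : ∫⁻ t in Ioi (0 : ℝ), K x t =
        ∫⁻ t in Ioo 0 x, ENNReal.ofReal (x * Gp1_phi x) * nsq (g t) := by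
      have h4 : ∀ t, K x t = (Iio x).indicator
          (fun t => ENNReal.ofReal (x * Gp1_phi x) * nsq (g t)) t := by
        intro t
        simp only [hK, indicator, mem_Iio]
      simp only [h4]
      rw [setLIntegral_indicator measurableSet_Iio]
      congr 2
      ext t
      simp only [mem_inter_iff, mem_Iio, mem_Ioi, mem_Ioo]
      tauto
    rw [h3, lintegral_const_mul _ hgn]
    calc ENNReal.ofReal (Gp1_phi x) * nsq (f x - f 0)
        ≤ ENNReal.ofReal (Gp1_phi x) * (ENNReal.ofReal x * ∫⁻ t in Ioo 0 x, nsq (g t)) := by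
          gcongr
      _ = ENNReal.ofReal (x * Gp1_phi x) * ∫⁻ t in Ioo 0 x, nsq (g t) := by
          rw [← mul_assoc, ← ENNReal.ofReal_mul (Gp1_pos x).le, mul_comm (Gp1_phi x) x]
  refine h1.trans ?_
  rw [lintegral_lintegral_swap hKm.aemeasurable]
  refine le_of_eq (setLIntegral_congr_fun measurableSet_Ioi fun t ht => ?_)
  have ht0 : (0 : ℝ) < t := ht
  have h5 : ∀ x, K x t = (Ioi t).indicator
      (fun x => ENNReal.ofReal (x * Gp1_phi x) * nsq (g t)) x := by
    intro x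
    simp only [hK, indicator, mem_Ioi]
  simp only [h5]
  rw [setLIntegral_indicator measurableSet_Ioi]
  have h6 : Ioi t ∩ Ioi (0 : ℝ) = Ioi t := by
    rw [inter_eq_left]
    exact Ioi_subset_Ioi ht0.le
  have hm : Measurable fun x => ENNReal.ofReal (x * Gp1_phi x) :=
    (measurable_id.mul Gp1_phi_meas).ennreal_ofReal
  rw [h6, lintegral_mul_const _ hm]
  congr 1
  exact Gp1_tail ht0

lemma Gp1_ga {F : ℝ → ENNReal} (hF : Measurable F) :
    ∫⁻ x, F x ∂ga = (∫⁻ x in Ioi (0 : ℝ), ENNReal.ofReal (Gp1_phi x) * F x) +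
      (∫⁻ x in Ioi (0 : ℝ), ENNReal.ofReal (Gp1_phi x) * F (-x)) := by
  have h1 : ∫⁻ x, F x ∂ga = ∫⁻ x, ENNReal.ofReal (Gp1_phi x) * F x := by
    change ∫⁻ x, F x ∂(ProbabilityTheory.gaussianReal 0 1) = _
    rw [ProbabilityTheory.gaussianReal_of_var_ne_zero 0 one_ne_zero,
      lintegral_withDensity_eq_lintegral_mul _ (ProbabilityTheory.measurable_gaussianPDF 0 1) hF]
    refine lintegral_congr fun x => ?_
    rw [Pi.mul_apply, Gp1_pdf]
  have hH : Measurable fun x => ENNReal.ofReal (Gp1_phi x) * F x :=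
    Gp1_phi_meas.ennreal_ofReal.mul hF
  have h2 := (Measure.measurePreserving_neg (volume : Measure ℝ)).setLIntegral_comp_preimage
    (measurableSet_Iic (a := (0 : ℝ))) hH
  have h3 : Neg.neg ⁻¹' Iic (0 : ℝ) = Ici 0 := by
    ext x
    simp
  rw [h3, ← setLIntegral_congr Ioi_ae_eq_Ici] at h2
  simp only [Gp1_neg] at h2
  rw [h2, h1, ← lintegral_add_compl _ (measurableSet_Ioi (a := (0 : ℝ))), compl_Ioi]

theorem gp1 {m : ℕ} (f g : ℝ → E m) (hf : ∀ x, HasDerivAt f (g x) x) :
    ∫⁻ x, nsq (f x - f 0) ∂ga ≤ ∫⁻ x, nsq (g x) ∂ga := by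
  have hgd : g = deriv f := funext fun x => (hf x).deriv.symm
  have hgm : Measurable g := by
    rw [hgd]; exact measurable_deriv f
  have hcont : Continuous f := continuous_iff_continuousAt.2 fun x => (hf x).continuousAt
  have hm : Measurable fun x => nsq (f x - f 0) :=
    Gp1_meas (g := fun x => f x - f 0) (hcont.sub continuous_const).measurable
  rw [Gp1_ga hm, Gp1_ga (Gp1_meas hgm)]
  refine add_le_add (Gp1_half f g hf) ?_
  have h1 := Gp1_half (fun x => f (-x)) (fun x => -g (-x)) fun x => by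
    have h2 := (hf (-x)).scomp x (hasDerivAt_neg x)
    refine h2.congr_deriv ?_
    simp
  simpa only [Gp1_nsq_neg, neg_zero] using h1

end MB
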