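import Pool.Agent.H16.MB.Gp1
import Pool.Agent.H16.MB.Efs
import Pool.Agent.H16.MB.Mom

/-!
Row Gpd (MP_c844e7, about 130 lines).  Gaussian Poincaré inequality on `ℝᵈ`.

PROOF.  Induction on `d`.  `d = 0`: the space is a point, the left side is `0` (`f x - ∫ f = 0`: `gad 0` is a Dirac measure,
`Measure.pi_of_empty`, or: `f` is constant because `Fin 0 → ℝ` is a subsingleton, and the measure is a probability measure).
`d + 1`: the measurable equivalence `e = MeasurableEquiv.piFinSuccAbove (fun _ => ℝ) 0 : (Fin (d+1) → ℝ) ≃ᵐ ℝ × (Fin d → ℝ)` is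
measure preserving from `gad (d+1)` to `ga.prod (gad d)` (`measurePreserving_piFinSuccAbove`), and `e.symm (a, y) = Fin.cons a y`.
Apply `efs` to `f' (a, y) = f (Fin.cons a y)` (`MemLp` by `mom_gad` and measure preservation).  First term: for every `y`, the function
`a ↦ f (Fin.cons a y)` has the derivative `g 0 (Fin.cons a y)` (`hf (Fin.cons a y) 0`, `Function.update (Fin.cons a y) 0 t = Fin.cons t y`:
`Fin.update_cons_zero`), so `∫⁻_a nsq (f' (a,y) - ∫ f' (·,y)) ≤ ∫⁻_a nsq (f' (a,y) - f' (0,y)) ≤ ∫⁻_a nsq (g 0 (Fin.cons a y))` by `var_min`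
(`MemLp`: `mom_gad`-type bound in one variable, e.g. `mom_gad 1` or directly from linear growth) and `gp1`.  Second term: for every `a` the
induction hypothesis for `y ↦ f (Fin.cons a y)` (continuous, linear growth with constant `C (1 + |a|)`, or
`|C| (1 + |a|)`; `Function.update (Fin.cons a y) i.succ t = Fin.cons a (Function.update y i t)`: `Fin.cons_update`).
`Fin.sum_univ_succ`.
-/

set_option autoImplicit false

open MeasureTheory Set

namespace MB

private lemma Gpd_mem {m : ℕ} (h : ℝ → E m) (hc : Continuous h) (C : ℝ)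
    (hC : ∀ a, ‖h a‖ ≤ C * (1 + |a|)) : MemLp h 2 ga := by
  have h0 : MemLp (id : ℝ → ℝ) 2 ga :=
    ProbabilityTheory.memLp_id_gaussianReal' 2 ENNReal.ofNat_ne_top
  have h00 : MemLp (fun a : ℝ => ‖(id a : ℝ)‖) 2 ga := h0.norm
  have h01 : MemLp (fun _ : ℝ => (1 : ℝ)) 2 ga := memLp_const 1
  have h1 : MemLp ((fun _ : ℝ => (1 : ℝ)) + fun a : ℝ => ‖(id a : ℝ)‖) 2 ga := h01.add h00
  refine h1.of_le_mul (c := C) hc.aestronglyMeasurable (Filter.Eventually.of_forall fun a => ?_)
  have h2 : ‖((fun _ : ℝ => (1 : ℝ)) + fun a : ℝ => ‖(id a : ℝ)‖) a‖ = 1 + |a| := by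
    rw [Pi.add_apply, Real.norm_eq_abs, id, Real.norm_eq_abs, abs_of_nonneg]
    positivity
  rw [h2]
  exact hC a

private lemma Gpd_nsq_meas {m : ℕ} {α : Type} [MeasurableSpace α] {h : α → E m}
    (hh : Measurable h) : Measurable (fun x => nsq (h x)) := by
  unfold nsq
  exact ENNReal.measurable_ofReal.comp ((hh.norm).pow_const 2)

private lemma Gpd_cons_norm {d : ℕ} (a : ℝ) (y : Fin d → ℝ) :
    ‖(Fin.cons a y : Fin (d + 1) → ℝ)‖ ≤ |a| + ‖y‖ := by
  rw [pi_norm_le_iff_of_nonneg (by positivity)]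
  intro i
  refine Fin.cases ?_ (fun j => ?_) i
  · rw [Fin.cons_zero, Real.norm_eq_abs]
    linarith [norm_nonneg y]
  · rw [Fin.cons_succ]
    linarith [norm_le_pi_norm y j, abs_nonneg a]

private lemma Gpd_cons_cont {d : ℕ} :
    Continuous (fun p : ℝ × (Fin d → ℝ) => (Fin.cons p.1 p.2 : Fin (d + 1) → ℝ)) := by
  refine continuous_pi fun i => ?_
  refine Fin.cases ?_ (fun j => ?_) i
  · exact continuous_fst
  · exact (continuous_apply j).comp continuous_snd

theorem gpd {m : ℕ} (d : ℕ) (f : (Fin d → ℝ) → E m) (g : Fin d → (Fin d → ℝ) → E m)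
    (hc : Continuous f) (C : ℝ) (hC : ∀ x, ‖f x‖ ≤ C * (1 + ‖x‖))
    (hf : ∀ x i, HasDerivAt (fun t => f (Function.update x i t)) (g i x) (x i))
    (hg : ∀ i, Measurable (g i)) :
    ∫⁻ x, nsq (f x - ∫ y, f y ∂(gad d)) ∂(gad d) ≤ ∑ i, ∫⁻ x, nsq (g i x) ∂(gad d) := by
  induction d generalizing C with
  | zero =>
    have h1 : ∀ x : Fin 0 → ℝ, nsq (f x - ∫ y, f y ∂(gad 0)) = 0 := by
      intro x
      have h2 : ∀ y : Fin 0 → ℝ, f y = f x := fun y => by rw [Subsingleton.elim y x]
      have h3 : ∫ y, f y ∂(gad 0) = f x := by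
        rw [integral_congr_ae (Filter.Eventually.of_forall h2), integral_const]
        simp
      rw [h3, sub_self]
      simp [nsq]
    simp only [h1, lintegral_zero]
    exact zero_le
  | succ d ih =>
    have hC0 : 0 ≤ C := by
      have h1 := (norm_nonneg _).trans (hC 0)
      rw [norm_zero, add_zero, mul_one] at h1
      exact h1
    set e := MeasurableEquiv.piFinSuccAbove (fun _ : Fin (d + 1) => ℝ) 0 with he
    have hmp : MeasurePreserving e (gad (d + 1)) (ga.prod (gad d)) :=
      measurePreserving_piFinSuccAbove (fun _ : Fin (d + 1) => ga) 0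
    have hsym : MeasurePreserving e.symm (ga.prod (gad d)) (gad (d + 1)) := hmp.symm e
    have hes : ∀ p : ℝ × (Fin d → ℝ), e.symm p = (Fin.cons p.1 p.2 : Fin (d + 1) → ℝ) := by
      intro p
      rw [he]
      show (Fin.insertNthEquiv (fun _ : Fin (d + 1) => ℝ) 0) p = _
      rw [Fin.insertNthEquiv_zero]
      rfl
    have hlin : ∀ H : (Fin (d + 1) → ℝ) → ENNReal,
        ∫⁻ x, H x ∂(gad (d + 1)) = ∫⁻ p, H (Fin.cons p.1 p.2) ∂(ga.prod (gad d)) := by
      intro H
      rw [← hsym.lintegral_comp_emb e.symm.measurableEmbedding H]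
      simp only [hes]
    have hint : ∫ y, f y ∂(gad (d + 1)) = ∫ p, f (Fin.cons p.1 p.2) ∂(ga.prod (gad d)) := by
      rw [← hsym.integral_comp' f]
      simp only [hes]
    set F : ℝ × (Fin d → ℝ) → E m := fun p => f (Fin.cons p.1 p.2) with hF
    have hFc : Continuous F := hc.comp Gpd_cons_cont
    have hFm : MemLp F 2 (ga.prod (gad d)) := by
      have h1 := (mom_gad (d + 1) f hc C hC).comp_measurePreserving hsym
      have h2 : f ∘ e.symm = F := by
        funext p
        rw [Function.comp_apply, hes]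
      rwa [h2] at h1
    have hFb : ∀ a y, ‖F (a, y)‖ ≤ C * (1 + |a| + ‖y‖) := by
      intro a y
      refine (hC _).trans (mul_le_mul_of_nonneg_left ?_ hC0)
      have := Gpd_cons_norm a y
      linarith
    have hgm : ∀ i, Measurable (fun p : ℝ × (Fin d → ℝ) =>
        nsq (g i (Fin.cons p.1 p.2))) := fun i =>
      Gpd_nsq_meas ((hg i).comp Gpd_cons_cont.measurable)
    have step := efs ga (gad d) F hFm
    have t1 : ∫⁻ b, ∫⁻ a, nsq (F (a, b) - ∫ a', F (a', b) ∂ga) ∂ga ∂(gad d) ≤
        ∫⁻ x, nsq (g 0 x) ∂(gad (d + 1)) := by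
      rw [hlin, lintegral_prod_symm _ (hgm 0).aemeasurable]
      refine lintegral_mono fun b => ?_
      have k1 : MemLp (fun a => F (a, b)) 2 ga := by
        refine Gpd_mem _ (hFc.comp (Continuous.prodMk_left b)) (C * (1 + ‖b‖)) fun a => ?_
        refine (hFb a b).trans ?_
        rw [mul_assoc]
        refine mul_le_mul_of_nonneg_left ?_ hC0
        nlinarith [norm_nonneg b, abs_nonneg a, mul_nonneg (norm_nonneg b) (abs_nonneg a)]
      refine (var_min ga _ k1 (F (0, b))).trans ?_
      refine gp1 (fun a => F (a, b)) (fun a => g 0 (Fin.cons a b)) fun a => ?_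
      have k2 := hf (Fin.cons a b) 0
      rw [Fin.cons_zero] at k2
      have k3 : (fun t => f (Function.update (Fin.cons a b : Fin (d + 1) → ℝ) 0 t)) =
          fun t => F (t, b) := by
        funext t
        rw [Fin.update_cons_zero]
      rw [k3] at k2
      exact k2
    have t2 : ∫⁻ a, ∫⁻ b, nsq (F (a, b) - ∫ b', F (a, b') ∂(gad d)) ∂(gad d) ∂ga ≤
        ∑ i : Fin d, ∫⁻ x, nsq (g i.succ x) ∂(gad (d + 1)) := by
      have k0 : ∀ i : Fin d, ∫⁻ x, nsq (g i.succ x) ∂(gad (d + 1)) =
          ∫⁻ a, ∫⁻ b, nsq (g i.succ (Fin.cons a b)) ∂(gad d) ∂ga := fun i => by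
        rw [hlin, lintegral_prod _ (hgm i.succ).aemeasurable]
      simp only [k0]
      rw [← lintegral_finsetSum _ fun i _ => (hgm i.succ).lintegral_prod_right']
      refine lintegral_mono fun a => ?_
      refine ih (fun y => F (a, y)) (fun i y => g i.succ (Fin.cons a y))
        (hFc.comp (Continuous.prodMk_right a)) (C * (1 + |a|)) (fun y => ?_) (fun y i => ?_)
        (fun i => ?_)
      · refine (hFb a y).trans ?_
        rw [mul_assoc]
        refine mul_le_mul_of_nonneg_left ?_ hC0
        nlinarith [norm_nonneg y, abs_nonneg a, mul_nonneg (norm_nonneg y) (abs_nonneg a)]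
      · have k2 := hf (Fin.cons a y) i.succ
        rw [Fin.cons_succ] at k2
        have k3 : (fun t => f (Function.update (Fin.cons a y : Fin (d + 1) → ℝ) i.succ t)) =
            fun t => F (a, Function.update y i t) := by
          funext t
          rw [← Fin.cons_update]
        rw [k3] at k2
        exact k2
      · exact (hg i.succ).comp (Gpd_cons_cont.measurable.comp measurable_prodMk_left)
    rw [hlin, hint, Fin.sum_univ_succ]
    exact step.trans (add_le_add t1 t2)

end MB
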