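import Pool.Agent.H16.MB.Est
import Pool.Agent.H16.MB.Edd

/-!
Row IntW (MP_c844e7, about 60 lines).  Integration of `est_W`.

PROOF.  Exchange the finite sum and the lintegral (`lintegral_finset_sum`, measurability: `measurable_fderiv_apply_const` composed with `cont_T`; then
`nsq` = `ofReal` of the squared norm), `∑ ofReal = ofReal ∑`; a.e. `p.1 ≠ 0` (`ga2 {0} = 0`), `est_W`, `ENNReal.ofReal_add`, `ENNReal.ofReal_mul`,
`lintegral_const` (`gaT n` is a probability measure), `lintegral_const_mul`.  Measurability of `kp`, `qq`, `Dd` (`Dd_meas`).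
-/

set_option autoImplicit false

open MeasureTheory Set

namespace MB

variable {n : ℕ} {c ε : ℝ} {G : E (n + 2) → E (n + 2)} {S : E (n + 2) → E (n + 3)}
  {μ : E (n + 2) → ℝ}

theorem IntW_kp_meas (n : ℕ) : Measurable (kp : E (n + 3) → ℝ) := by
  unfold kp
  have h0 : Measurable fun X : E (n + 3) => X 0 := by fun_prop
  have h1 : Measurable fun X : E (n + 3) => X 1 := by fun_prop
  exact (((measurable_norm.pow_const 2).sub (h0.pow_const 2)).sub (h1.pow_const 2)).div
    (measurable_norm.pow_const 2)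

theorem IntW_ae (n : ℕ) : ∀ᵐ p ∂(gaT n), p.1 ≠ 0 := by
  have h0 : ga {(0 : ℝ)} = 0 := by
    have := ProbabilityTheory.nullSingletonClass_gaussianReal (μ := 0) (v := 1) one_ne_zero
    exact measure_singleton 0
  have h2 : ga2 {(0 : ℝ × ℝ)} = 0 := by
    rw [← Prod.mk_zero_zero, ← Set.singleton_prod_singleton, Measure.prod_prod, h0, zero_mul]
  have h3 : gaT n ({(0 : ℝ × ℝ)} ×ˢ univ) = 0 := by
    rw [Measure.prod_prod, h2, zero_mul]
  have h4 : ({p : (ℝ × ℝ) × (Fin (n + 1) → ℝ) | ¬ p.1 ≠ 0}) = {(0 : ℝ × ℝ)} ×ˢ univ := by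
    ext p
    simp
  rw [ae_iff, h4, h3]

theorem int_W (hε : 0 < ε) (hε1 : ε ≤ 1) (hc : 0 ≤ c) (hG : Dat c (2 / ε) G)
    (hS : ConfS S μ) :
    ∑ i, ∫⁻ p, nsq (fderiv ℝ (Vf ε S G) (T n p) (bW n i)) ∂(gaT n) ≤
      ENNReal.ofReal (1 + ε) * (∫⁻ p, ENNReal.ofReal (2 / (n + 2) * kp (T n p) +
        2 / (n + 2) * ((n + 1) - kp (T n p)) * (c * Dd (2 / ε) S G (T n p))) ∂(gaT n) +
        ENNReal.ofReal ((n + 1) * n / (n + 2))) +
      ENNReal.ofReal (128 * ε * (n + 1)) * ∫⁻ p, ENNReal.ofReal (qq (T n p) ^ 2) ∂(gaT n) := by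
  have hTm : Measurable (T n) := (cont_T n).measurable
  have hkm : Measurable fun p => kp (T n p) := (IntW_kp_meas n).comp hTm
  have hDm : Measurable fun p => Dd (2 / ε) S G (T n p) := Dd_meas.comp hTm
  have hm : ∀ i, Measurable fun p => nsq (fderiv ℝ (Vf ε S G) (T n p) (bW n i)) := by
    intro i
    unfold nsq
    exact (((measurable_fderiv_apply_const ℝ (Vf ε S G) (bW n i)).comp hTm).norm.pow_const
      2).ennreal_ofReal
  rw [← lintegral_finsetSum _ fun i _ => hm i]
  have hA : Measurable fun p => ENNReal.ofReal (2 / (n + 2) * kp (T n p) +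
        2 / (n + 2) * ((n + 1) - kp (T n p)) * (c * Dd (2 / ε) S G (T n p))) := by
    refine Measurable.ennreal_ofReal ?_
    exact (hkm.const_mul _).add ((((measurable_const.sub hkm).const_mul _)).mul (hDm.const_mul c))
  have h1 : ∀ᵐ p ∂(gaT n), ∑ i, nsq (fderiv ℝ (Vf ε S G) (T n p) (bW n i)) ≤
      ENNReal.ofReal (1 + ε) * (ENNReal.ofReal (2 / (n + 2) * kp (T n p) +
        2 / (n + 2) * ((n + 1) - kp (T n p)) * (c * Dd (2 / ε) S G (T n p))) +
        ENNReal.ofReal ((n + 1) * n / (n + 2))) +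
      ENNReal.ofReal (128 * ε * (n + 1)) * ENNReal.ofReal (qq (T n p) ^ 2) := by
    filter_upwards [IntW_ae n] with p hp
    have hE := est_W hε hε1 hc hG hS p hp
    have hk := kp_mem (T n p)
    have hD := Dd_nonneg (R := 2 / ε) (S := S) (G := G) (T n p)
    have hn : (0 : ℝ) ≤ n := Nat.cast_nonneg n
    have h2 : 0 ≤ 2 / ((n : ℝ) + 2) * kp (T n p) := mul_nonneg (by positivity) hk.1
    have h3 : 0 ≤ 2 / ((n : ℝ) + 2) * ((n + 1) - kp (T n p)) * (c * Dd (2 / ε) S G (T n p)) :=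
      mul_nonneg (mul_nonneg (by positivity) (by linarith [hk.2])) (mul_nonneg hc hD)
    have h4 : 0 ≤ ((n : ℝ) + 1) * n / (n + 2) := by positivity
    simp only [nsq]
    rw [← ENNReal.ofReal_sum_of_nonneg (fun i _ => sq_nonneg _),
      ← ENNReal.ofReal_add (add_nonneg h2 h3) h4, ← ENNReal.ofReal_mul (by positivity),
      ← ENNReal.ofReal_mul (by positivity),
      ← ENNReal.ofReal_add (mul_nonneg (by positivity) (add_nonneg (add_nonneg h2 h3) h4))
        (by positivity)]
    refine ENNReal.ofReal_le_ofReal (hE.trans (le_of_eq ?_))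
    ring
  refine (lintegral_mono_ae h1).trans (le_of_eq ?_)
  have hm1 : Measurable fun p => ENNReal.ofReal (1 + ε) *
      (ENNReal.ofReal (2 / (n + 2) * kp (T n p) +
        2 / (n + 2) * ((n + 1) - kp (T n p)) * (c * Dd (2 / ε) S G (T n p))) +
        ENNReal.ofReal ((n + 1) * n / (n + 2))) := (hA.add_const _).const_mul _
  rw [lintegral_add_left hm1, lintegral_const_mul' _ _ ENNReal.ofReal_ne_top,
    lintegral_const_mul' _ _ ENNReal.ofReal_ne_top, lintegral_add_left hA, lintegral_const,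
    measure_univ, mul_one]

end MB
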