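import Pool.Agent.H16.MB.Mom

/-!
Row Kap (MP_c844e7, about 120 lines).  A finite Gaussian integral with a singularity of codimension at least five.

PROOF.  Let `q = ∑ i : Fin n, W i.castSucc ^ 2`, `n ≥ 5`.  Let `J` be the set of the indices `i.castSucc` with `i < 5`.  By the inequality of
arithmetic and geometric mean (`Real.inner_le_nnorm_mul_nnorm` is not needed: `Real.geom_mean_le_arith_mean_weighted` with weights `1/5`)
`q ≥ ∑_{J} W_i² ≥ 5 ∏_{J} |W_i|^(2/5)`, so `1/q² ≤ ∏_{J} |W_i|^(-4/5)` if all these `W_i` are not `0` (almost every `W`; `gad` has no atoms in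
each coordinate).  `(1 + t)^3 ≤ C exp(t/8)` for `t ≥ 0` with a suitable constant (e.g. `C = 24^3 exp(1/8)`, from `1 + u ≤ exp u`), so the
integrand is at most `C ∏_j exp(W_j²/8) φ_j(W_j)` with `φ_j x = |x|^(-4/5)` for `j ∈ J` and `1` otherwise.  The lintegral of a product of functions of
the coordinates against `Measure.pi` is the product of the lintegrals (`MeasureTheory.lintegral_fin_nat_prod_eq_prod` or similar; or
induction), and each factor is finite: `∫⁻ ofReal (|x|^(-4/5) exp(x²/8)) ∂ga`: the density is `(√(2π))⁻¹ exp(-x²/2)`;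
`|x|^(-4/5) exp(-3x²/8)` is integrable (`integrable_rpow_mul_exp_neg_mul_sq` for exponents `> -1` on `Ioi 0`, symmetric).
-/

set_option autoImplicit false

open MeasureTheory Set

namespace MB

theorem Kap_abs {b : ℝ} (hb : 0 < b) {s : ℝ} (hs : -1 < s) :
    Integrable (fun x : ℝ => |x| ^ s * Real.exp (-b * x ^ 2)) := by
  have h : IntegrableOn (fun x : ℝ => |x| ^ s * Real.exp (-b * x ^ 2)) (Ioi 0) := by
    refine (integrableOn_rpow_mul_exp_neg_mul_sq hb hs).congr_fun (fun x hx => ?_)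
      measurableSet_Ioi
    have : |x| = x := abs_of_pos hx
    simp only [this]
  rw [← integrableOn_univ, ← @Iio_union_Ici _ _ (0 : ℝ), integrableOn_union,
    integrableOn_Ici_iff_integrableOn_Ioi]
  refine ⟨?_, h⟩
  rw [← (Measure.measurePreserving_neg (volume : Measure ℝ)).integrableOn_comp_preimage
      (Homeomorph.neg ℝ).measurableEmbedding]
  simp only [Function.comp_def, neg_sq, neg_preimage, neg_Iio, neg_zero, abs_neg]
  exact h

theorem Kap_ga {s : ℝ} (hs : -1 < s) :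
    Integrable (fun x : ℝ => |x| ^ s * Real.exp (x ^ 2 / 8)) ga := by
  unfold ga
  rw [ProbabilityTheory.gaussianReal_of_var_ne_zero 0 one_ne_zero,
    integrable_withDensity_iff_integrable_smul' (ProbabilityTheory.measurable_gaussianPDF 0 1)
      (Filter.Eventually.of_forall fun x => ENNReal.ofReal_lt_top)]
  simp only [ProbabilityTheory.toReal_gaussianPDF, smul_eq_mul]
  have h := (Kap_abs (b := 3 / 8) (by norm_num) hs).const_mul ((√(2 * Real.pi * (1 : NNReal)))⁻¹)
  refine h.congr (Filter.Eventually.of_forall fun x => ?_)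
  simp only [ProbabilityTheory.gaussianPDFReal]
  have e : Real.exp (-(3 / 8) * x ^ 2) =
      Real.exp (-(x - 0) ^ 2 / (2 * ((1 : NNReal) : ℝ))) * Real.exp (x ^ 2 / 8) := by
    rw [← Real.exp_add]
    congr 1
    push_cast
    ring
  rw [e]
  ring

theorem Kap_cub {t : ℝ} (ht : 0 ≤ t) :
    (1 + t) ^ 3 ≤ 24 ^ 3 * Real.exp (1 / 8) * Real.exp (t / 8) := by
  have h1 : 1 + t ≤ 24 * Real.exp ((1 + t) / 24) := by
    have := Real.add_one_le_exp ((1 + t) / 24)
    linarith
  calc (1 + t) ^ 3 ≤ (24 * Real.exp ((1 + t) / 24)) ^ 3 := pow_le_pow_left₀ (by linarith) h1 3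
    _ = 24 ^ 3 * Real.exp (1 / 8) * Real.exp (t / 8) := by
        rw [mul_pow, ← Real.exp_nat_mul, mul_assoc, ← Real.exp_add]
        congr 2
        push_cast
        ring

theorem Kap_prod (n : ℕ) (hn : 5 ≤ n) (W : Fin (n + 1) → ℝ) (hW : ∀ j, W j ≠ 0) :
    1 / (∑ i : Fin n, W i.castSucc ^ 2) ^ 2 ≤
      ∏ j : Fin (n + 1), |W j| ^ (if (j : ℕ) < 5 then (-4 / 5 : ℝ) else 0) := by
  classical
  set S := ∑ i : Fin n, W i.castSucc ^ 2 with hS
  have hle : ∀ j : Fin (n + 1), (j : ℕ) < 5 → W j ^ 2 ≤ S := by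
    intro j hj
    have hj' : (j : ℕ) < n := by omega
    have : j = (⟨j, hj'⟩ : Fin n).castSucc := by
      ext
      rfl
    rw [this, hS]
    exact Finset.single_le_sum (f := fun i : Fin n => W i.castSucc ^ 2)
      (fun i _ => sq_nonneg _) (Finset.mem_univ _)
  have hpos : 0 < S := by
    have h0 : (0 : ℕ) < 5 := by norm_num
    have := hle 0 (by simp)
    exact lt_of_lt_of_le (by have := hW 0; positivity) this
  have e1 : ∏ j : Fin (n + 1), |W j| ^ (if (j : ℕ) < 5 then (-4 / 5 : ℝ) else 0) =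
      ∏ j ∈ Finset.univ.filter (fun j : Fin (n + 1) => (j : ℕ) < 5), |W j| ^ (-4 / 5 : ℝ) := by
    rw [Finset.prod_filter]
    refine Finset.prod_congr rfl fun j _ => ?_
    split_ifs
    · rfl
    · rw [Real.rpow_zero]
  have hcard : (Finset.univ.filter (fun j : Fin (n + 1) => (j : ℕ) < 5)).card = 5 := by
    rw [Fin.card_filter_val_lt]
    omega
  rw [e1]
  have e2 : 1 / S ^ 2 = ∏ _j ∈ Finset.univ.filter (fun j : Fin (n + 1) => (j : ℕ) < 5),
      S ^ (-2 / 5 : ℝ) := by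
    have e3 : (S ^ (-2 / 5 : ℝ)) ^ 5 = S ^ (-2 : ℝ) := by
      rw [← Real.rpow_natCast, ← Real.rpow_mul hpos.le]
      congr 1
      norm_num
    rw [Finset.prod_const, hcard, e3, Real.rpow_neg hpos.le, one_div]
    norm_num
  rw [e2]
  refine Finset.prod_le_prod (fun j _ => by positivity) fun j hj => ?_
  rw [Finset.mem_filter] at hj
  have h3 := hle j hj.2
  have h4 : 0 < W j ^ 2 := by have := hW j; positivity
  calc S ^ (-2 / 5 : ℝ) ≤ (W j ^ 2) ^ (-2 / 5 : ℝ) :=
        Real.rpow_le_rpow_of_nonpos h4 h3 (by norm_num)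
    _ = |W j| ^ (-4 / 5 : ℝ) := by
        rw [← sq_abs, ← Real.rpow_natCast, ← Real.rpow_mul (abs_nonneg _)]
        congr 1
        norm_num

theorem Kap_ne (n : ℕ) : ∀ᵐ W ∂(gad (n + 1)), ∀ j, W j ≠ 0 := by
  have := ProbabilityTheory.nullSingletonClass_gaussianReal (μ := 0) (v := 1) one_ne_zero
  rw [ae_all_iff]
  intro j
  have h : ∀ᵐ x ∂ga, x ≠ (0 : ℝ) := by
    rw [ae_iff]
    simp
  exact (Measure.tendsto_eval_ae_ae (μ := fun _ : Fin (n + 1) => ga) (i := j)).eventually h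

theorem kap_lt (n : ℕ) (hn : 5 ≤ n) :
    ∫⁻ W, ENNReal.ofReal ((1 + ∑ j, W j ^ 2) ^ 3 / (∑ i : Fin n, W i.castSucc ^ 2) ^ 2)
      ∂(gad (n + 1)) < ⊤ := by
  have hint : Integrable (fun W : Fin (n + 1) → ℝ => ∏ j : Fin (n + 1),
      (|W j| ^ (if (j : ℕ) < 5 then (-4 / 5 : ℝ) else 0) * Real.exp (W j ^ 2 / 8)))
      (gad (n + 1)) := by
    refine Integrable.fintype_prod (f := fun (j : Fin (n + 1)) (x : ℝ) =>
      |x| ^ (if (j : ℕ) < 5 then (-4 / 5 : ℝ) else 0) * Real.exp (x ^ 2 / 8)) (fun j => ?_)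
    apply Kap_ga
    split_ifs <;> norm_num
  have hint2 := hint.const_mul (24 ^ 3 * Real.exp (1 / 8))
  refine lt_of_le_of_lt (lintegral_mono_ae ?_) hint2.lintegral_lt_top
  filter_upwards [Kap_ne n] with W hW
  apply ENNReal.ofReal_le_ofReal
  rw [Finset.prod_mul_distrib]
  have h1 := Kap_prod n hn W hW
  have h2 := Kap_cub (t := ∑ j, W j ^ 2) (Finset.sum_nonneg fun j _ => sq_nonneg _)
  have h3 : Real.exp ((∑ j, W j ^ 2) / 8) = ∏ j, Real.exp (W j ^ 2 / 8) := by
    rw [Finset.sum_div, Real.exp_sum]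
  rw [← h3, div_eq_mul_one_div]
  calc (1 + ∑ j, W j ^ 2) ^ 3 * (1 / (∑ i : Fin n, W i.castSucc ^ 2) ^ 2) ≤
        (24 ^ 3 * Real.exp (1 / 8) * Real.exp ((∑ j, W j ^ 2) / 8)) *
        ∏ j : Fin (n + 1), |W j| ^ (if (j : ℕ) < 5 then (-4 / 5 : ℝ) else 0) :=
          mul_le_mul h2 h1 (by positivity) (by positivity)
    _ = _ := by ring

end MB
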