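import Pool.Agent.H16.MB.Defs

/-!
Row Mob (MP_c844e7, about 120 lines).  The conformal maps `mob a x = ((1-‖a‖²)/‖x-a‖²) (x-a) - a`, `‖a‖ < 1`, of the unit sphere.

PROOF.  Let `‖x‖ = 1`, `q = ‖x-a‖² = 1 - 2⟪x,a⟫ + ‖a‖² > 0` (`x ≠ a` as `‖a‖ < 1`), `k = 1-‖a‖² > 0`.  `‖mob a x‖² = k²/q - 2(k/q)⟪x-a,a⟫ + ‖a‖²`, and
`2⟪x-a,a⟫ = 2⟪x,a⟫ - 2‖a‖² = 1 + ‖a‖² - q - 2‖a‖² = k - q`, so it is `k²/q - (k/q)(k-q) + ‖a‖² = k + ‖a‖² = 1`.
Injective on the sphere: if `mob a x = mob a y` then `(x-a)/‖x-a‖² = (y-a)/‖y-a‖²`; taking norms `‖x-a‖ = ‖y-a‖`, so `x = y`.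
Derivative at `x` in the direction `v`: `k(v/q - 2⟪x-a,v⟫(x-a)/q²)`, of norm `(k/q)‖v‖` (the map `v ↦ v - 2⟪w,v⟫w/‖w‖²` is an isometry: expand
the square of the norm), for every `v`.  `conf_mob`: compose (`DifferentiableAt.comp`, `fderiv_comp`): norm of the derivative is
`((1-‖a‖²)/‖S z-a‖²) μ z ‖h‖`.
-/

set_option autoImplicit false

open MeasureTheory Set

namespace MB

variable {n : ℕ}

private theorem Mob_k {a : E n} (ha : ‖a‖ < 1) : 0 < 1 - ‖a‖ ^ 2 := by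
  have h0 := norm_nonneg a
  nlinarith

private theorem Mob_q {a x : E n} (ha : ‖a‖ < 1) (hx : ‖x‖ = 1) : 0 < ‖x - a‖ := by
  rw [norm_pos_iff, sub_ne_zero]
  rintro rfl
  rw [hx] at ha
  exact lt_irrefl _ ha

/-- The derivative of the conformal map. -/
private noncomputable def Mob_D (a x : E n) : E n →L[ℝ] E n :=
  ((1 - ‖a‖ ^ 2) / ‖x - a‖ ^ 2) • ContinuousLinearMap.id ℝ (E n) +
    ((-(1 - ‖a‖ ^ 2) / (‖x - a‖ ^ 2) ^ 2) • ((2 : ℝ) • innerSL ℝ (x - a))).smulRight (x - a)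

private theorem Mob_hasFDerivAt {a x : E n} (hq : 0 < ‖x - a‖) :
    HasFDerivAt (mob a) (Mob_D a x) x := by
  have h1 : HasFDerivAt (fun y : E n => y - a) (ContinuousLinearMap.id ℝ (E n)) x :=
    (hasFDerivAt_id x).sub_const a
  have h2 : HasFDerivAt (fun y : E n => ‖y - a‖ ^ 2) ((2 : ℝ) • innerSL ℝ (x - a)) x := by
    have h3 := h1.norm_sq
    have h4 : (2 • (innerSL ℝ (x - a)).comp (ContinuousLinearMap.id ℝ (E n)) : E n →L[ℝ] ℝ) =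
        (2 : ℝ) • innerSL ℝ (x - a) := by
      ext v
      simp
    rw [← h4]
    exact h3
  have h3 : HasDerivAt (fun t : ℝ => (1 - ‖a‖ ^ 2) / t)
      (-(1 - ‖a‖ ^ 2) / (‖x - a‖ ^ 2) ^ 2) (‖x - a‖ ^ 2) := by
    have h4 := (hasDerivAt_inv (pow_pos hq 2).ne').const_mul (1 - ‖a‖ ^ 2)
    have h5 : (1 - ‖a‖ ^ 2) * -((‖x - a‖ ^ 2) ^ 2)⁻¹ = -(1 - ‖a‖ ^ 2) / (‖x - a‖ ^ 2) ^ 2 := by
      rw [div_eq_mul_inv]
      ring
    rw [← h5]
    exact h4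
  have h4 := h3.comp_hasFDerivAt x h2
  have h5 := (h4.smul h1).sub_const a
  exact h5

private theorem Mob_norm {a x : E n} (ha : ‖a‖ < 1) (hq : 0 < ‖x - a‖) (v : E n) :
    ‖Mob_D a x v‖ = (1 - ‖a‖ ^ 2) / ‖x - a‖ ^ 2 * ‖v‖ := by
  have hk := Mob_k ha
  have h1 : Mob_D a x v = ((1 - ‖a‖ ^ 2) / ‖x - a‖ ^ 2) • v +
      (-(1 - ‖a‖ ^ 2) / (‖x - a‖ ^ 2) ^ 2 * (2 * inner ℝ (x - a) v)) • (x - a) := by
    simp [Mob_D, inner_sub_left]
  have h2 : ‖Mob_D a x v‖ ^ 2 = ((1 - ‖a‖ ^ 2) / ‖x - a‖ ^ 2 * ‖v‖) ^ 2 := by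
    rw [h1, norm_add_sq_real, norm_smul, norm_smul, real_inner_smul_left, real_inner_smul_right,
      real_inner_comm (x - a) v, mul_pow, mul_pow, Real.norm_eq_abs, Real.norm_eq_abs, sq_abs,
      sq_abs]
    generalize inner ℝ (x - a) v = s
    generalize 1 - ‖a‖ ^ 2 = k
    have hq' := hq.ne'
    field_simp
    ring
  have h3 : 0 ≤ (1 - ‖a‖ ^ 2) / ‖x - a‖ ^ 2 * ‖v‖ := by positivity
  exact (sq_eq_sq₀ (norm_nonneg _) h3).1 h2

theorem norm_mob (a x : E n) (ha : ‖a‖ < 1) (hx : ‖x‖ = 1) : ‖mob a x‖ = 1 := by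
  have hq := Mob_q ha hx
  have h1 : 2 * inner ℝ (x - a) a = 1 - ‖x - a‖ ^ 2 - ‖a‖ ^ 2 := by
    have h2 := norm_add_sq_real (x - a) a
    rw [sub_add_cancel, hx] at h2
    linarith
  have h2 : ‖mob a x‖ ^ 2 = 1 := by
    unfold mob
    rw [norm_sub_sq_real, norm_smul, real_inner_smul_left, mul_pow, Real.norm_eq_abs, sq_abs]
    have h3 : 2 * ((1 - ‖a‖ ^ 2) / ‖x - a‖ ^ 2 * inner ℝ (x - a) a) =
        (1 - ‖a‖ ^ 2) / ‖x - a‖ ^ 2 * (2 * inner ℝ (x - a) a) := by ring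
    rw [h3, h1]
    have hq' := hq.ne'
    field_simp
    ring
  have h3 : ‖mob a x‖ ^ 2 = 1 ^ 2 := by rw [h2, one_pow]
  exact (sq_eq_sq₀ (norm_nonneg _) zero_le_one).1 h3

theorem cont_mob (a : E n) (ha : ‖a‖ < 1) : ContinuousOn (mob a) (Metric.sphere 0 1) := by
  intro x hx
  have hx1 : ‖x‖ = 1 := by simpa using hx
  exact (Mob_hasFDerivAt (Mob_q ha hx1)).continuousAt.continuousWithinAt

theorem conf_mob {S : E n → E (n + 1)} {μ : E n → ℝ} (h : ConfS S μ) (a : E (n + 1))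
    (ha : ‖a‖ < 1) :
    ConfS (fun z => mob a (S z)) (fun z => (1 - ‖a‖ ^ 2) / ‖S z - a‖ ^ 2 * μ z) := by
  have hk := Mob_k ha
  have hq : ∀ z, 0 < ‖S z - a‖ := fun z => Mob_q ha (h.norm z)
  have hD : ∀ z, HasFDerivAt (fun z => mob a (S z)) ((Mob_D a (S z)).comp (fderiv ℝ S z)) z :=
    fun z => (Mob_hasFDerivAt (hq z)).comp z (h.diff z).hasFDerivAt
  refine ⟨fun z => (hD z).differentiableAt, fun z => norm_mob a _ ha (h.norm z), ?_, fun z => ?_,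
    fun z v => ?_⟩
  · intro z w hzw
    have h1 : ((1 - ‖a‖ ^ 2) / ‖S z - a‖ ^ 2) • (S z - a) =
        ((1 - ‖a‖ ^ 2) / ‖S w - a‖ ^ 2) • (S w - a) := by
      have h2 : mob a (S z) = mob a (S w) := hzw
      unfold mob at h2
      exact sub_left_injective h2
    have h2 := congrArg norm h1
    have hz := (hq z).ne'
    have hw := (hq w).ne'
    have hp1 : 0 < (1 - ‖a‖ ^ 2) / ‖S z - a‖ ^ 2 := by
      have := hq z
      positivity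
    have hp2 : 0 < (1 - ‖a‖ ^ 2) / ‖S w - a‖ ^ 2 := by
      have := hq w
      positivity
    rw [norm_smul, norm_smul, Real.norm_eq_abs, Real.norm_eq_abs, abs_of_pos hp1,
      abs_of_pos hp2] at h2
    have h3 : ‖S z - a‖ = ‖S w - a‖ := by
      have e1 : (1 - ‖a‖ ^ 2) / ‖S z - a‖ ^ 2 * ‖S z - a‖ = (1 - ‖a‖ ^ 2) / ‖S z - a‖ := by
        field_simp
      have e2 : (1 - ‖a‖ ^ 2) / ‖S w - a‖ ^ 2 * ‖S w - a‖ = (1 - ‖a‖ ^ 2) / ‖S w - a‖ := by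
        field_simp
      rw [e1, e2, div_eq_div_iff hz hw] at h2
      exact (mul_left_cancel₀ hk.ne' h2).symm
    rw [h3] at h1
    have h4 := smul_right_injective (E (n + 1)) hp2.ne' h1
    exact h.inj (sub_left_injective h4)
  · have h1 := h.pos z
    have h2 := hq z
    positivity
  · rw [(hD z).fderiv, ContinuousLinearMap.comp_apply, Mob_norm ha (hq z), h.conf, mul_assoc]

end MB
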