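import Pool.Agent.H16.MB.Lft

/-!
Row Pt (MP_c844e7, about 70 lines).  The pointwise estimate for the lift.

PROOF.  `X ∈ Om n R`: `0 < ‖X‖ + lst X`, `y = P X` in the ball, `¬ ax X`, so `¬ ax y` (`P_ax`), `G` is differentiable at `y` (`hG.diff`).  Let
`g = (c |det DG(y)|)^(1/(n+2))` (real power, `g ≥ 0`, `g^(n+2) = c |det DG|`, `Real.rpow_natCast`/`Real.rpow_mul`), `k = ‖X‖ μ(G y) > 0`,
`ν = (‖X‖+lst X)⁻¹`, `Λ = k ν g`.  By `lift_det`: `Λ^(n+2) = (kν)^(n+2) c |det DG| = c |det DU|`.  For `e` with `‖e‖ = 1`, `⟪e, th X⟫ = 0`: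
`h = DP(X) e` satisfies `⟪h, th y⟫ = 0` (`P_th`), so `hG.bnd` gives `‖DG h‖^(n+2) ≤ (g ‖h‖)^(n+2)`, hence `‖DG h‖ ≤ g ‖h‖`
(`pow_le_pow_left₀` contrapositive: `le_of_pow_le_pow_left₀`), and `‖h‖² = ν² (1 - (⟪X,e⟫/‖X‖)²)` (`P_norm`).  `lift_fderiv`:
`‖DU e‖² = α + k² ‖DG h‖² ≤ α + k² g² ν² (1-α) = α + (1-α) Λ²`, `α = (⟪X,e⟫/‖X‖)²`.
-/

set_option autoImplicit false

open MeasureTheory Set

namespace MB

theorem pt {n : ℕ} {c R : ℝ} {G : E (n + 2) → E (n + 2)} (hG : Dat c R G) (hc : 0 ≤ c)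
    {S : E (n + 2) → E (n + 3)} {μ : E (n + 2) → ℝ} (hS : ConfS S μ) (X : E (n + 3))
    (hX : X ∈ Om n R) :
    ∃ Λ : ℝ, 0 ≤ Λ ∧ Λ ^ (n + 2) = c * |(fderiv ℝ (lift S G) X).det| ∧
      ∀ e : E (n + 3), ‖e‖ = 1 → inner ℝ e (th X) = 0 →
        ‖fderiv ℝ (lift S G) X e‖ ^ 2 ≤
          (inner ℝ X e / ‖X‖) ^ 2 + (1 - (inner ℝ X e / ‖X‖) ^ 2) * Λ ^ 2 := by
  obtain ⟨hX1, hX2, hX3⟩ := hX
  have hy : ¬ ax (P X) := fun h => hX3 ((P_ax X hX1).1 h)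
  have hd := hG.diff _ hX2 hy
  have hc' : 0 ≤ c * |(fderiv ℝ G (P X)).det| := mul_nonneg hc (abs_nonneg _)
  obtain ⟨g, hg0, hgp⟩ : ∃ g : ℝ, 0 ≤ g ∧ g ^ (n + 2) = c * |(fderiv ℝ G (P X)).det| := by
    refine ⟨(c * |(fderiv ℝ G (P X)).det|) ^ (((n + 2 : ℕ) : ℝ)⁻¹), Real.rpow_nonneg hc' _, ?_⟩
    exact Real.rpow_inv_natCast_pow hc' (by omega)
  have hk : 0 ≤ ‖X‖ * μ (G (P X)) := mul_nonneg (norm_nonneg _) (hS.pos _).le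
  have hν : 0 ≤ (‖X‖ + lst X)⁻¹ := (inv_pos.2 hX1).le
  refine ⟨‖X‖ * μ (G (P X)) * (‖X‖ + lst X)⁻¹ * g, mul_nonneg (mul_nonneg hk hν) hg0, ?_, ?_⟩
  · rw [lift_det hS G X hX1 hd, mul_pow, hgp]
    ring
  · intro e he hth
    have h1 := hG.bnd _ hX2 hy (fderiv ℝ P X e) (P_th X e hX1 hth)
    have h2 : ‖fderiv ℝ G (P X) (fderiv ℝ P X e)‖ ≤ g * ‖fderiv ℝ P X e‖ := by
      apply le_of_pow_le_pow_left₀ (n := n + 2) (by omega) (mul_nonneg hg0 (norm_nonneg _))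
      rw [mul_pow, hgp]
      exact h1
    have h3 := P_norm X e hX1
    rw [he, one_pow] at h3
    rw [lift_fderiv hS G X e hX1 hd]
    have h4 : ‖fderiv ℝ G (P X) (fderiv ℝ P X e)‖ ^ 2 ≤ g ^ 2 * ‖fderiv ℝ P X e‖ ^ 2 := by
      rw [← mul_pow]
      exact pow_le_pow_left₀ (norm_nonneg _) h2 2
    rw [h3] at h4
    have h5 := mul_le_mul_of_nonneg_left h4 (sq_nonneg (‖X‖ * μ (G (P X))))
    have h6 : (‖X‖ * μ (G (P X))) ^ 2 *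
        (g ^ 2 * (((‖X‖ + lst X)⁻¹) ^ 2 * (1 - (inner ℝ X e / ‖X‖) ^ 2))) =
        (1 - (inner ℝ X e / ‖X‖) ^ 2) * (‖X‖ * μ (G (P X)) * (‖X‖ + lst X)⁻¹ * g) ^ 2 := by
      ring
    rw [h6] at h5
    exact add_le_add_right h5 _

end MB
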