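import Pool.Agent.H16.MB.Defs

/-!
Row Sg (MP_c844e7, about 120 lines).  Inverse stereographic projection `sg z = (1+‖z‖²)⁻¹ (2 emb z + (1-‖z‖²) eL)`.

PROOF.  Use the lemmas of `Defs`: `inner_eq`, `norm_sq_eq`, `ini_emb`, `ini_eL`, `lst_emb`, `lst_eL`, `emb_ini`, `norm_emb`.  `ini (sg z) = 2(1+‖z‖²)⁻¹ z`,
`lst (sg z) = (1-‖z‖²)/(1+‖z‖²)`, so `‖sg z‖² = (4‖z‖² + (1-‖z‖²)²)/(1+‖z‖²)² = 1`.  `P (t • sg z)` for `t > 0`: `‖t • sg z‖ = t`,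
`t + lst = 2t/(1+‖z‖²) > 0`, so `P = ((1+‖z‖²)/(2t)) · t · 2/(1+‖z‖²) z = z`.  `sg_P`: with `r = ‖X‖`, `l = lst X`, `r + l > 0`,
`‖P X‖² = (r²-l²)/(r+l)² = (r-l)/(r+l)`, `1+‖P X‖² = 2r/(r+l)`, `1-‖P X‖² = 2l/(r+l)`; hence `r • sg (P X) = emb (ini X) + l • eL = X`
(`emb_ini`; `r > 0` because `r ≥ |l|` and `r + l > 0` give `r > 0`).  `conf_sg`: differentiable as a composition (norm squared is smooth);
injective by `P_sg` with `t = 1`.  Derivative: with `u = ⟪z,h⟫`, `D = 1+‖z‖²`: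
`fderiv sg z h = -2u D⁻² (2 emb z + (1-‖z‖²) eL) + D⁻¹ (2 emb h - 2u eL)`; norm squared: the first components and the last component
give `4‖h‖²/D²` (use `inner_eq`, or compute `‖·‖²` via `norm_sq_eq`: `ini = -4u D⁻² z + 2 D⁻¹ h`, `lst = -2u D⁻²(1-‖z‖²) - 2u D⁻¹ = -4u D⁻²`, and
`‖-4uD⁻²z + 2D⁻¹h‖² + 16u²D⁻⁴ = 16u²D⁻⁴‖z‖² - 16u²D⁻³ + 4D⁻²‖h‖² + 16u²D⁻⁴ = 4D⁻²‖h‖²`).
-/

set_option autoImplicit false

open MeasureTheory Set

namespace MB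

variable {n : ℕ}

lemma Sg_D (z : E n) : 0 < 1 + ‖z‖ ^ 2 := by positivity

lemma Sg_ini (z : E n) : ini n (sg z) = (2 * (1 + ‖z‖ ^ 2)⁻¹) • z := by
  unfold sg
  rw [map_smul, map_add, map_smul, map_smul, ini_emb, ini_eL, smul_zero, add_zero, smul_smul,
    mul_comm]

lemma Sg_lst (z : E n) : lst (sg z) = (1 - ‖z‖ ^ 2) * (1 + ‖z‖ ^ 2)⁻¹ := by
  unfold sg
  rw [lst_smul, lst_add, lst_smul, lst_smul, lst_emb, lst_eL]
  ring

theorem norm_sg (z : E n) : ‖sg z‖ = 1 := by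
  have hD := Sg_D z
  have h : ‖sg z‖ ^ 2 = 1 ^ 2 := by
    rw [norm_sq_eq, Sg_ini, Sg_lst, norm_smul, mul_pow, Real.norm_eq_abs, sq_abs]
    field_simp
    ring
  exact (sq_eq_sq₀ (norm_nonneg _) zero_le_one).1 h

lemma Sg_sum (z : E n) (t : ℝ) (ht : 0 < t) :
    ‖t • sg z‖ + lst (t • sg z) = 2 * t * (1 + ‖z‖ ^ 2)⁻¹ := by
  have hD := Sg_D z
  rw [norm_smul, norm_sg, lst_smul, Sg_lst, Real.norm_eq_abs, abs_of_pos ht]
  field_simp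
  ring

theorem P_sg (z : E n) (t : ℝ) (ht : 0 < t) : P (t • sg z) = z := by
  have hD := Sg_D z
  unfold P
  rw [Sg_sum z t ht, map_smul, Sg_ini, smul_smul, smul_smul]
  have : (2 * t * (1 + ‖z‖ ^ 2)⁻¹)⁻¹ * t * (2 * (1 + ‖z‖ ^ 2)⁻¹) = 1 := by
    field_simp
  rw [this, one_smul]

theorem sg_pos (z : E n) (t : ℝ) (ht : 0 < t) : 0 < ‖t • sg z‖ + lst (t • sg z) := by
  have hD := Sg_D z
  rw [Sg_sum z t ht]
  positivity

lemma Sg_norm_pos (X : E (n + 1)) (hX : 0 < ‖X‖ + lst X) : 0 < ‖X‖ := by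
  rcases (norm_nonneg X).lt_or_eq with h | h
  · exact h
  · exfalso
    have h0 : X = 0 := norm_eq_zero.1 h.symm
    rw [h0, norm_zero] at hX
    have : lst (0 : E (n + 1)) = 0 := rfl
    rw [this] at hX
    simp at hX

lemma Sg_normP (X : E (n + 1)) (hX : 0 < ‖X‖ + lst X) :
    ‖P X‖ ^ 2 = (‖X‖ - lst X) / (‖X‖ + lst X) := by
  unfold P
  have h := norm_sq_eq X
  rw [norm_smul, mul_pow, Real.norm_eq_abs, sq_abs]
  have h2 : ‖ini n X‖ ^ 2 = (‖X‖ - lst X) * (‖X‖ + lst X) := by linear_combination -h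
  rw [h2]
  field_simp

theorem one_add_P (X : E (n + 1)) (hX : 0 < ‖X‖ + lst X) :
    1 + ‖P X‖ ^ 2 = 2 * ‖X‖ / (‖X‖ + lst X) := by
  rw [Sg_normP X hX]
  field_simp
  ring

theorem sg_P (X : E (n + 1)) (hX : 0 < ‖X‖ + lst X) : ‖X‖ • sg (P X) = X := by
  have hr := Sg_norm_pos X hX
  have h1 := one_add_P X hX
  have h2 : 1 - ‖P X‖ ^ 2 = 2 * lst X / (‖X‖ + lst X) := by
    rw [Sg_normP X hX]
    field_simp
    ring
  unfold sg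
  rw [h1, h2]
  have h3 : emb n (P X) = (‖X‖ + lst X)⁻¹ • emb n (ini n X) := by
    unfold P
    rw [map_smul]
  rw [h3, smul_smul, smul_add, smul_smul, smul_smul]
  conv_rhs => rw [← emb_ini X]
  rw [smul_smul]
  congr 1
  · have : ‖X‖ * (2 * ‖X‖ / (‖X‖ + lst X))⁻¹ * 2 * (‖X‖ + lst X)⁻¹ = 1 := by
      field_simp
    rw [this, one_smul]
  · have : ‖X‖ * (2 * ‖X‖ / (‖X‖ + lst X))⁻¹ * (2 * lst X / (‖X‖ + lst X)) = lst X := by
      field_simp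
    rw [this]

lemma Sg_hasFDerivAt (z : E n) :
    HasFDerivAt (sg : E n → E (n + 1)) ((1 + ‖z‖ ^ 2)⁻¹ • ((2 : ℝ) • emb n +
      (-(2 • innerSL ℝ z)).smulRight (eL n)) +
      (-((1 + ‖z‖ ^ 2) ^ 2)⁻¹ • (2 • innerSL ℝ z)).smulRight
        ((2 : ℝ) • emb n z + (1 - ‖z‖ ^ 2) • eL n)) z := by
  have hD := Sg_D z
  have h0 : HasFDerivAt (fun z : E n => ‖z‖ ^ 2) (2 • innerSL ℝ z) z :=
    (hasStrictFDerivAt_norm_sq z).hasFDerivAt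
  have h1 : HasFDerivAt (fun z : E n => 1 + ‖z‖ ^ 2) (2 • innerSL ℝ z) z := h0.const_add 1
  have h2 : HasFDerivAt (fun z : E n => (1 + ‖z‖ ^ 2)⁻¹)
      (-((1 + ‖z‖ ^ 2) ^ 2)⁻¹ • (2 • innerSL ℝ z)) z :=
    (hasDerivAt_inv hD.ne').comp_hasFDerivAt z h1
  have h3 : HasFDerivAt (fun z : E n => (2 : ℝ) • emb n z) ((2 : ℝ) • emb n) z :=
    ((2 : ℝ) • emb n).hasFDerivAt
  have h4 : HasFDerivAt (fun z : E n => (1 - ‖z‖ ^ 2) • eL n)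
      ((-(2 • innerSL ℝ z)).smulRight (eL n)) z := (h0.const_sub 1).smul_const (eL n)
  exact h2.smul (h3.add h4)

lemma Sg_fderiv (z h : E n) : fderiv ℝ (sg : E n → E (n + 1)) z h =
    (1 + ‖z‖ ^ 2)⁻¹ • ((2 : ℝ) • emb n h + (-(2 * inner ℝ z h)) • eL n) +
      (-((1 + ‖z‖ ^ 2) ^ 2)⁻¹ * (2 * inner ℝ z h)) •
        ((2 : ℝ) • emb n z + (1 - ‖z‖ ^ 2) • eL n) := by
  rw [(Sg_hasFDerivAt z).fderiv]
  simp only [ContinuousLinearMap.add_apply, ContinuousLinearMap.smul_apply,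
    ContinuousLinearMap.smulRight_apply, ContinuousLinearMap.neg_apply, innerSL_apply_apply,
    smul_eq_mul, nsmul_eq_mul, Nat.cast_ofNat]

theorem conf_sg : ConfS (sg : E n → E (n + 1)) (fun z => 2 / (1 + ‖z‖ ^ 2)) where
  diff z := (Sg_hasFDerivAt z).differentiableAt
  norm := norm_sg
  inj x y hxy := by
    have h1 := P_sg x 1 one_pos
    have h2 := P_sg y 1 one_pos
    rw [one_smul] at h1 h2
    rw [← h1, ← h2, hxy]
  pos z := by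
    have hD := Sg_D z
    positivity
  conf z h := by
    have hD := Sg_D z
    have h1 : ‖fderiv ℝ (sg : E n → E (n + 1)) z h‖ ^ 2 = (2 / (1 + ‖z‖ ^ 2) * ‖h‖) ^ 2 := by
      rw [Sg_fderiv, norm_sq_eq]
      have hi : ini n ((1 + ‖z‖ ^ 2)⁻¹ • ((2 : ℝ) • emb n h + (-(2 * inner ℝ z h)) • eL n) +
          (-((1 + ‖z‖ ^ 2) ^ 2)⁻¹ * (2 * inner ℝ z h)) •
            ((2 : ℝ) • emb n z + (1 - ‖z‖ ^ 2) • eL n)) =
          ((1 + ‖z‖ ^ 2)⁻¹ * 2) • h +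
            (-((1 + ‖z‖ ^ 2) ^ 2)⁻¹ * (2 * inner ℝ z h) * 2) • z := by
        rw [map_add, map_smul, map_smul, map_add, map_add, map_smul, map_smul, map_smul, map_smul,
          ini_emb, ini_emb, ini_eL, smul_zero, smul_zero, add_zero, add_zero, smul_smul, smul_smul]
      have hl : lst ((1 + ‖z‖ ^ 2)⁻¹ • ((2 : ℝ) • emb n h + (-(2 * inner ℝ z h)) • eL n) +
          (-((1 + ‖z‖ ^ 2) ^ 2)⁻¹ * (2 * inner ℝ z h)) •
            ((2 : ℝ) • emb n z + (1 - ‖z‖ ^ 2) • eL n)) =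
          (1 + ‖z‖ ^ 2)⁻¹ * (-(2 * inner ℝ z h)) +
            (-((1 + ‖z‖ ^ 2) ^ 2)⁻¹ * (2 * inner ℝ z h)) * (1 - ‖z‖ ^ 2) := by
        rw [lst_add, lst_smul, lst_smul, lst_add, lst_add, lst_smul, lst_smul, lst_smul, lst_smul,
          lst_emb, lst_emb, lst_eL]
        ring
      rw [hi, hl, norm_add_sq_real, norm_smul, norm_smul, real_inner_smul_left,
        real_inner_smul_right, real_inner_comm z h, mul_pow, mul_pow, mul_pow, Real.norm_eq_abs,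
        Real.norm_eq_abs, sq_abs, sq_abs]
      field_simp
      ring
    exact (sq_eq_sq₀ (norm_nonneg _) (by positivity)).1 h1

end MB
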