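import Pool.Agent.H16.MB.Sg

/-!
Row Stp (MP_c844e7, about 120 lines).  The derivative of `P X = (‖X‖ + lst X)⁻¹ ini X` where `‖X‖ + lst X > 0` (then `X ≠ 0`).

PROOF.  `X ≠ 0`, the norm is differentiable at `X` with derivative `e ↦ ⟪X,e⟫/‖X‖` (`hasStrictFDerivAt_norm_sq`, `HasFDerivAt.sqrt`, or the lemma for the norm),
`lst` and `ini` are linear.  With `r = ‖X‖`, `l = lst X`, `g = ⟪X,e⟫/r`: `DP e = (r+l)⁻¹ ini e - (r+l)⁻² (g + lst e) ini X`.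
Norm: `‖DP e‖² (r+l)² = ‖ini e‖² - 2 (g+lst e) ⟪ini e, ini X⟫/(r+l) + (g+lst e)² ‖ini X‖²/(r+l)²`, with `⟪ini e, ini X⟫ = r g - l (lst e)`,
`‖ini e‖² = ‖e‖² - (lst e)²`, `‖ini X‖² = r² - l² = (r-l)(r+l)` (`inner_eq`, `norm_sq_eq`); multiply by `r+l`:
`(‖e‖² - (lst e)²)(r+l) - 2(g+lst e)(r g - l lst e) + (g+lst e)²(r-l) = (r+l)(‖e‖² - g²)` (ring identity).  This is `P_norm`.
`P_th`: `th` is supported on the coordinates `0, 1`: `⟪y, th x⟫ = -y 0 * x 1 + y 1 * x 0` (`PiLp.inner_apply`, `Fin.sum_univ_succ`), `ini X 0 = X 0`,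
`ini X 1 = X 1` (as `Fin.castSucc 0 = 0`, `Fin.castSucc 1 = 1`), so `⟪ini e, th (ini X)⟫ = ⟪e, th X⟫ = 0`, `⟪ini X, th (ini X)⟫ = 0`, and
`th (P X) = (r+l)⁻¹ th (ini X)`.  `P_ax`: `P X 0 = (r+l)⁻¹ X 0`.
-/

set_option autoImplicit false

open MeasureTheory Set

namespace MB

theorem inner_th {m : ℕ} (y x : E (m + 2)) : inner ℝ y (th x) = -(y 0 * x 1) + y 1 * x 0 := by
  rw [PiLp.inner_apply, Fin.sum_univ_succ, Fin.sum_univ_succ]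
  have h0 : th x 0 = -x 1 := by simp [th]
  have h1 : th x (Fin.succ 0) = x 0 := by simp [th]
  have h2 : ∀ i : Fin m, th x i.succ.succ = 0 := by
    intro i
    have e1 : (i.succ.succ : Fin (m + 2)) ≠ 0 := Fin.succ_ne_zero _
    have e2 : (i.succ.succ : Fin (m + 2)) ≠ 1 := by
      intro h
      rw [← Fin.succ_zero_eq_one, Fin.succ_inj] at h
      exact Fin.succ_ne_zero _ h
    simp [th, e1, e2]
  rw [h0, h1]
  have h3 : ∑ i : Fin m, inner ℝ (y i.succ.succ) (th x i.succ.succ) = 0 := by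
    refine Finset.sum_eq_zero fun i _ => ?_
    rw [h2 i, inner_zero_right]
  rw [h3]
  have h4 : ∀ a b : ℝ, inner ℝ a b = a * b := fun a b => by
    rw [real_inner_comm]
    rfl
  rw [h4, h4, Fin.succ_zero_eq_one]
  ring

/-- the last coordinate as a linear form -/
noncomputable def Stp_L (n : ℕ) : E (n + 1) →L[ℝ] ℝ := EuclideanSpace.proj (Fin.last n)

theorem Stp_ne {n : ℕ} {X : E (n + 1)} (hX : 0 < ‖X‖ + lst X) : X ≠ 0 := by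
  rintro rfl
  have : lst (0 : E (n + 1)) = 0 := rfl
  rw [this, norm_zero, add_zero] at hX
  exact lt_irrefl _ hX

theorem Stp_norm {n : ℕ} {X : E (n + 1)} (h0 : X ≠ 0) :
    HasFDerivAt (fun Y : E (n + 1) => ‖Y‖) (‖X‖⁻¹ • innerSL ℝ X) X := by
  have h1 := (hasStrictFDerivAt_norm_sq (F := E (n + 1)) X).hasFDerivAt
  have hr : ‖X‖ ≠ 0 := norm_ne_zero_iff.2 h0
  have h2 := h1.sqrt (by positivity)
  have e1 : (fun y : E (n + 1) => Real.sqrt (‖y‖ ^ 2)) = fun y => ‖y‖ := by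
    funext y
    exact Real.sqrt_sq (norm_nonneg y)
  rw [e1] at h2
  refine h2.congr_fderiv ?_
  rw [Real.sqrt_sq (norm_nonneg X), two_smul ℕ, ← two_smul ℝ (innerSL ℝ X), smul_smul]
  congr 1
  field_simp

theorem Stp_has {n : ℕ} (X : E (n + 1)) (hX : 0 < ‖X‖ + lst X) :
    HasFDerivAt P ((‖X‖ + lst X)⁻¹ • ini n +
      ((-((‖X‖ + lst X) ^ 2)⁻¹) • (‖X‖⁻¹ • innerSL ℝ X + Stp_L n)).smulRight (ini n X)) X := by
  have h1 := (Stp_norm (Stp_ne hX)).add (Stp_L n).hasFDerivAt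
  have h2 := (hasDerivAt_inv hX.ne').comp_hasFDerivAt X h1
  exact h2.smul (ini n).hasFDerivAt

theorem Stp_fd {n : ℕ} (X e : E (n + 1)) (hX : 0 < ‖X‖ + lst X) :
    fderiv ℝ P X e = (‖X‖ + lst X)⁻¹ • ini n e -
      (((‖X‖ + lst X) ^ 2)⁻¹ * (inner ℝ X e / ‖X‖ + lst e)) • ini n X := by
  rw [(Stp_has X hX).fderiv]
  have e1 : Stp_L n e = lst e := rfl
  simp only [add_apply, smul_apply,
    ContinuousLinearMap.smulRight_apply, innerSL_apply_apply, smul_eq_mul, e1]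
  rw [sub_eq_add_neg, ← neg_smul]
  congr 2
  rw [div_eq_inv_mul]
  ring

theorem P_diff {n : ℕ} (X : E (n + 1)) (hX : 0 < ‖X‖ + lst X) : DifferentiableAt ℝ P X :=
  (Stp_has X hX).differentiableAt

theorem P_norm {n : ℕ} (X e : E (n + 1)) (hX : 0 < ‖X‖ + lst X) :
    ‖fderiv ℝ P X e‖ ^ 2 = ((‖X‖ + lst X)⁻¹) ^ 2 * (‖e‖ ^ 2 - (inner ℝ X e / ‖X‖) ^ 2) := by
  rw [Stp_fd X e hX]
  have hr : 0 < ‖X‖ := norm_pos_iff.2 (Stp_ne hX)
  have h1 := norm_sq_eq X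
  have h2 := norm_sq_eq e
  have h3 := inner_eq X e
  obtain ⟨g, hg⟩ : ∃ g, g = inner ℝ X e / ‖X‖ := ⟨_, rfl⟩
  have h4 : inner ℝ X e = ‖X‖ * g := by
    rw [hg]
    field_simp
  rw [← hg]
  rw [h4] at h3
  have h5 : ∀ (a b : ℝ) (u v : E n), ‖a • u - b • v‖ ^ 2 =
      a ^ 2 * ‖u‖ ^ 2 - 2 * (a * b) * inner ℝ v u + b ^ 2 * ‖v‖ ^ 2 := by
    intro a b u v
    rw [@norm_sub_sq_real, norm_smul, norm_smul, real_inner_smul_left, real_inner_smul_right,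
      mul_pow, mul_pow, Real.norm_eq_abs, Real.norm_eq_abs, sq_abs, sq_abs, real_inner_comm]
    ring
  rw [h5]
  have h6 : inner ℝ (ini n X) (ini n e) = ‖X‖ * g - lst X * lst e := by linarith
  have h7 : ‖ini n e‖ ^ 2 = ‖e‖ ^ 2 - lst e ^ 2 := by linarith
  have h8 : ‖ini n X‖ ^ 2 = ‖X‖ ^ 2 - lst X ^ 2 := by linarith
  rw [h6, h7, h8]
  clear h1 h2 h3 h4 h5 h6 h7 h8 hg
  generalize ‖X‖ = r at *
  generalize lst X = l at *
  generalize lst e = m at *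
  generalize ‖e‖ = q at *
  have hne : r + l ≠ 0 := hX.ne'
  field_simp
  ring

theorem Stp_c0 {n : ℕ} (X : E (n + 3)) (c : ℝ) : (c • ini (n + 2) X) 0 = c * X 0 := rfl

theorem Stp_c1 {n : ℕ} (X : E (n + 3)) (c : ℝ) : (c • ini (n + 2) X) 1 = c * X 1 := rfl

theorem P_th {n : ℕ} (X e : E (n + 3)) (hX : 0 < ‖X‖ + lst X) (he : inner ℝ e (th X) = 0) :
    inner ℝ (fderiv ℝ P X e) (th (P X)) = 0 := by
  rw [inner_th] at he
  rw [inner_th, Stp_fd X e hX]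
  have e0 : (P X) 0 = (‖X‖ + lst X)⁻¹ * X 0 := rfl
  have e1 : (P X) 1 = (‖X‖ + lst X)⁻¹ * X 1 := rfl
  rw [e0, e1]
  simp only [PiLp.sub_apply, Stp_c0, Stp_c1]
  linear_combination ((‖X‖ + lst X)⁻¹) ^ 2 * he

theorem P_ax {n : ℕ} (X : E (n + 3)) (hX : 0 < ‖X‖ + lst X) : ax (P X) ↔ ax X := by
  have e0 : (P X) 0 = (‖X‖ + lst X)⁻¹ * X 0 := rfl
  have e1 : (P X) 1 = (‖X‖ + lst X)⁻¹ * X 1 := rfl
  unfold ax
  rw [e0, e1]
  have h : (‖X‖ + lst X)⁻¹ ≠ 0 := inv_ne_zero hX.ne'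
  simp [h]

end MB
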