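import Pool.Agent.H16.MB.Lft

/-!
Row Vol (MP_c844e7, about 90 lines).  Change of variables for the lift.

PROOF.  `Om_open`: the set `{X | 0 < ‖X‖ + lst X}` is open (continuity; `lst` is continuous), `P` is continuous on it (`P_diff`), `ax` is a closed condition
(`X 0 = 0 ∧ X 1 = 0`), so `Om n R` is open, hence measurable.
`vol`: on `Ω = Om n R`: `U = lift S G` is differentiable at every point (`lift_diff`; `hG.diff` with `¬ ax (P X)` by `P_ax`).  `U` is injective on `Ω`: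
`U X = U X'` gives `‖X‖ = ‖X'‖` (`lift_norm`), positive, so `S(G(P X)) = S(G(P X'))`, `G(P X) = G(P X')` (`hS.inj`), `P X = P X'` (`hG.inj`), and
`X = ‖X‖ sg(P X) = X'` (`sg_P`).  `lintegral_image_eq_lintegral_abs_det_fderiv_mul volume` with `f' = fderiv ℝ U` and
`g Z = ofReal (exp(-‖Z‖²/2))`: `∫⁻_{U '' Ω} g = ∫⁻_Ω ofReal |det DU| * g (U X)`, `‖U X‖ = ‖X‖`; and `∫⁻_{U '' Ω} g ≤ ∫⁻ g`
(`setLIntegral_le_lintegral`).
-/

set_option autoImplicit false

open MeasureTheory Set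

namespace MB

theorem Vol_lst (n : ℕ) : Continuous (lst : E (n + 1) → ℝ) := by
  unfold lst
  fun_prop

theorem Om_open (n : ℕ) (R : ℝ) : IsOpen (Om n R) := by
  have h1 : IsOpen {X : E (n + 3) | 0 < ‖X‖ + lst X} :=
    isOpen_lt continuous_const (continuous_norm.add (Vol_lst (n + 2)))
  have h2 : ContinuousOn (P : E (n + 3) → E (n + 2)) {X : E (n + 3) | 0 < ‖X‖ + lst X} :=
    fun X hX => (P_diff X hX).continuousAt.continuousWithinAt
  have h3 := h2.isOpen_inter_preimage h1 (Metric.isOpen_ball (x := (0 : E (n + 2))) (ε := R))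
  have h4 : IsClosed {X : E (n + 3) | ax X} := by
    unfold ax
    have c0 : Continuous fun X : E (n + 3) => X 0 := by fun_prop
    have c1 : Continuous fun X : E (n + 3) => X 1 := by fun_prop
    exact (isClosed_eq c0 continuous_const).inter (isClosed_eq c1 continuous_const)
  have h5 := h3.inter h4.isOpen_compl
  have h6 : Om n R = {X : E (n + 3) | 0 < ‖X‖ + lst X} ∩ P ⁻¹' Metric.ball (0 : E (n + 2)) R ∩
      {X : E (n + 3) | ax X}ᶜ := by
    ext X
    unfold Om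
    simp only [mem_ofPred_eq, mem_inter_iff, mem_preimage, mem_compl_iff]
    tauto
  rw [h6]
  exact h5

theorem vol {n : ℕ} {c R : ℝ} {G : E (n + 2) → E (n + 2)} (hG : Dat c R G)
    {S : E (n + 2) → E (n + 3)} {μ : E (n + 2) → ℝ} (hS : ConfS S μ) :
    ∫⁻ X in Om n R, ENNReal.ofReal |(fderiv ℝ (lift S G) X).det| *
        ENNReal.ofReal (Real.exp (-‖X‖ ^ 2 / 2)) ≤
      ∫⁻ Z : E (n + 3), ENNReal.ofReal (Real.exp (-‖Z‖ ^ 2 / 2)) := by
  have hm : MeasurableSet (Om n R) := (Om_open n R).measurableSet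
  have hd : ∀ X ∈ Om n R, HasFDerivWithinAt (lift S G) (fderiv ℝ (lift S G) X) (Om n R) X := by
    rintro X ⟨hX1, hX2, hX3⟩
    have hy : ¬ ax (P X) := fun h => hX3 ((P_ax X hX1).1 h)
    exact (lift_diff hS G X hX1 (hG.diff _ hX2 hy)).hasFDerivAt.hasFDerivWithinAt
  have hinj : Set.InjOn (lift S G) (Om n R) := by
    rintro X ⟨hX1, hX2, hX3⟩ Y ⟨hY1, hY2, hY3⟩ hXY
    have h1 : ‖X‖ = ‖Y‖ := by
      rw [← lift_norm hS G X, ← lift_norm hS G Y, hXY]
    have h0 : 0 < ‖X‖ := Sg_norm_pos X hX1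
    have h2 : S (G (P X)) = S (G (P Y)) := by
      unfold lift at hXY
      rw [← h1] at hXY
      exact smul_right_injective _ h0.ne' hXY
    have h3 : P X = P Y := hG.inj hX2 hY2 (hS.inj h2)
    rw [← sg_P X hX1, ← sg_P Y hY1, h1, h3]
  have h := lintegral_image_eq_lintegral_abs_det_fderiv_mul volume hm hd hinj
    (fun Z => ENNReal.ofReal (Real.exp (-‖Z‖ ^ 2 / 2)))
  have h2 : ∫⁻ X in Om n R, ENNReal.ofReal |(fderiv ℝ (lift S G) X).det| *
        ENNReal.ofReal (Real.exp (-‖X‖ ^ 2 / 2)) =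
      ∫⁻ Z in lift S G '' Om n R, ENNReal.ofReal (Real.exp (-‖Z‖ ^ 2 / 2)) := by
    rw [h]
    refine lintegral_congr fun X => ?_
    rw [lift_norm hS]
  rw [h2]
  exact setLIntegral_le_lintegral _ _

end MB
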