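import Pool.Agent.H16.MB.Gram
import Pool.Agent.H16.MB.Stp

/-!
Row Win (MP_c844e7, about 150 lines).  The derivative of the winding map off the axis.

PROOF.  Let `z = x 0 + i x 1 ≠ 0` and `φ z = z^k/‖z‖^(k-1)` (`k ≥ 1`), real differentiable at `z ≠ 0`.  Derivative in the radial and angular direction: for `v ∈ ℂ` write `v = z w`
(`w = v/z`); then `Dφ(z) v = φ(z) (Re w + i k Im w)`: indeed `D(z^k) v = k z^k w`, and `D‖z‖ v = ‖z‖ Re w`, so `Dφ v = φ(z)(k w - (k-1) Re w)`.  Hence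
`‖Dφ v‖² = ‖z‖²((Re w)² + k²(Im w)²) = ‖v‖² + (k²-1)‖z‖²(Im w)²`, and `‖z‖² Im w = Im(conj z · v) = x 0 v₁ - x 1 v₀ = ⟪h, th x⟫` for `v = (h 0, h 1)`
(`inner_th`: `⟪h, th x⟫ = -(h 0 * x 1) + h 1 * x 0`), `‖th x‖ = ‖z‖`.  The other coordinates are unchanged, so with `e = th x/‖th x‖`:
`‖Dw h‖² = ‖h‖² + (k²-1)⟪e,h⟫² = k²⟪e,h⟫² + 1·(‖h‖² - ⟪e,h⟫²)`.  `gram` (`β = k`, `ν = 1`): `|det| = k`; and if `⟪h, th x⟫ = 0` the norm is preserved.
The map `winding k` is differentiable at `x` because its coordinates are (`differentiableAt_piLp`/`differentiableAt_euclidean`); compute the derivative along lines `t ↦ x + t h`, or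
write the coordinates `0, 1` as real and imaginary part of `φ` composed with the linear map `x ↦ x 0 + i x 1`.
-/

set_option autoImplicit false

open MeasureTheory Set

namespace MB

/-- The projection to the plane of the winding. -/
private noncomputable def Win_Z (n : ℕ) : E (n + 2) →L[ℝ] ℂ :=
  (Complex.equivRealProdCLM.symm : ℝ × ℝ →L[ℝ] ℂ).comp
    ((EuclideanSpace.proj (0 : Fin (n + 2)) : E (n + 2) →L[ℝ] ℝ).prod
      (EuclideanSpace.proj (1 : Fin (n + 2)) : E (n + 2) →L[ℝ] ℝ))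

private lemma Win_Z_apply {n : ℕ} (x : E (n + 2)) : Win_Z n x = ⟨x 0, x 1⟩ := by
  apply Complex.ext
  · simp [Win_Z]
  · simp [Win_Z]

private lemma Win_ne {n : ℕ} {x : E (n + 2)} (hx : ¬ ax x) : Win_Z n x ≠ 0 := by
  rw [Win_Z_apply]
  intro h
  apply hx
  exact ⟨congrArg Complex.re h, congrArg Complex.im h⟩

private noncomputable def Win_phi (k : ℕ) (z : ℂ) : ℂ := z ^ k / (‖z‖ : ℂ) ^ (k - 1)

private lemma Win_phi_diff (k : ℕ) {z : ℂ} (hz : z ≠ 0) :
    DifferentiableAt ℝ (Win_phi k) z := by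
  unfold Win_phi
  have h1 : DifferentiableAt ℝ (fun z : ℂ => z ^ k) z := differentiableAt_id.pow k
  have h2 : DifferentiableAt ℝ (fun z : ℂ => ‖z‖) z := differentiableAt_id.norm ℝ hz
  have h3 : DifferentiableAt ℝ (fun z : ℂ => (‖z‖ : ℂ)) z :=
    Complex.ofRealCLM.differentiableAt.comp z h2
  have h4 : DifferentiableAt ℝ (fun z : ℂ => (‖z‖ : ℂ) ^ (k - 1)) z := h3.pow (k - 1)
  have h5 : (‖z‖ : ℂ) ≠ 0 := by
    rw [Complex.ofReal_ne_zero]
    exact norm_ne_zero_iff.2 hz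
  have h6 : DifferentiableAt ℝ (fun z : ℂ => ((‖z‖ : ℂ) ^ (k - 1))⁻¹) z :=
    h4.inv (pow_ne_zero _ h5)
  have h7 : (fun z : ℂ => z ^ k / (‖z‖ : ℂ) ^ (k - 1)) =
      fun z : ℂ => z ^ k * ((‖z‖ : ℂ) ^ (k - 1))⁻¹ := by
    funext z
    rw [div_eq_mul_inv]
  rw [h7]
  exact h1.mul h6

private lemma Win_coord {n k : ℕ} (x : E (n + 2)) (i : Fin (n + 2)) :
    winding (n := n) k x i = if i = 0 then (Win_phi k (Win_Z n x)).re
      else if i = 1 then (Win_phi k (Win_Z n x)).im else x i := by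
  rw [Win_Z_apply]
  rfl

theorem winding_diff {n k : ℕ} (hk : 1 ≤ k) (x : E (n + 2)) (hx : ¬ ax x) :
    DifferentiableAt ℝ (winding (n := n) k) x := by
  have hz := Win_ne hx
  have h1 : DifferentiableAt ℝ (fun y : E (n + 2) => Win_phi k (Win_Z n y)) x :=
    (Win_phi_diff k hz).comp x (Win_Z n).differentiableAt
  rw [differentiableAt_euclidean]
  intro i
  have e : (fun y : E (n + 2) => winding (n := n) k y i) = fun y =>
      if i = 0 then (Win_phi k (Win_Z n y)).re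
      else if i = 1 then (Win_phi k (Win_Z n y)).im else y i := by
    funext y
    exact Win_coord y i
  rw [e]
  by_cases hi0 : i = 0
  · simp only [if_pos hi0]
    exact Complex.reCLM.differentiableAt.comp x h1
  · by_cases hi1 : i = 1
    · simp only [if_neg hi0, if_pos hi1]
      exact Complex.imCLM.differentiableAt.comp x h1
    · simp only [if_neg hi0, if_neg hi1]
      exact (EuclideanSpace.proj i : E (n + 2) →L[ℝ] ℝ).differentiableAt

private lemma Win_line (j : ℕ) {z : ℂ} (hz : z ≠ 0) (v : ℂ) :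
    HasDerivAt (fun t : ℝ => Win_phi (j + 1) (z + t * v))
      (Win_phi (j + 1) z * (((j : ℂ) + 1) * (v / z) - j * ((v / z).re : ℂ))) 0 := by
  have hlin : HasDerivAt (fun t : ℝ => z + (t : ℂ) * v) v 0 := by
    have h1 : HasDerivAt (fun t : ℝ => (t : ℂ)) 1 0 := Complex.ofRealCLM.hasDerivAt
    have h2 := (h1.mul_const v).const_add z
    simpa using h2
  have hf : HasDerivAt (fun t : ℝ => (z + (t : ℂ) * v) ^ (j + 1))
      (((j + 1 : ℕ) : ℂ) * z ^ j * v) 0 := by
    have h := hlin.fun_pow (j + 1)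
    simpa using h
  have hr : HasDerivAt (fun t : ℝ => ‖z + (t : ℂ) * v‖) ((v / z).re * ‖z‖) 0 := by
    have h1 : HasDerivAt (fun t : ℝ => ‖z + (t : ℂ) * v‖ ^ 2) (2 * ((v / z).re * ‖z‖ ^ 2)) 0 := by
      have h2 := hlin.norm_sq
      simp only [Complex.ofReal_zero, zero_mul, add_zero] at h2
      have h3 : inner ℝ z v = (v / z).re * ‖z‖ ^ 2 := by
        rw [Complex.inner]
        have h4 : v * (starRingEnd ℂ) z = (v / z) * ((‖z‖ ^ 2 : ℝ) : ℂ) := by
          have h5 : ((‖z‖ ^ 2 : ℝ) : ℂ) = z * (starRingEnd ℂ) z := by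
            rw [Complex.mul_conj, Complex.normSq_eq_norm_sq]
          rw [h5]
          field_simp
        rw [h4, Complex.re_mul_ofReal]
      rw [h3] at h2
      exact h2
    have h2 := h1.sqrt (by
      simp only [Complex.ofReal_zero, zero_mul, add_zero]
      exact pow_ne_zero _ (norm_ne_zero_iff.2 hz))
    have h3 : (fun t : ℝ => √(‖z + (t : ℂ) * v‖ ^ 2)) = fun t : ℝ => ‖z + (t : ℂ) * v‖ := by
      funext t
      exact Real.sqrt_sq (norm_nonneg _)
    simp only [Complex.ofReal_zero, zero_mul, add_zero] at h2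
    rw [h3, Real.sqrt_sq (norm_nonneg _)] at h2
    convert h2 using 1
    have := norm_ne_zero_iff.2 hz
    field_simp
  have hr' : HasDerivAt (fun t : ℝ => ((‖z + (t : ℂ) * v‖ : ℝ) : ℂ))
      (((v / z).re * ‖z‖ : ℝ) : ℂ) 0 := hr.ofReal_comp
  have hn : (‖z‖ : ℂ) ≠ 0 := by
    rw [Complex.ofReal_ne_zero]
    exact norm_ne_zero_iff.2 hz
  have hg : HasDerivAt (fun t : ℝ => ((‖z + (t : ℂ) * v‖ : ℝ) : ℂ) ^ j)
      ((j : ℂ) * (v / z).re * (‖z‖ : ℂ) ^ j) 0 := by
    have h := hr'.fun_pow j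
    simp only [Complex.ofReal_zero, zero_mul, add_zero] at h
    refine h.congr_deriv ?_
    rcases j with _ | i
    · simp
    · simp only [Nat.add_sub_cancel]
      push_cast
      ring
  have hq := hf.fun_div hg (by
    simp only [Complex.ofReal_zero, zero_mul, add_zero]
    exact pow_ne_zero _ hn)
  have e : (fun t : ℝ => Win_phi (j + 1) (z + t * v)) =
      fun t : ℝ => (z + (t : ℂ) * v) ^ (j + 1) / ((‖z + (t : ℂ) * v‖ : ℝ) : ℂ) ^ j := by
    funext t
    unfold Win_phi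
    rw [Nat.add_sub_cancel]
  rw [e]
  refine hq.congr_deriv ?_
  simp only [Complex.ofReal_zero, zero_mul, add_zero]
  unfold Win_phi
  rw [Nat.add_sub_cancel]
  have hp : (‖z‖ : ℂ) ^ j ≠ 0 := pow_ne_zero _ hn
  push_cast
  generalize (((v / z).re : ℝ) : ℂ) = ρ
  field_simp
  ring

private lemma Win_sq (j : ℕ) {z : ℂ} (hz : z ≠ 0) (v : ℂ) :
    ‖Win_phi (j + 1) z * (((j : ℂ) + 1) * (v / z) - j * ((v / z).re : ℂ))‖ ^ 2 =
      ‖v‖ ^ 2 + (((j : ℝ) + 1) ^ 2 - 1) * (v.im * z.re - v.re * z.im) ^ 2 / ‖z‖ ^ 2 := by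
  have hn : ‖z‖ ≠ 0 := norm_ne_zero_iff.2 hz
  have h1 : ‖Win_phi (j + 1) z‖ = ‖z‖ := by
    unfold Win_phi
    rw [Nat.add_sub_cancel, norm_div, norm_pow, norm_pow, Complex.norm_real, norm_norm, pow_succ]
    field_simp
  obtain ⟨w, hw⟩ : ∃ w, w = v / z := ⟨_, rfl⟩
  have hv : v = w * z := by rw [hw]; field_simp
  have h2 : ‖((j : ℂ) + 1) * w - j * (w.re : ℂ)‖ ^ 2 = w.re ^ 2 + ((j : ℝ) + 1) ^ 2 * w.im ^ 2 := by
    rw [← Complex.normSq_eq_norm_sq, Complex.normSq_apply]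
    have e1 : (((j : ℂ) + 1) * w - j * (w.re : ℂ)).re = w.re := by
      simp
      ring
    have e2 : (((j : ℂ) + 1) * w - j * (w.re : ℂ)).im = ((j : ℝ) + 1) * w.im := by
      simp
    rw [e1, e2]
    ring
  rw [← hw, norm_mul, mul_pow, h1, h2, hv, norm_mul, mul_pow]
  have h3 : ‖w‖ ^ 2 = w.re ^ 2 + w.im ^ 2 := by
    rw [← Complex.normSq_eq_norm_sq, Complex.normSq_apply]
    ring
  have h4 : ‖z‖ ^ 2 = z.re ^ 2 + z.im ^ 2 := by
    rw [← Complex.normSq_eq_norm_sq, Complex.normSq_apply]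
    ring
  have h5 : (w * z).im * z.re - (w * z).re * z.im = w.im * ‖z‖ ^ 2 := by
    rw [h4, Complex.mul_im, Complex.mul_re]
    ring
  rw [h5, h3]
  field_simp
  ring

private lemma Win_main {n k : ℕ} (hk : 1 ≤ k) (x h : E (n + 2)) (hx : ¬ ax x) :
    ‖fderiv ℝ (winding (n := n) k) x h‖ ^ 2 =
      ‖h‖ ^ 2 + ((k : ℝ) ^ 2 - 1) * (inner ℝ h (th x)) ^ 2 / ‖th x‖ ^ 2 := by
  obtain ⟨j, rfl⟩ : ∃ j, k = j + 1 := ⟨k - 1, by omega⟩
  have hz := Win_ne hx
  obtain ⟨z, hzd⟩ : ∃ z, z = Win_Z n x := ⟨_, rfl⟩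
  obtain ⟨v, hvd⟩ : ∃ v, v = Win_Z n h := ⟨_, rfl⟩
  rw [← hzd] at hz
  have hD : HasDerivAt (fun t : ℝ => winding (n := n) (j + 1) (x + t • h))
      (fderiv ℝ (winding (n := n) (j + 1)) x h) 0 := by
    have h1 := (winding_diff hk x hx).hasFDerivAt
    have h2 : HasDerivAt (fun t : ℝ => x + t • h) h 0 := by
      have := ((hasDerivAt_id (0 : ℝ)).smul_const h).const_add x
      simpa using this
    have h3 : HasFDerivAt (winding (n := n) (j + 1)) (fderiv ℝ (winding (n := n) (j + 1)) x)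
        (x + (0 : ℝ) • h) := by
      rw [zero_smul, add_zero]
      exact h1
    exact h3.comp_hasDerivAt 0 h2
  have hc : ∀ i, HasDerivAt (fun t : ℝ => winding (n := n) (j + 1) (x + t • h) i)
      (fderiv ℝ (winding (n := n) (j + 1)) x h i) 0 := by
    intro i
    exact ((EuclideanSpace.proj i : E (n + 2) →L[ℝ] ℝ).hasFDerivAt).comp_hasDerivAt 0 hD
  have hphi := Win_line j hz v
  have hZ : ∀ t : ℝ, Win_Z n (x + t • h) = z + t * v := by
    intro t
    rw [map_add, map_smul, ← hzd, ← hvd, Complex.real_smul]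
  obtain ⟨d, hd⟩ : ∃ d, d = Win_phi (j + 1) z * (((j : ℂ) + 1) * (v / z) -
    j * ((v / z).re : ℂ)) := ⟨_, rfl⟩
  rw [← hd] at hphi
  have h0 : fderiv ℝ (winding (n := n) (j + 1)) x h 0 = d.re := by
    refine (hc 0).unique ?_
    have e : (fun t : ℝ => winding (n := n) (j + 1) (x + t • h) 0) =
        fun t : ℝ => (Win_phi (j + 1) (z + t * v)).re := by
      funext t
      rw [Win_coord, if_pos rfl, hZ]
    rw [e]
    exact Complex.reCLM.hasFDerivAt.comp_hasDerivAt 0 hphi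
  have h1 : fderiv ℝ (winding (n := n) (j + 1)) x h 1 = d.im := by
    refine (hc 1).unique ?_
    have e : (fun t : ℝ => winding (n := n) (j + 1) (x + t • h) 1) =
        fun t : ℝ => (Win_phi (j + 1) (z + t * v)).im := by
      funext t
      rw [Win_coord, if_neg (by simp), if_pos rfl, hZ]
    rw [e]
    exact Complex.imCLM.hasFDerivAt.comp_hasDerivAt 0 hphi
  have h2 : ∀ i : Fin n, fderiv ℝ (winding (n := n) (j + 1)) x h i.succ.succ =
      h i.succ.succ := by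
    intro i
    refine (hc i.succ.succ).unique ?_
    have e : (fun t : ℝ => winding (n := n) (j + 1) (x + t • h) i.succ.succ) =
        fun t : ℝ => x i.succ.succ + t * h i.succ.succ := by
      funext t
      rw [Win_coord, if_neg (Fin.succ_ne_zero _), if_neg (by
        intro hh
        have := Fin.succ_injective _ (hh.trans (Fin.succ_zero_eq_one).symm)
        exact Fin.succ_ne_zero _ this)]
      simp
    rw [e]
    have := ((hasDerivAt_id (0 : ℝ)).mul_const (h i.succ.succ)).const_add (x i.succ.succ)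
    simpa using this
  have hs : ∀ y : E (n + 2), ‖y‖ ^ 2 = y 0 ^ 2 + y 1 ^ 2 + ∑ i : Fin n, y i.succ.succ ^ 2 := by
    intro y
    rw [EuclideanSpace.norm_sq_eq, Fin.sum_univ_succ, Fin.sum_univ_succ]
    simp only [Real.norm_eq_abs, sq_abs, Fin.succ_zero_eq_one]
    ring
  have hdn : ‖d‖ ^ 2 = d.re ^ 2 + d.im ^ 2 := by
    rw [← Complex.normSq_eq_norm_sq, Complex.normSq_apply]
    ring
  have hsq := Win_sq j hz v
  rw [← hd, hdn] at hsq
  have hvn : ‖v‖ ^ 2 = h 0 ^ 2 + h 1 ^ 2 := by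
    rw [← Complex.normSq_eq_norm_sq, Complex.normSq_apply, hvd, Win_Z_apply]
    ring
  have hzn : ‖z‖ ^ 2 = x 0 ^ 2 + x 1 ^ 2 := by
    rw [← Complex.normSq_eq_norm_sq, Complex.normSq_apply, hzd, Win_Z_apply]
    ring
  have hin : v.im * z.re - v.re * z.im = inner ℝ h (th x) := by
    rw [inner_th, hvd, hzd, Win_Z_apply, Win_Z_apply]
    ring
  have hth : ‖th x‖ ^ 2 = x 0 ^ 2 + x 1 ^ 2 := by
    rw [← real_inner_self_eq_norm_sq, inner_th]
    have e0 : (th x) 0 = -x 1 := rfl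
    have e1 : (th x) 1 = x 0 := by
      change (if (1 : Fin (n + 2)) = 0 then -x 1 else if (1 : Fin (n + 2)) = 1 then x 0 else 0) = x 0
      rw [if_neg (by simp), if_pos rfl]
    rw [e0, e1]
    ring
  rw [hin, hzn, ← hth, hvn] at hsq
  rw [hs (fderiv ℝ (winding (n := n) (j + 1)) x h), h0, h1, hsq, hs h]
  have h3 : ∑ i : Fin n, (fderiv ℝ (winding (n := n) (j + 1)) x h i.succ.succ) ^ 2 =
      ∑ i : Fin n, h i.succ.succ ^ 2 := Finset.sum_congr rfl fun i _ => by rw [h2 i]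
  rw [h3]
  push_cast
  ring

theorem winding_norm {n k : ℕ} (hk : 1 ≤ k) (x h : E (n + 2)) (hx : ¬ ax x)
    (hh : inner ℝ h (th x) = 0) : ‖fderiv ℝ (winding (n := n) k) x h‖ = ‖h‖ := by
  have h1 := Win_main hk x h hx
  rw [hh] at h1
  have h2 : ‖fderiv ℝ (winding (n := n) k) x h‖ ^ 2 = ‖h‖ ^ 2 := by
    rw [h1]
    simp
  exact (sq_eq_sq₀ (norm_nonneg _) (norm_nonneg _)).1 h2

theorem winding_det {n k : ℕ} (hk : 1 ≤ k) (x : E (n + 2)) (hx : ¬ ax x) :
    |(fderiv ℝ (winding (n := n) k) x).det| = k := by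
  have hth : ‖th x‖ ≠ 0 := by
    intro h0
    have h1 : inner ℝ (th x) (th x) = 0 := by
      rw [real_inner_self_eq_norm_sq, h0]
      ring
    rw [inner_th] at h1
    have e0 : (th x) 0 = -x 1 := rfl
    have e1 : (th x) 1 = x 0 := by
      change (if (1 : Fin (n + 2)) = 0 then -x 1 else if (1 : Fin (n + 2)) = 1 then x 0 else 0) = x 0
      rw [if_neg (by simp), if_pos rfl]
    rw [e0, e1] at h1
    apply hx
    constructor
    · nlinarith [sq_nonneg (x 0), sq_nonneg (x 1)]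
    · nlinarith [sq_nonneg (x 0), sq_nonneg (x 1)]
  have he : ‖(‖th x‖)⁻¹ • th x‖ = 1 := by
    rw [norm_smul, norm_inv, norm_norm, inv_mul_cancel₀ hth]
  have h1 := gram (m := n + 1) (fderiv ℝ (winding (n := n) k) x) ((‖th x‖)⁻¹ • th x) he k 1
    one_pos (fun u => by
      rw [Win_main hk x u hx, inner_smul_left, real_inner_comm]
      simp only [conj_trivial]
      field_simp
      ring)
  rw [one_pow, mul_one, Nat.abs_cast] at h1
  exact h1

end MB
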